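import Mathlib
import Pool.Agent.MP_9207e0_ag.hg.Spec
import Pool.Agent.MP_a43263_nt.R2.Desc

-- ======== part 0: formerly Pool.Agent.MP_9207e0_ag.h2.Spec
section MrgPart0

/-! Second stage: the Heegner points generate, up to finite index, all points over
`ℚ(i, √2, √p)`. Definitions and statements of the modules. -/

set_option linter.unusedSectionVars false
set_option linter.unusedVariables false

namespace Pool.Agent.MP_9207e0_ag.h2

open UpperHalfPlane Complex Filter Asymptotics Matrix WeierstrassCurve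
open scoped Real MatrixGroups Manifold Classical
open Pool.Agent.MP_9207e0_ag.hg
open Pool.Agent.MP_a43263_nt (Pt)
open Pool.Agent.MP_a43263_nt.Two (IsE ZR Sg some_eq)
open Pool.Agent.MP_a43263_nt.R2 (Ecv)

/-! ### Scaling maps between curves `y ^ 2 = x (x - a) (x - b)` -/

section Scale

variable {F F' : Type} [Field F] [Field F'] [DecidableEq F] [DecidableEq F']
  {V : WeierstrassCurve.Affine F} {V' : WeierstrassCurve.Affine F'} {a b : F}

/-- The map that multiplies `f x` by `u ^ 2` and `f y` by `u ^ 3`. -/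
noncomputable def scl (f : F →+* F') (u : F') (hu : u ≠ 0) (hV : IsE V a b)
    (hV' : IsE V' (u ^ 2 * f a) (u ^ 2 * f b)) : V.Point →+ V'.Point where
  toFun P := match P with
    | 0 => 0
    | .some x y h => .some (u ^ 2 * f x) (u ^ 3 * f y) (hV'.ns (by
        have := congrArg f (hV.eqn h)
        simp only [map_pow, map_mul, map_sub] at this
        linear_combination u ^ 6 * this))
  map_zero' := rfl
  map_add' := by
    rintro (_ | ⟨x₁, y₁, h₁⟩) (_ | ⟨x₂, y₂, h₂⟩)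
    any_goals rfl
    have hu2 := pow_ne_zero 2 hu
    have hu3 := pow_ne_zero 3 hu
    have i2 : ∀ {s t : F}, u ^ 2 * f s = u ^ 2 * f t ↔ s = t := fun {s t} => by
      rw [mul_right_inj' hu2, f.injective.eq_iff]
    have i3 : ∀ {s t : F}, u ^ 3 * f s = V'.negY (u ^ 2 * f x₂) (u ^ 3 * f t) ↔
        s = V.negY x₂ t := fun {s t} => by
      rw [hV.negY, hV'.negY, ← mul_neg, ← map_neg, mul_right_inj' hu3, f.injective.eq_iff]
    by_cases hxy : x₁ = x₂ ∧ y₁ = V.negY x₂ y₂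
    · rw [Affine.Point.add_of_Y_eq hxy.left hxy.right,
        Affine.Point.add_of_Y_eq (i2.2 hxy.left) (i3.2 hxy.right)]
    · have hxy' : ¬(u ^ 2 * f x₁ = u ^ 2 * f x₂ ∧
          u ^ 3 * f y₁ = V'.negY (u ^ 2 * f x₂) (u ^ 3 * f y₂)) := by rwa [i2, i3]
      have s : V'.slope (u ^ 2 * f x₁) (u ^ 2 * f x₂) (u ^ 3 * f y₁) (u ^ 3 * f y₂) =
          u * f (V.slope x₁ x₂ y₁ y₂) := by
        by_cases hx : x₁ = x₂
        · subst hx
          have hy : y₁ ≠ V.negY x₁ y₂ := fun h => hxy ⟨rfl, h⟩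
          rw [Affine.slope_of_Y_ne rfl hy, Affine.slope_of_Y_ne rfl (i3.not.2 hy), hV.negY,
            hV'.negY, hV.h1, hV.h2, hV.h4, hV'.h1, hV'.h2, hV'.h4]
          simp only [map_div₀, map_add, map_sub, map_mul, map_neg, map_pow, map_ofNat, map_zero]
          rw [show u ^ 3 * f y₁ - -(u ^ 3 * f y₁) = u ^ 3 * (f y₁ - -f y₁) by ring, mul_div_assoc',
            ← mul_div_mul_left _ (f y₁ - -f y₁) hu3]
          congr 1
          ring
        · rw [Affine.slope_of_X_ne hx, Affine.slope_of_X_ne (i2.not.2 hx)]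
          simp only [map_div₀, map_sub]
          rw [← mul_sub, ← mul_sub, mul_div_assoc', ← mul_div_mul_left _ (f x₁ - f x₂) hu2]
          congr 1
          ring
      have t : ∀ L, V'.addX (u ^ 2 * f x₁) (u ^ 2 * f x₂) (u * f L) =
          u ^ 2 * f (V.addX x₁ x₂ L) := fun L => by
        simp only [Affine.addX, hV.h1, hV.h2, hV'.h1, hV'.h2, map_add, map_sub, map_mul, map_neg,
          map_pow, map_zero]
        ring
      rw [Affine.Point.add_some hxy, Affine.Point.add_some hxy']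
      refine some_eq (by rw [s, t]) ?_
      rw [s, Affine.addY, Affine.addY, hV.negY, hV'.negY, Affine.negAddY, Affine.negAddY, t]
      simp only [map_add, map_sub, map_mul, map_neg]
      ring

variable (f : F →+* F') (u : F') (hu : u ≠ 0) (hV : IsE V a b)
  (hV' : IsE V' (u ^ 2 * f a) (u ^ 2 * f b))

lemma scl_some {x y : F} (h : V.Nonsingular x y) :
    ∃ h', scl f u hu hV hV' (.some x y h) = .some (u ^ 2 * f x) (u ^ 3 * f y) h' := ⟨_, rfl⟩

lemma scl_injective : Function.Injective (scl f u hu hV hV') := by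
  rw [injective_iff_map_eq_zero]
  rintro (_ | ⟨x, y, h⟩) e
  · rfl
  · exact absurd e (Affine.Point.some_ne_zero _)

lemma _root_.Pool.Agent.MP_a43263_nt.Two.ZR.scl {P : V.Point} {z0 z2 z3 t : F}
    (h : ZR a b P z0 z2 z3 t) :
    ZR (u ^ 2 * f a) (u ^ 2 * f b) (scl f u hu hV hV' P) (u * f z0) (u * f z2) (u * f z3) (f t) := by
  rcases P with _ | ⟨x, y, hP⟩
  · obtain ⟨h0, rfl, rfl, rfl⟩ := h
    exact ⟨mul_ne_zero hu (by simpa using h0), rfl, rfl, by simp⟩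
  · obtain ⟨k, hk, rfl, rfl, rfl, rfl⟩ := h
    refine ⟨f k / u ^ 3, div_ne_zero (by simpa using hk) (pow_ne_zero 3 hu), ?_, ?_, ?_, ?_⟩
    all_goals
      simp only [map_add, map_sub, map_mul, map_pow, map_ofNat]
      field_simp

end Scale

lemma isE_leg (F : Type) [Field F] [CharZero F] : IsE (legendre (-1 : F)) 1 (-1) :=
  ⟨rfl, rfl, rfl, by simp [legendre], rfl, one_ne_zero, by simp, by norm_num, two_ne_zero⟩

/-- The absolute Galois group. -/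
abbrev GQ : Type := Qbar ≃ₐ[ℚ] Qbar

/-- The Galois action on the points. -/
noncomputable def ga (σ : GQ) : EQ →+ EQ :=
  scl (σ : Qbar →+* Qbar) 1 one_ne_zero (isE_leg Qbar) (by simpa using isE_leg Qbar)

lemma ga_some (σ : GQ) {x y : Qbar} (h : (legendre (-1 : Qbar)).Nonsingular x y) :
    ∃ h', ga σ (.some x y h) = .some (σ x) (σ y) h' :=
  ⟨(isE_leg Qbar).ns (by simpa using congrArg σ ((isE_leg Qbar).eqn h)),
    some_eq (by simp) (by simp)⟩

lemma ga_one (P : EQ) : ga 1 P = P := by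
  rcases P with _ | ⟨x, y, h⟩
  · rfl
  · exact some_eq (by simp) (by simp)

lemma ga_mul (σ τ : GQ) (P : EQ) : ga (σ * τ) P = ga σ (ga τ P) := by
  rcases P with _ | ⟨x, y, h⟩
  · rfl
  · exact some_eq (by simp) (by simp)

lemma zr_ga (σ : GQ) {P : EQ} {z0 z2 z3 t : Qbar} (h : ZR 1 (-1) P z0 z2 z3 t) :
    ZR 1 (-1) (ga σ P) (σ z0) (σ z2) (σ z3) (σ t) := by
  have := h.scl (σ : Qbar →+* Qbar) 1 one_ne_zero (isE_leg Qbar) (by simpa using isE_leg Qbar)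
  simpa [ga] using this

/-- Complex multiplication, with new coordinates `-x` and `i y`. -/
noncomputable def cmJ (i : Qbar) (hi : i ^ 2 = -1) : EQ →+ EQ :=
  scl (RingHom.id Qbar) (-i) (by rintro h; simp [neg_eq_zero.1 h] at hi) (isE_leg Qbar)
    (by simpa [hi] using (isE_leg Qbar).symm)

lemma cmJ_some {i : Qbar} (hi : i ^ 2 = -1) {x y : Qbar}
    (h : (legendre (-1 : Qbar)).Nonsingular x y) :
    ∃ h', cmJ i hi (.some x y h) = .some (-x) (i * y) h' :=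
  ⟨(isE_leg Qbar).ns (by linear_combination y ^ 2 * hi - (isE_leg Qbar).eqn h),
    some_eq (by simp [hi]) (by simp only [RingHom.id_apply]; linear_combination (-i * y) * hi)⟩

lemma cmJ_cmJ {i : Qbar} (hi : i ^ 2 = -1) (P : EQ) : cmJ i hi (cmJ i hi P) = -P := by
  rcases P with _ | ⟨x, y, h⟩
  · rfl
  · obtain ⟨h1, e1⟩ := cmJ_some hi h
    obtain ⟨h2, e2⟩ := cmJ_some hi h1
    rw [e1, e2, Affine.Point.neg_some]
    exact some_eq (by simp) (by rw [(isE_leg Qbar).negY]; linear_combination y * hi)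

lemma ga_cmJ {i : Qbar} (hi : i ^ 2 = -1) (σ : GQ) (P : EQ) :
    (σ i = i → ga σ (cmJ i hi P) = cmJ i hi (ga σ P)) ∧
      (σ i = -i → ga σ (cmJ i hi P) = -cmJ i hi (ga σ P)) := by
  rcases P with _ | ⟨x, y, h⟩
  · exact ⟨fun _ => rfl, fun _ => rfl⟩
  · obtain ⟨h1, e1⟩ := cmJ_some hi h
    obtain ⟨h2, e2⟩ := ga_some σ h1
    obtain ⟨h3, e3⟩ := ga_some σ h
    obtain ⟨h4, e4⟩ := cmJ_some hi h3
    rw [e1, e2, e3, e4, Affine.Point.neg_some]
    exact ⟨fun e => some_eq (by simp) (by simp [e]),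
      fun e => some_eq (by simp) (by rw [(isE_leg Qbar).negY]; simp [e])⟩

lemma ptq_some {x y : Qbar} (h : y ^ 2 = x ^ 3 - x) : ∃ h', ptq x y = .some x y h' :=
  have h' := (isE_leg Qbar).ns (x := x) (y := y) (by linear_combination h)
  ⟨h', dif_pos h'⟩

/-! ### The elliptic curve side -/

/-- Points of infinite order. -/
def NT {A : Type} [AddCommGroup A] (P : A) : Prop := ∀ k : ℤ, k ≠ 0 → k • P ≠ 0

/-- The Galois group acts on `P` as on the square root `r` of a rational number. -/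
def Eig (r : Qbar) (P : EQ) : Prop :=
  ∀ σ : GQ, (σ r = r → ga σ P = P) ∧ (σ r = -r → ga σ P = -P)

/-- The map from the Fermat quartic to the curve. -/
noncomputable def PP (x : Qbar × Qbar) : EQ := ptq (1 / x.1 ^ 2) (x.2 ^ 2 / x.1 ^ 3)

/-- The automorphism of the Fermat quartic induced by `τ ↦ τ + 1`. -/
noncomputable def tt (ζ : Qbar) (x : Qbar × Qbar) : Qbar × Qbar := (ζ * x.1 / x.2, 1 / x.2)

/-- The Heegner points. -/
noncomputable def ww (ζ : Qbar) (X : Finset (Qbar × Qbar)) (k : ℕ) : EQ :=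
  ∑ x ∈ X, (PP ((tt ζ)^[k] x) - PP ((tt ζ)^[k] x.swap))

/-- The properties of the set of CM points on the Fermat quartic. -/
structure XD (p : ℕ) (X : Finset (Qbar × Qbar)) : Prop where
  odd : Odd X.card
  on : ∀ x ∈ X, x.1 ^ 4 + x.2 ^ 4 = 1 ∧ x.1 ≠ 0 ∧ x.2 ≠ 0
  gal : ∀ (σ : GQ) (r : Qbar), r ^ 2 = -p → ∀ x ∈ X,
    (σ r = r → (σ x.1, σ x.2) ∈ X) ∧ (σ r = -r → (σ x.2, σ x.1) ∈ X)

/-- Module TORS: two points of infinite order. -/
def TorsStmt : Prop :=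
  ∀ (p : ℕ) (X : Finset (Qbar × Qbar)) (ζ r s : Qbar) (hi : (ζ ^ 2) ^ 2 = -1), p.Prime →
    p % 8 = 7 → XD p X → r ^ 2 = -p → s ^ 2 = 2 * p →
    ww ζ X 2 = cmJ _ hi (ww ζ X 0) ∧ ww ζ X 3 = cmJ _ hi (ww ζ X 1) ∧
      Eig r (ww ζ X 0) ∧ NT (ww ζ X 0) ∧ Eig s (2 • ww ζ X 1 + 2 • ww ζ X 3) ∧
      NT (2 • ww ζ X 1 + 2 • ww ζ X 3)

/-- Module RANK: descent on `y ^ 2 = x ^ 3 - n ^ 2 x`. -/
structure RANK : Prop where
  zero : ∀ n : ℚ, n = 1 ∨ n = 2 → ∀ P : Pt (Ecv n (-n)) ℚ, ∃ k : ℤ, k ≠ 0 ∧ k • P = 0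
  one : ∀ (p : ℕ) (n : ℚ), p.Prime → p % 8 = 7 → n = p ∨ n = 2 * p →
    ∀ P Q : Pt (Ecv n (-n)) ℚ, NT Q → ∃ k l : ℤ, k ≠ 0 ∧ k • P = l • Q

/-- Module DEC: the points over `ℚ(i, √2, √p)`. -/
def DecStmt : Prop :=
  ∀ (p : ℕ) (i t r s : Qbar) (hi : i ^ 2 = -1) (a b : EQ) (M : AddSubgroup EQ), p.Prime →
    p % 8 = 7 → t ^ 2 = 2 → r ^ 2 = -p → s ^ 2 = 2 * p → Eig r a → NT a → Eig s b → NT b →
    (a ∈ M → cmJ i hi a ∈ M → b ∈ M → cmJ i hi b ∈ M →
      ∀ P : EQ, (∀ σ : GQ, σ i = i → σ t = t → σ r = r → ga σ P = P) →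
        ∃ k : ℤ, k ≠ 0 ∧ k • P ∈ M) ∧
      LinearIndependent ℤ ![a, cmJ i hi a, b, cmJ i hi b]

/-! ### The modular side -/

/-- The first coordinate on the Fermat quartic. -/
noncomputable def uu (τ : ℍ) : ℂ := th10 τ / th00 τ

/-- The second coordinate on the Fermat quartic. -/
noncomputable def vv (τ : ℍ) : ℂ := th01 τ / th00 τ

/-- The matrices that are diagonal modulo `8`. -/
def G8 : Subgroup SL2 where
  carrier := {γ | 8 ∣ (γ : M2) 0 1 ∧ 8 ∣ (γ : M2) 1 0}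
  one_mem' := by simp
  mul_mem' := by
    rintro g h ⟨a1, a2⟩ ⟨b1, b2⟩
    simp only [Set.mem_ofPred_eq, Matrix.SpecialLinearGroup.coe_mul, Matrix.mul_apply,
      Fin.sum_univ_two]
    exact ⟨(b1.mul_left _).add (a1.mul_right _), (a2.mul_right _).add (b2.mul_left _)⟩
  inv_mem' := by
    rintro g ⟨a1, a2⟩
    simp only [Set.mem_ofPred_eq, Matrix.SpecialLinearGroup.coe_inv, Matrix.adjugate_fin_two]
    exact ⟨by simpa using a1, by simpa using a2⟩

lemma mem_G8 {γ : SL2} : γ ∈ G8 ↔ 8 ∣ (γ : M2) 0 1 ∧ 8 ∣ (γ : M2) 1 0 := Iff.rfl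

lemma gam_le_G8 : Gam 8 ≤ G8 := fun γ h => by
  rw [CongruenceSubgroup.Gamma_mem] at h
  exact ⟨(ZMod.intCast_zmod_eq_zero_iff_dvd _ 8).1 h.2.1,
    (ZMod.intCast_zmod_eq_zero_iff_dvd _ 8).1 h.2.2.1⟩

/-- Values of `λ` that do not lie over `j = 0, 1728`. -/
def Gen (x : ℂ) : Prop := (x ^ 2 - x + 1) * (x + 1) * (2 * x - 1) * (x - 2) ≠ 0

/-- The factor of automorphy. -/
noncomputable def dn (A : M2) (τ : ℍ) : ℂ := (A 1 0 : ℂ) * τ + A 1 1

/-- The cocycle of the form `θ₀₀ ^ 4` of weight two. -/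
noncomputable def mu (A : M2) (τ : ℍ) : ℂ := th00 (mob A τ) ^ 4 / (dn A τ ^ 2 * th00 τ ^ 4)

lemma dn_mul {A B : M2} (hB : 0 < B.det) (τ : ℍ) : dn (A * B) τ = dn A (mob B τ) * dn B τ := by
  have := den_ne hB τ
  simp only [dn, coe_mob hB, Matrix.mul_apply, Fin.sum_univ_two]
  push_cast
  field_simp
  ring

lemma mu_mul (hT : THA) {A B : M2} (hA : 0 < A.det) (hB : 0 < B.det) (τ : ℍ) :
    mu (A * B) τ = mu A (mob B τ) * mu B τ := by
  have := (hT.ne (mob B τ)).1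
  simp only [mu, dn_mul hB, mob_mul hA hB]
  field_simp

/-- Module TH2: the action of the modular group on the Fermat quartic. -/
structure TH2 : Prop where
  rq : RQ 8 th00 ∧ RQ 8 th01 ∧ RQ 8 th10
  on : ∀ τ, uu τ ^ 4 + vv τ ^ 4 = 1 ∧ uu τ ≠ 0 ∧ vv τ ≠ 0
  lawS : ∀ τ, uu (ModularGroup.S • τ) = vv τ ∧ vv (ModularGroup.S • τ) = uu τ
  lawT : ∀ τ, uu (ModularGroup.T • τ) = ee (1 / 8) * uu τ / vv τ ∧
    vv (ModularGroup.T • τ) = 1 / vv τ
  chr : ∀ (γ : SL2) (b c : ℤ), (γ : M2) 0 1 = 2 * b → (γ : M2) 1 0 = 2 * c → ∀ τ,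
    uu (γ • τ) = Complex.I ^ (b * (γ : M2) 1 1) * uu τ ∧
      vv (γ • τ) = Complex.I ^ (-(c * (γ : M2) 0 0)) * vv τ ∧ mu γ τ = 1
  six : ∀ γ : SL2, (2 ∣ (γ : M2) 0 1 ∧ 2 ∣ (γ : M2) 1 0) ∨ (∀ τ, uu (γ • τ) ^ 4 = 1 - uu τ ^ 4) ∨
    (∀ τ, uu (γ • τ) ^ 4 = 1 / uu τ ^ 4) ∨ (∀ τ, uu (γ • τ) ^ 4 = 1 / (1 - uu τ ^ 4)) ∨
    (∀ τ, uu (γ • τ) ^ 4 = (uu τ ^ 4 - 1) / uu τ ^ 4) ∨
    ∀ τ, uu (γ • τ) ^ 4 = uu τ ^ 4 / (uu τ ^ 4 - 1)
  inv : ∀ γ ∈ G8, ∀ τ, uu (γ • τ) = uu τ ∧ vv (γ • τ) = vv τ ∧ mu γ τ = 1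
  md : uu ∈ Mod 8 ∧ vv ∈ Mod 8
  mu_exp : ∀ γ : SL2, ExpG (mu γ) ∧ ExpG fun τ => (mu γ τ)⁻¹
  jrel : ∀ τ, jf τ * (uu τ ^ 4 * (1 - uu τ ^ 4)) ^ 2 = 256 * (uu τ ^ 8 - uu τ ^ 4 + 1) ^ 3

/-- Module TH3: the Fermat quartic is the quotient by `G8`. -/
structure TH3 : Prop where
  inj : ∀ τ σ, Gen (uu τ ^ 4) → uu τ = uu σ → vv τ = vv σ → ∃ γ ∈ G8, γ • τ = σ
  surj : ∀ a b : ℂ, a ^ 4 + b ^ 4 = 1 → a ≠ 0 → b ≠ 0 → ∃ τ, uu τ = a ∧ vv τ = b
  gen : ∀ τ : ℍ, (∀ γ : SL2, γ • τ = τ → γ = 1 ∨ γ = -1) → Gen (uu τ ^ 4)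
  /-- functions with rational expansion are rational functions of the coordinates -/
  spec : ∀ w ∈ Mod 8, (∀ γ ∈ G8, ∀ τ, w (γ • τ) = w τ) → RQ 8 w →
    ∀ (σ : ℂ →+* ℂ) (τ τ' : ℍ), Gen (uu τ ^ 4) → σ (uu τ) = uu τ' → σ (vv τ) = vv τ' →
      σ (w τ) = w τ'

/-- Module HG: field homomorphisms permute the Heegner points. -/
def HGStmt : Prop :=
  ∀ (p : ℕ) (σ : ℂ →+* ℂ) (ε B : ℤ) (τ τ' : ℍ), p % 8 = 7 → IsHeegner p B τ → Gen (uu τ ^ 4) →
    σ (uu τ) = uu τ' → σ (vv τ) = vv τ' → ε = 1 ∨ ε = -1 →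
    σ (Complex.I * Real.sqrt p) = ε * (Complex.I * Real.sqrt p) →
    ∃ B', IsHeegner p B' τ' ∧ B' % 4 = (ε * B) % 4

/-- Heegner points with `B ≡ 1` modulo `4`. -/
def HP (p : ℕ) : Set ℍ := {τ | ∃ B, B % 4 = 1 ∧ IsHeegner p B τ}

/-- Module FRM: classes of forms. -/
structure FRM : Prop where
  stab : ∀ (p : ℕ) B τ, p % 8 = 7 → p.Prime → IsHeegner p B τ →
    ∀ γ : SL2, γ • τ = τ → γ = 1 ∨ γ = -1
  lawS : ∀ (p : ℕ) B τ, 0 < p → IsHeegner p B τ → IsHeegner p (-B) (ModularGroup.S • τ)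
  reps : ∀ p : ℕ, p.Prime → p % 8 = 7 → ∃ (Rp : Finset ℍ) (R : Finset (ℤ × ℍ)) (n : ℕ),
    IsRep (fun τ σ => ∃ γ ∈ G8, γ • τ = σ) (HP p) Rp ∧ Odd Rp.card ∧ IsHeegnerReps p R ∧ 0 < n ∧
      ∀ {V : Type} [AddCommGroup V] (f : ℍ → V), (∀ γ ∈ G8, ∀ τ, f (γ • τ) = f τ) →
        ∑ q ∈ R, (ZMod.χ₄ (q.1 : ZMod 4) : ℤ) • f q.2 =
          n • ∑ τ ∈ Rp, (f τ - f (ModularGroup.S • τ))

end Pool.Agent.MP_9207e0_ag.h2

end MrgPart0

-- ======== part 1: formerly Pool.Agent.MP_9207e0_ag.h2.Frm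
section MrgPart1

/-! Module FRM: classes of binary forms of discriminant `-p` and level eight. -/

set_option linter.unusedSectionVars false
set_option linter.unusedVariables false

namespace Pool.Agent.MP_9207e0_ag.h2

open UpperHalfPlane Complex Filter Asymptotics Matrix WeierstrassCurve
open scoped Real MatrixGroups Manifold Classical
open Pool.Agent.MP_9207e0_ag.hg

namespace Frm

/-- `τ` is a root of the form `[A, B, C]`. -/
def Rt (A B C : ℤ) (τ : ℍ) : Prop := (A : ℂ) * (τ : ℂ) ^ 2 + B * τ + C = 0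

/-- The value of a form. -/
def Qv (A B C x y : ℤ) : ℤ := A * x ^ 2 + B * x * y + C * y ^ 2

lemma det_eq (g : SL2) : (g : M2) 0 0 * (g : M2) 1 1 - (g : M2) 0 1 * (g : M2) 1 0 = 1 := by
  rw [← Matrix.det_fin_two]; exact det_SL g

lemma smul_eq (g : SL2) (τ σ : ℍ) : g • τ = σ ↔
    ((g : M2) 0 0 : ℂ) * τ + (g : M2) 0 1 = σ * (((g : M2) 1 0 : ℂ) * τ + (g : M2) 1 1) := by
  rw [← mob_SL, mob_eq_iff (det_SL_pos g)]

lemma Rt.act {A B C : ℤ} {g : SL2} {s : ℍ} (h : Rt A B C (g • s)) :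
    Rt (Qv A B C ((g : M2) 0 0) ((g : M2) 1 0))
      (2 * A * (g : M2) 0 0 * (g : M2) 0 1 +
        B * ((g : M2) 0 0 * (g : M2) 1 1 + (g : M2) 0 1 * (g : M2) 1 0) +
        2 * C * (g : M2) 1 0 * (g : M2) 1 1)
      (Qv A B C ((g : M2) 0 1) ((g : M2) 1 1)) s := by
  have e := (smul_eq g s _).1 rfl
  unfold Rt Qv at *
  push_cast
  set t : ℂ := ((g • s : ℍ) : ℂ)
  set u : ℂ := ((g : M2) 0 0 : ℂ) * s + (g : M2) 0 1 with hu
  set v : ℂ := ((g : M2) 1 0 : ℂ) * s + (g : M2) 1 1 with hv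
  have : (A : ℂ) * u ^ 2 + B * u * v + C * v ^ 2 = 0 := by
    rw [e]; linear_combination v ^ 2 * h
  rw [hu, hv] at this
  linear_combination this

lemma Rt.re {A B C : ℤ} {τ : ℍ} (h : Rt A B C τ) :
    (B : ℝ) = -2 * A * τ.re ∧ (C : ℝ) = A * (τ.re ^ 2 + τ.im ^ 2) :=
  quad_disc (a := A) (b := B) (c := C) (by simpa [Rt] using h)

lemma Rt.uniq {A B C A' B' C' : ℤ} {τ : ℍ} (h : Rt A B C τ) (h' : Rt A' B' C' τ) (hA : 0 < A)
    (hA' : 0 < A') (hD : B ^ 2 - 4 * A * C = B' ^ 2 - 4 * A' * C') : B = B' := by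
  obtain ⟨e1, e2⟩ := h.re
  obtain ⟨e3, e4⟩ := h'.re
  have hD' : (B : ℝ) ^ 2 - 4 * A * C = B' ^ 2 - 4 * A' * C' := by exact_mod_cast hD
  rw [e1, e2, e3, e4] at hD'
  have h1 : (A : ℝ) ^ 2 = A' ^ 2 := by
    apply mul_right_cancel₀ (pow_ne_zero 2 τ.im_pos.ne')
    linear_combination (-1 / 4 : ℝ) * hD'
  have h2 : (A : ℝ) = A' :=
    (pow_left_inj₀ (by exact_mod_cast hA.le) (by exact_mod_cast hA'.le) two_ne_zero).mp h1
  have : (B : ℝ) = B' := by rw [e1, e3, h2]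
  exact_mod_cast this

lemma heeg_uniq {p : ℕ} {B B' : ℤ} {τ : ℍ} (h : IsHeegner p B τ) (h' : IsHeegner p B' τ) :
    B = B' := by
  obtain ⟨A, C, a, -, -, d, r⟩ := h
  obtain ⟨A', C', a', -, -, d', r'⟩ := h'
  exact Rt.uniq r r' a a' (d.trans d'.symm)

lemma qv_nonneg {A B C D : ℤ} (hA : 0 < A) (hD : B ^ 2 - 4 * A * C = -D) (h0 : 0 ≤ D) (x y : ℤ) :
    0 ≤ Qv A B C x y := by
  have : 4 * A * Qv A B C x y = (2 * A * x + B * y) ^ 2 + D * y ^ 2 := by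
    unfold Qv; linear_combination (-y ^ 2) * hD
  have h2 : 0 ≤ 4 * A * Qv A B C x y := by rw [this]; positivity
  exact nonneg_of_mul_nonneg_right h2 (by omega)

lemma qv_pos {A B C D : ℤ} (hA : 0 < A) (hD : B ^ 2 - 4 * A * C = -D) (h0 : 0 < D) {x y : ℤ}
    (hxy : x ≠ 0 ∨ y ≠ 0) : 0 < Qv A B C x y := by
  have : 4 * A * Qv A B C x y = (2 * A * x + B * y) ^ 2 + D * y ^ 2 := by
    unfold Qv; linear_combination (-y ^ 2) * hD
  have h2 : 0 < 4 * A * Qv A B C x y := by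
    rw [this]
    by_cases hy : y = 0
    · subst hy
      have hx := hxy.resolve_right (by simp)
      have : 2 * A * x + B * 0 ≠ 0 := by simpa using ⟨hA.ne', hx⟩
      positivity
    · positivity
  exact (mul_pos_iff_of_pos_left (by omega : 0 < 4 * A)).1 h2

lemma col_ne (g : SL2) : (g : M2) 0 0 ≠ 0 ∨ (g : M2) 1 0 ≠ 0 := by
  by_contra h
  push Not at h
  have := det_eq g
  rw [h.1, h.2] at this
  simp at this

lemma disc_act (A B C : ℤ) (g : SL2) :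
    (2 * A * (g : M2) 0 0 * (g : M2) 0 1 +
        B * ((g : M2) 0 0 * (g : M2) 1 1 + (g : M2) 0 1 * (g : M2) 1 0) +
        2 * C * (g : M2) 1 0 * (g : M2) 1 1) ^ 2 -
      4 * Qv A B C ((g : M2) 0 0) ((g : M2) 1 0) * Qv A B C ((g : M2) 0 1) ((g : M2) 1 1) =
      B ^ 2 - 4 * A * C := by
  have := det_eq g
  unfold Qv
  linear_combination (B ^ 2 - 4 * A * C) *
    ((g : M2) 0 0 * (g : M2) 1 1 - (g : M2) 0 1 * (g : M2) 1 0 + 1) * this

/-- `G8` preserves the Heegner points with `B ≡ 1`. -/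
lemma hp_of_smul {p : ℕ} (hp : 0 < p) {g : SL2} (hg : g ∈ G8) {s : ℍ} (h : g • s ∈ HP p) :
    s ∈ HP p := by
  obtain ⟨B, hB, A, C, hA, ⟨A0, rfl⟩, ⟨C0, rfl⟩, hD, r⟩ := h
  obtain ⟨⟨b, hb⟩, ⟨c, hc⟩⟩ := hg
  have hd := det_eq g
  refine ⟨_, ?_, _, _, qv_pos hA hD (by exact_mod_cast hp) (col_ne g), ?_, ?_,
    (disc_act _ _ _ g).trans hD, Rt.act r⟩
  · have : (g : M2) 0 0 * (g : M2) 1 1 = 1 + 64 * b * c := by
      rw [hb, hc] at hd; linear_combination hd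
    rw [this, hb, hc]
    have : 2 * (8 * A0) * (g : M2) 0 0 * (8 * b) + B * (1 + 64 * b * c + 8 * b * (8 * c)) +
        2 * (8 * C0) * (8 * c) * (g : M2) 1 1 = B + 4 * (32 * A0 * (g : M2) 0 0 * b +
          32 * B * b * c + 32 * C0 * c * (g : M2) 1 1) := by ring
    rw [this]; omega
  · rw [hc]
    exact ⟨A0 * (g : M2) 0 0 ^ 2 + B * (g : M2) 0 0 * c + C0 * (8 * c) ^ 2, by unfold Qv; ring⟩
  · rw [hb]
    exact ⟨A0 * (8 * b) ^ 2 + B * b * (g : M2) 1 1 + C0 * (g : M2) 1 1 ^ 2, by unfold Qv; ring⟩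

lemma smul_hp {p : ℕ} (hp : 0 < p) {g : SL2} (hg : g ∈ G8) {s : ℍ} (h : s ∈ HP p) :
    g • s ∈ HP p :=
  hp_of_smul hp (G8.inv_mem hg) (by rwa [inv_smul_smul])

lemma eight_dvd {x z : ℤ} (hx : Odd x) (h : 8 ∣ x * z) : 8 ∣ z := by
  have : IsCoprime ((2 : ℤ) ^ 3) x := (Int.isCoprime_two_left.2 hx).pow_left
  exact this.dvd_of_dvd_mul_left h

/-- Lemma I. -/
lemma mem_G8_of {p : ℕ} (hp : 0 < p) {g : SL2} {s : ℍ} (h : s ∈ HP p) (h' : g • s ∈ HP p) :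
    g ∈ G8 := by
  obtain ⟨B, hB, A, C, hA, ⟨A0, rfl⟩, ⟨C0, rfl⟩, hD, r⟩ := h'
  obtain ⟨B', hB', A', C', hA', ⟨A1, rfl⟩, ⟨C1, rfl⟩, hD', r'⟩ := h
  have hd := det_eq g
  have r2 := Rt.act r
  have p2 := qv_pos hA hD (by exact_mod_cast hp) (col_ne g)
  have eB := Rt.uniq r' r2 hA' p2 (hD'.trans ((disc_act _ _ _ g).trans hD).symm)
  obtain ⟨e1, e2⟩ := Rt.re r'
  obtain ⟨e3, e4⟩ := r2.re
  have hBo : Odd B := Int.odd_iff.2 (by omega)
  have hB0 : (B' : ℝ) ≠ 0 := by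
    have : B' ≠ 0 := by omega
    exact_mod_cast this
  have eA : (8 * A1 : ℤ) = Qv (8 * A0) B (8 * C0) ((g : M2) 0 0) ((g : M2) 1 0) := by
    rw [← eB, e1] at e3
    have hre : s.re ≠ 0 := by
      intro h0
      rw [h0, mul_zero] at e1
      exact hB0 e1
    have := mul_left_cancel₀ (by norm_num : (-2 : ℝ) ≠ 0)
      (mul_right_cancel₀ hre e3)
    exact_mod_cast this
  have eC : (8 * C1 : ℤ) = Qv (8 * A0) B (8 * C0) ((g : M2) 0 1) ((g : M2) 1 1) := by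
    rw [← eA, ← e2] at e4
    exact_mod_cast e4.symm
  set x := (g : M2) 0 0
  set y := (g : M2) 0 1
  set z := (g : M2) 1 0
  set w := (g : M2) 1 1
  have h1 : 8 ∣ x * z := eight_dvd hBo
    ⟨A1 - A0 * x ^ 2 - C0 * z ^ 2, by unfold Qv at eA; linear_combination -eA⟩
  have h2 : 8 ∣ w * y := eight_dvd hBo
    ⟨C1 - A0 * y ^ 2 - C0 * w ^ 2, by unfold Qv at eC; linear_combination -eC⟩
  have h3 : Odd (x * w) := by
    obtain ⟨k, hk⟩ : ∃ k, B = 4 * k + 1 := ⟨B / 4, by omega⟩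
    have e5 : B' = 4 * (4 * A0 * x * y + 4 * C0 * z * w + k + 2 * k * (y * z)) + 1 + 2 * (y * z) := by
      rw [eB, hk]; linear_combination (4 * k + 1) * hd
    have e6 : x * w = 1 + y * z := by linear_combination hd
    rw [e6, Int.odd_iff]
    omega
  rw [Int.odd_mul] at h3
  exact ⟨eight_dvd h3.2 h2, eight_dvd h3.1 h1⟩

lemma lawS {p : ℕ} {B : ℤ} {τ : ℍ} (hp : 0 < p) (h : IsHeegner p B τ) :
    IsHeegner p (-B) (ModularGroup.S • τ) := by
  obtain ⟨A, C, hA, a, c, hD, r⟩ := h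
  have hC : 0 < C := by
    have := qv_pos hA hD (by exact_mod_cast hp) (x := 0) (y := 1) (Or.inr one_ne_zero)
    simpa [Qv] using this
  refine ⟨C, A, hC, c, a, by linear_combination hD, ?_⟩
  have e := (smul_eq ModularGroup.S τ _).1 rfl
  simp only [ModularGroup.coe_S, of_apply, cons_val', cons_val_zero, cons_val_one,
    cons_val_fin_one] at e
  push_cast at e ⊢
  set t : ℂ := ((ModularGroup.S • τ : ℍ) : ℂ)
  linear_combination t ^ 2 * r + (A * (t * τ - 1) + B * t) * e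

lemma not_sq {n x c : ℤ} (hc : c ≠ 0) (h : x ^ 2 = n * c ^ 2) : ∃ r, n = r * r := by
  have : IsSquare ((n : ℤ) : ℚ) := ⟨(x : ℚ) / c, by
    have h' : (x : ℚ) ^ 2 = n * c ^ 2 := by exact_mod_cast h
    have : (c : ℚ) ≠ 0 := by exact_mod_cast hc
    field_simp
    linear_combination -h'⟩
  exact Rat.isSquare_intCast_iff.1 this

lemma sq_mod (r : ℤ) : r * r % 8 = 0 ∨ r * r % 8 = 1 ∨ r * r % 8 = 4 := by
  have : r % 8 = 0 ∨ r % 8 = 1 ∨ r % 8 = 2 ∨ r % 8 = 3 ∨ r % 8 = 4 ∨ r % 8 = 5 ∨ r % 8 = 6 ∨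
    r % 8 = 7 := by omega
  rcases this with h | h | h | h | h | h | h | h <;> simp [Int.mul_emod, h]

lemma stab {p : ℕ} {B : ℤ} {τ : ℍ} (hp : p % 8 = 7) (h : IsHeegner p B τ) (γ : SL2)
    (hγ : γ • τ = τ) : γ = 1 ∨ γ = -1 := by
  obtain ⟨A, C, hA, -, -, hD, r⟩ := h
  have hd := det_eq γ
  have r2 : Rt ((γ : M2) 1 0) ((γ : M2) 1 1 - (γ : M2) 0 0) (-(γ : M2) 0 1) τ := by
    have := (smul_eq γ τ τ).1 hγ
    unfold Rt
    push_cast
    linear_combination -this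
  obtain ⟨e1, e2⟩ := Rt.re r
  obtain ⟨e3, e4⟩ := r2.re
  set a := (γ : M2) 0 0 with ha
  set b := (γ : M2) 0 1 with hb
  set c := (γ : M2) 1 0 with hc
  set d := (γ : M2) 1 1 with hd'
  have f1 : A * (d - a) = c * B := by
    have : (A : ℝ) * ((d - a : ℤ) : ℝ) = c * B := by rw [e1, e3]; ring
    exact_mod_cast this
  have f2 : A * (-b) = c * C := by
    have : (A : ℝ) * ((-b : ℤ) : ℝ) = c * C := by rw [e2, e4]; ring
    exact_mod_cast this
  have f3 : (4 - (a + d) ^ 2) * A ^ 2 = p * c ^ 2 := by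
    linear_combination (-4 * A ^ 2) * hd - (A * (d - a) + c * B) * f1 + 4 * A * c * f2 -
      c ^ 2 * hD
  have hc0 : c = 0 := by
    by_contra h0
    have h1 : 0 < (p : ℤ) * c ^ 2 := by
      have : (0 : ℤ) < p := by omega
      positivity
    have h2 : (a + d) ^ 2 < 4 := by
      rw [← f3] at h1
      have := (mul_pos_iff_of_pos_right (pow_pos hA 2)).1 h1
      linarith
    have h3 : (a + d) ^ 2 = 0 ∨ (a + d) ^ 2 = 1 := by
      have : a + d = -1 ∨ a + d = 0 ∨ a + d = 1 := by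
        have : -2 < a + d := by nlinarith
        have : a + d < 2 := by nlinarith
        omega
      rcases this with h | h | h <;> simp [h]
    rcases h3 with h | h
    · obtain ⟨r, hr⟩ := not_sq (x := 2 * A) (n := p) h0 (by rw [h] at f3; linear_combination f3)
      have := sq_mod r
      omega
    · obtain ⟨r, hr⟩ := not_sq (x := 3 * A) (n := 3 * p) h0
        (by rw [h] at f3; linear_combination 3 * f3)
      have := sq_mod r
      omega
  rw [hc0, zero_mul] at f1 f2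
  have g1 : d = a := by have := (mul_eq_zero.1 f1).resolve_left hA.ne'; omega
  have g2 : b = 0 := by have := (mul_eq_zero.1 f2).resolve_left hA.ne'; omega
  rw [g1, g2, zero_mul, sub_zero] at hd
  rcases Int.eq_one_or_neg_one_of_mul_eq_one hd with h | h
  · left
    ext i j
    fin_cases i <;> fin_cases j <;> simp [← ha, ← hb, ← hc, ← hd', g1, g2, hc0, h]
  · right
    ext i j
    fin_cases i <;> fin_cases j <;> simp [← ha, ← hb, ← hc, ← hd', g1, g2, hc0, h]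

/-- The reflection in the unit circle. -/
noncomputable def cj (τ : ℍ) : ℍ := ⟨((starRingEnd ℂ) τ)⁻¹, by
  rw [inv_im, conj_im, neg_neg]
  exact div_pos τ.im_pos (normSq_pos.2 (by simpa using τ.ne_zero))⟩

lemma cj_mul (τ : ℍ) : (cj τ : ℂ) * (starRingEnd ℂ) τ = 1 :=
  inv_mul_cancel₀ (by simpa using τ.ne_zero)

lemma cj_cj (τ : ℍ) : cj (cj τ) = τ := by
  apply UpperHalfPlane.ext
  simp [cj]

lemma Rt.cj {A B C : ℤ} {τ : ℍ} (h : Rt A B C τ) : Rt C B A (cj τ) := by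
  have e := cj_mul τ
  have h' := congrArg (starRingEnd ℂ) h
  simp only [map_add, map_mul, map_pow, map_intCast, map_zero] at h'
  unfold Rt
  set u : ℂ := ((Frm.cj τ : ℍ) : ℂ)
  set t : ℂ := (starRingEnd ℂ) τ
  linear_combination u ^ 2 * h' - (A * (u * t + 1) + B * u) * e

lemma cj_hp {p : ℕ} (hp : 0 < p) {τ : ℍ} (h : τ ∈ HP p) : cj τ ∈ HP p := by
  obtain ⟨B, hB, A, C, hA, a, c, hD, r⟩ := h
  have hC : 0 < C := by
    have := qv_pos hA hD (by exact_mod_cast hp) (x := 0) (y := 1) (Or.inr one_ne_zero)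
    simpa [Qv] using this
  exact ⟨B, hB, C, A, hC, c, a, by linear_combination hD, Rt.cj r⟩

/-- Equivalence modulo `G8`. -/
def rel (τ σ : ℍ) : Prop := ∃ γ ∈ G8, γ • τ = σ

lemma equiv_sub (L : Subgroup SL2) : Equivalence fun τ σ : ℍ => ∃ γ ∈ L, γ • τ = σ :=
  ⟨fun τ => ⟨1, L.one_mem, one_smul _ _⟩,
    fun ⟨g, hg, e⟩ => ⟨g⁻¹, L.inv_mem hg, by rw [← e, inv_smul_smul]⟩,
    fun ⟨g, hg, e⟩ ⟨g', hg', e'⟩ => ⟨g' * g, L.mul_mem hg' hg, by rw [mul_smul, e, e']⟩⟩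

lemma rel_cj {τ σ : ℍ} (h : rel τ σ) : rel (cj τ) (cj σ) := by
  obtain ⟨g, hg, e⟩ := h
  have hd := det_eq g
  refine ⟨⟨!![(g : M2) 1 1, (g : M2) 1 0; (g : M2) 0 1, (g : M2) 0 0], by
    rw [Matrix.det_fin_two_of]; linear_combination hd⟩, ⟨by simpa using hg.2, by simpa using hg.1⟩, ?_⟩
  rw [smul_eq] at e ⊢
  have h' := congrArg (starRingEnd ℂ) e
  simp only [map_add, map_mul, map_intCast] at h'
  have e1 := cj_mul τ
  have e2 := cj_mul σ
  simp only [of_apply, cons_val', cons_val_zero, cons_val_one, cons_val_fin_one]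
  set u : ℂ := ((Frm.cj τ : ℍ) : ℂ)
  set t : ℂ := (starRingEnd ℂ) τ
  set u' : ℂ := ((Frm.cj σ : ℍ) : ℂ)
  set t' : ℂ := (starRingEnd ℂ) σ
  linear_combination (-u * u') * h' + (u' * (g : M2) 0 0 - (g : M2) 1 0) * e1 -
    (u * ((g : M2) 1 0 * t + (g : M2) 1 1)) * e2

/-- Parity of the number of classes. -/
lemma odd_card {X : Type} {r : X → X → Prop} {S : Set X} {R : Finset X} (φ : X → X)
    (hr : Equivalence r) (hR : IsRep r S R) (h1 : ∀ x ∈ S, φ x ∈ S) (h2 : ∀ x, φ (φ x) = x)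
    (h3 : ∀ x y, r x y → r (φ x) (φ y)) (h4 : ∃ x ∈ S, r (φ x) x)
    (h5 : ∀ x ∈ S, ∀ y ∈ S, r (φ x) x → r (φ y) y → r x y) : Odd R.card := by
  obtain ⟨m, u⟩ := hR
  have uq : ∀ x ∈ R, ∀ y ∈ R, r x y → x = y := fun x hx y hy h =>
    (u x (m x hx)).unique ⟨hx, hr.refl x⟩ ⟨hy, h⟩
  choose! ι hι using fun x hx => (u _ (h1 x hx)).exists
  obtain ⟨x1, hx1, f1⟩ := h4
  obtain ⟨x0, hx0, f0⟩ := (u x1 hx1).exists
  have g0 : r (φ x0) x0 := hr.trans (hr.symm (h3 _ _ f0)) (hr.trans f1 f0)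
  have inv : ∀ x ∈ R, ι (ι x) = x := fun x hx => by
    obtain ⟨a1, a2⟩ := hι x (m x hx)
    obtain ⟨b1, b2⟩ := hι _ (m _ a1)
    have := h3 _ _ a2
    rw [h2] at this
    exact (uq _ hx _ b1 (hr.trans this b2)).symm
  have i0 : ι x0 = x0 := by
    obtain ⟨a1, a2⟩ := hι x0 (m x0 hx0)
    exact uq _ a1 _ hx0 (hr.trans (hr.symm a2) g0)
  have key : ∑ x ∈ R.erase x0, (1 : ZMod 2) = 0 := by
    refine Finset.sum_involution (fun a _ => ι a) (fun _ _ => by decide) ?_ ?_ ?_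
    · intro a ha _ e
      obtain ⟨a1, a2⟩ := Finset.mem_erase.1 ha
      have := (hι a (m a a2)).2
      rw [e] at this
      exact a1 (uq _ a2 _ hx0 (h5 _ (m _ a2) _ (m _ hx0) this g0))
    · intro a ha
      obtain ⟨a1, a2⟩ := Finset.mem_erase.1 ha
      refine Finset.mem_erase.2 ⟨fun e => a1 ?_, (hι a (m a a2)).1⟩
      rw [← inv a a2, e, i0]
    · intro a ha
      exact inv a (Finset.mem_of_mem_erase ha)
  rw [Finset.sum_const, nsmul_eq_mul, mul_one, ZMod.natCast_eq_zero_iff_even] at key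
  rw [← Finset.card_erase_add_one hx0]
  exact key.add_one

/-- Points in the principal class. -/
def Pr (p : ℕ) (τ : ℍ) : Prop := ∃ (g : SL2) (s : ℍ), g • s = τ ∧ Rt 4 4 (1 + p) s

lemma pr_of_one {p : ℕ} {A B C x y : ℤ} {τ : ℍ} (hB : B % 4 = 1) (hD : B ^ 2 - 4 * A * C = -p)
    (r : Rt A B C τ) (h : Qv A B C x y = 1) : Pr p τ := by
  obtain ⟨k, hk⟩ : ∃ k, B = 2 * k + 1 := ⟨B / 2, by omega⟩
  let g : SL2 := ⟨!![x, -C * y - k * x; y, A * x + B * y - k * y], by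
    rw [Matrix.det_fin_two_of]; unfold Qv at h; linear_combination h⟩
  refine ⟨g, g⁻¹ • τ, smul_inv_smul _ _, ?_⟩
  have r2 := Rt.act (g := g) (s := g⁻¹ • τ) (by rwa [smul_inv_smul])
  have d2 := (disc_act A B C g).trans hD
  have e1 : Qv A B C ((g : M2) 0 0) ((g : M2) 1 0) = 1 := h
  have e2 : 2 * A * (g : M2) 0 0 * (g : M2) 0 1 +
      B * ((g : M2) 0 0 * (g : M2) 1 1 + (g : M2) 0 1 * (g : M2) 1 0) +
      2 * C * (g : M2) 1 0 * (g : M2) 1 1 = 1 := by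
    change 2 * A * x * (-C * y - k * x) + B * (x * (A * x + B * y - k * y) + (-C * y - k * x) * y) +
      2 * C * y * (A * x + B * y - k * y) = 1
    unfold Qv at h
    linear_combination (B - 2 * k) * h + hk
  rw [e1, e2] at r2 d2
  have d3 : (4 : ℂ) * (Qv A B C ((g : M2) 0 1) ((g : M2) 1 1) : ℤ) = 1 + p := by
    have : 4 * Qv A B C ((g : M2) 0 1) ((g : M2) 1 1) = 1 + p := by linear_combination -d2
    exact_mod_cast this
  unfold Rt at r2 ⊢
  push_cast at r2 ⊢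
  linear_combination 4 * r2 - d3

lemma rel_of_pr {p : ℕ} (hp : 0 < p) {τ σ : ℍ} (h : τ ∈ HP p) (h' : σ ∈ HP p) (a : Pr p τ)
    (b : Pr p σ) : rel τ σ := by
  obtain ⟨g, s, rfl, r⟩ := a
  obtain ⟨g', s', rfl, r'⟩ := b
  have : s = s' := quad_root_unique (a := 4) (b := 4) (c := 1 + p) (by norm_num)
    (by simpa [Rt] using r) (by simpa [Rt] using r')
  subst this
  have e : (g' * g⁻¹) • g • s = g' • s := by rw [mul_smul, inv_smul_smul]
  exact ⟨_, mem_G8_of hp h (by rwa [e]), e⟩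

lemma pr_of_fixed {p : ℕ} (hp : p.Prime) {τ : ℍ} (h : τ ∈ HP p) (f : rel (cj τ) τ) : Pr p τ := by
  obtain ⟨B, hB, A, C, hA, -, -, hD, r⟩ := h
  obtain ⟨g, hg, e⟩ := f
  have hd := det_eq g
  rw [smul_eq] at e
  have e1 := cj_mul τ
  obtain ⟨⟨b0, hb⟩, -⟩ := hg
  set a := (g : M2) 0 0
  set b := (g : M2) 0 1
  set c := (g : M2) 1 0
  set d := (g : M2) 1 1
  have e2 : (a : ℂ) + b * (starRingEnd ℂ) τ = τ * (c + d * (starRingEnd ℂ) τ) := by
    linear_combination (starRingEnd ℂ) τ * e + (τ * c - a) * e1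
  have e3 := congrArg Complex.im e2
  have e4 := congrArg Complex.re e2
  simp only [add_im, mul_im, intCast_re, intCast_im, coe_im, coe_re, zero_mul, add_zero,
    add_re, mul_re, sub_zero, conj_re, conj_im, zero_add] at e3 e4
  have hc : c = -b := by
    have : (c : ℝ) = -b := by
      apply mul_right_cancel₀ τ.im_pos.ne'
      linear_combination -e3
    exact_mod_cast this
  obtain ⟨r1, r2⟩ := Rt.re r
  have hl : d * C + b * B - a * A = 0 := by
    have hc' : (c : ℝ) = -b := by exact_mod_cast hc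
    have : (d : ℝ) * C + b * B - a * A = 0 := by
      rw [r1, r2]
      linear_combination (-A) * e4 - A * τ.re * hc'
    exact_mod_cast this
  have had : a * d = (1 + b) * (1 - b) := by rw [hc] at hd; linear_combination hd
  obtain ⟨u, t, ⟨s, hs⟩, ⟨w, hw⟩, ha⟩ := exists_dvd_and_dvd_of_dvd_mul (Dvd.intro d had)
  have ha0 : a ≠ 0 := by
    intro h0
    rw [h0, zero_mul] at had
    rcases mul_eq_zero.1 had.symm with h | h <;> omega
  have hd' : d = s * w := by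
    apply mul_left_cancel₀ ha0
    rw [had, hs, hw, ha]; ring
  have key : Qv A B C u w * Qv A B C (-t) s = p := by
    have h2 : u * s + t * w = 2 := by linear_combination -hs - hw
    have h3 : -2 * A * (u * t) + B * (u * s - t * w) + 2 * C * (s * w) = 0 := by
      rw [← ha, ← hd', ← hs, ← hw]; linear_combination 2 * hl
    have : 4 * (Qv A B C u w * Qv A B C (-t) s) = 4 * p := by
      unfold Qv
      linear_combination (-2 * A * (u * t) + B * (u * s - t * w) + 2 * C * (s * w)) * h3 -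
        (u * s + t * w) ^ 2 * hD + p * (u * s + t * w + 2) * h2
    omega
  have n1 := qv_nonneg hA hD (Int.natCast_nonneg p) u w
  have n2 := qv_nonneg hA hD (Int.natCast_nonneg p) (-t) s
  rcases (Nat.prime_iff_prime_int.1 hp).irreducible.isUnit_or_isUnit key.symm with h | h
  · exact pr_of_one hB hD r (x := u) (y := w) (by rcases Int.isUnit_iff.1 h with h | h <;> omega)
  · exact pr_of_one hB hD r (x := -t) (y := s) (by rcases Int.isUnit_iff.1 h with h | h <;> omega)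

lemma exists_root {p : ℕ} (hp : 0 < p) {A B C : ℤ} (hA : 0 < A) (hD : B ^ 2 - 4 * A * C = -p) :
    ∃ τ, Rt A B C τ := by
  have hA' : (0 : ℝ) < A := by exact_mod_cast hA
  have hp' : (0 : ℝ) < p := by exact_mod_cast hp
  have hD' : (B : ℝ) ^ 2 - 4 * A * C = -p := by exact_mod_cast hD
  have hs := Real.sq_sqrt hp'.le
  refine ⟨⟨⟨-B / (2 * A), √p / (2 * A)⟩, by positivity⟩, ?_⟩
  unfold Rt
  apply Complex.ext
  · simp only [sq, add_re, mul_re, mul_im, intCast_re, intCast_im, zero_re]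
    field_simp
    linear_combination (-A : ℝ) * hD' - A * hs
  · simp only [sq, add_im, mul_re, mul_im, intCast_re, intCast_im, zero_im]
    field_simp
    ring

lemma exists_fixed {p : ℕ} (hp : p % 8 = 7) : ∃ τ ∈ HP p, rel (cj τ) τ := by
  have hp0 : 0 < p := by omega
  obtain ⟨b, c, e, h1, h2, h3⟩ : ∃ b c e : ℤ, b % 4 = 1 ∧ b ^ 2 + p = 4 * (8 * c) ∧
      1 - b ^ 2 = 8 * e := by
    have : p % 32 = 7 ∨ p % 32 = 15 ∨ p % 32 = 23 ∨ p % 32 = 31 := by omega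
    rcases this with h | h | h | h
    · exact ⟨5, (25 + p) / 32, -3, by norm_num, by omega, by norm_num⟩
    · exact ⟨-7, (49 + p) / 32, -6, by norm_num, by omega, by norm_num⟩
    · exact ⟨-3, (9 + p) / 32, -1, by norm_num, by omega, by norm_num⟩
    · exact ⟨1, (1 + p) / 32, 0, by norm_num, by omega, by norm_num⟩
  have hc : 0 < c := by have := sq_nonneg b; omega
  have hA : 0 < 1 - b ^ 2 + 8 * c * b ^ 2 := by nlinarith [sq_nonneg b]
  have hD : (b - 2 * (8 * c) * b) ^ 2 - 4 * (1 - b ^ 2 + 8 * c * b ^ 2) * (8 * c) = -p := by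
    linear_combination h2
  have hB : (b - 2 * (8 * c) * b) % 4 = 1 := by
    have : b - 2 * (8 * c) * b = b - 4 * (4 * c * b) := by ring
    rw [this]; omega
  obtain ⟨τ, r⟩ := exists_root hp0 hA hD
  have hτ : τ ∈ HP p := ⟨_, hB, _, _, hA, ⟨e + c * b ^ 2, by rw [h3]; ring⟩, ⟨c, rfl⟩, hD, r⟩
  refine ⟨τ, hτ, rel_of_pr hp0 (cj_hp hp0 hτ) hτ ?_ ?_⟩
  · exact pr_of_one hB (by linear_combination hD) r.cj (x := b) (y := 1) (by unfold Qv; ring)
  · exact pr_of_one hB hD r (x := 1) (y := b) (by unfold Qv; ring)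

lemma SS (τ : ℍ) : ModularGroup.S • ModularGroup.S • τ = τ := by
  rw [← ModularGroup.SL_neg_smul ModularGroup.S, ← ModularGroup.S_inv, inv_smul_smul]

lemma conj_G8 {g : SL2} (hg : g ∈ G8) : ModularGroup.S * g * ModularGroup.S⁻¹ ∈ G8 := by
  obtain ⟨h1, h2⟩ := hg
  rw [ModularGroup.S_inv]
  constructor
  · simpa [ModularGroup.coe_S, Matrix.mul_apply, Fin.sum_univ_two, Matrix.vecMul, dotProduct]
      using h2
  · simpa [ModularGroup.coe_S, Matrix.mul_apply, Fin.sum_univ_two, Matrix.vecMul, dotProduct]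
      using h1

lemma conj_smul (g : SL2) (τ : ℍ) :
    (ModularGroup.S * g * ModularGroup.S⁻¹) • ModularGroup.S • τ = ModularGroup.S • g • τ := by
  rw [mul_smul, inv_smul_smul, mul_smul]

lemma excl {p : ℕ} (hp : 0 < p) {τ : ℍ} (h : τ ∈ HP p) : ModularGroup.S • τ ∉ HP p := by
  rintro ⟨B', hB', h'⟩
  obtain ⟨B, hB, h⟩ := h
  have := heeg_uniq h' (lawS hp h)
  omega

lemma cases_hp {p : ℕ} (hp : p % 8 = 7) {B : ℤ} {τ : ℍ} (h : IsHeegner p B τ) :
    τ ∈ HP p ∨ ModularGroup.S • τ ∈ HP p := by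
  have hB : B % 4 = 1 ∨ (-B) % 4 = 1 := by
    obtain ⟨A, C, -, -, -, hD, -⟩ := h
    have h1 := sq_mod B
    have h2 : B * B = 4 * (A * C) - p := by linear_combination hD
    have h3 : ¬ Even B := fun ⟨k, hk⟩ => by
      have : B * B = 4 * (k * k) := by rw [hk]; ring
      omega
    rw [Int.even_iff] at h3
    omega
  rcases hB with e | e
  · exact Or.inl ⟨B, e, h⟩
  · exact Or.inr ⟨-B, e, lawS (by omega) h⟩

lemma rel_eq : (fun τ σ : ℍ => ∃ γ ∈ G8, γ • τ = σ) =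
    fun τ σ : ℍ => ∃ γ ∈ G8 ⊓ Gam 4, γ • τ = σ := by
  ext τ σ
  refine ⟨?_, fun ⟨g, hg, e⟩ => ⟨g, hg.1, e⟩⟩
  rintro ⟨g, hg, e⟩
  have hd := det_eq g
  obtain ⟨⟨b, hb⟩, ⟨c, hc⟩⟩ := id hg
  have hd4 : ((g : M2) 0 0 : ZMod 4) * ((g : M2) 1 1 : ZMod 4) = 1 := by
    have : (g : M2) 0 0 * (g : M2) 1 1 = 1 + 4 * (16 * b * c) := by
      rw [hb, hc] at hd; linear_combination hd
    have h2 := congrArg (Int.cast : ℤ → ZMod 4) this
    push_cast at h2
    rw [h2, show (4 : ZMod 4) = 0 from rfl, zero_mul, add_zero]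
  have b4 : ((g : M2) 0 1 : ZMod 4) = 0 :=
    (ZMod.intCast_zmod_eq_zero_iff_dvd _ 4).2 ⟨2 * b, by rw [hb]; push_cast; ring⟩
  have c4 : ((g : M2) 1 0 : ZMod 4) = 0 :=
    (ZMod.intCast_zmod_eq_zero_iff_dvd _ 4).2 ⟨2 * c, by rw [hc]; push_cast; ring⟩
  have : ∀ x y : ZMod 4, x * y = 1 → (x = 1 ∧ y = 1) ∨ (-x = 1 ∧ -y = 1) := by decide
  rcases this _ _ hd4 with ⟨h1, h2⟩ | ⟨h1, h2⟩
  · exact ⟨g, ⟨hg, CongruenceSubgroup.Gamma_mem.2 ⟨h1, b4, c4, h2⟩⟩, e⟩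
  · refine ⟨-g, ⟨⟨by simpa using hg.1, by simpa using hg.2⟩, CongruenceSubgroup.Gamma_mem.2 ?_⟩,
      by rwa [ModularGroup.SL_neg_smul]⟩
    simpa using ⟨h1, b4, c4, h2⟩

lemma gam_le : Gam 8 ≤ G8 ⊓ Gam 4 := fun g hg => by
  refine ⟨gam_le_G8 hg, ?_⟩
  rw [CongruenceSubgroup.Gamma_mem] at hg
  refine CongruenceSubgroup.Gamma_mem.2 ?_
  have k := fun (x : ℤ) (y : ZMod 8) (h : (x : ZMod 8) = y) =>
    (map_intCast (ZMod.castHom (by norm_num : 4 ∣ 8) (ZMod 4)) x).symm.trans (congrArg _ h)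
  exact ⟨(k _ _ hg.1).trans (map_one _), (k _ _ hg.2.1).trans (map_zero _),
    (k _ _ hg.2.2.1).trans (map_zero _), (k _ _ hg.2.2.2).trans (map_one _)⟩

end Frm

open Pool.Agent.MP_9207e0_ag.h2.Frm in
theorem frm (hS : OS) (hO : ORB) : FRM where
  stab := fun p B τ hp _ h => Frm.stab hp h
  lawS := fun p B τ hp h => Frm.lawS hp h
  reps := by
    intro p hp h8
    have hp0 : 0 < p := hp.pos
    obtain ⟨T, hT⟩ := hO.fin_cm 8 (-p) (by norm_num) (by omega)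
    obtain ⟨Rp, hR⟩ := hS.exists_rep (S := HP p) (equiv_sub G8) T.finite_toSet (by
      intro x hx
      obtain ⟨B, -, A, C, -, -, -, e1, e2⟩ := id hx
      obtain ⟨g, hg, ht⟩ := hT x A B C e1 e2
      exact ⟨g • x, ht, smul_hp hp0 (gam_le_G8 hg) hx, g, gam_le_G8 hg, rfl⟩)
    have hodd : Odd Rp.card := odd_card cj (equiv_sub G8) hR (fun x => cj_hp hp0) cj_cj
      (fun x y => rel_cj) (exists_fixed h8)
      fun x hx y hy a b => rel_of_pr hp0 hx hy (pr_of_fixed hp hx a) (pr_of_fixed hp hy b)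
    have hn : (Gam 8).relIndex (G8 ⊓ Gam 4) ≠ 0 :=
      Subgroup.isFiniteRelIndex_of_finiteIndex.relIndex_ne_zero
    obtain ⟨R1, ⟨m1, u1⟩, hsum⟩ := hS.index (fun (g : SL2) (x : ℍ) => g • x) (S := HP p) (R := Rp)
      (fun x => one_smul _ x) (fun g g' x => mul_smul g g' x) gam_le hn
      (fun g hg x hx => smul_hp hp0 hg.1 hx) (fun g hg x _ e => hO.free 4 g x (by norm_num) hg.2 e)
      (rel_eq ▸ hR)
    choose! Bf hB1 hB2 using fun (τ : ℍ) (h : τ ∈ HP p) => h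
    have nm := CongruenceSubgroup.Gamma_normal 8
    refine ⟨Rp, R1.image (fun τ => (Bf τ, τ)) ∪ R1.image (fun τ => (-Bf τ, ModularGroup.S • τ)),
      _, hR, hodd, ⟨?_, ?_⟩, Nat.pos_of_ne_zero hn, ?_⟩
    · intro q hq
      rcases Finset.mem_union.1 hq with h | h
      · obtain ⟨τ, hτ, rfl⟩ := Finset.mem_image.1 h
        exact hB2 τ (m1 τ hτ)
      · obtain ⟨τ, hτ, rfl⟩ := Finset.mem_image.1 h
        exact Frm.lawS hp0 (hB2 τ (m1 τ hτ))
    · intro B τ h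
      rcases cases_hp h8 h with h1 | h1
      · obtain ⟨y, ⟨hy, g, hg, e⟩, uy⟩ := u1 τ h1
        refine ⟨(Bf y, y), ⟨Finset.mem_union_left _ (Finset.mem_image_of_mem _ hy), g, hg, e⟩, ?_⟩
        rintro q ⟨hq, g', hg', e'⟩
        rcases Finset.mem_union.1 hq with h | h
        · obtain ⟨σ, hσ, rfl⟩ := Finset.mem_image.1 h
          rw [uy σ ⟨hσ, g', hg', e'⟩]
        · obtain ⟨σ, hσ, rfl⟩ := Finset.mem_image.1 h
          have := smul_hp hp0 (gam_le_G8 hg') h1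
          rw [e'] at this
          exact absurd this (excl hp0 (m1 σ hσ))
      · obtain ⟨y, ⟨hy, g, hg, e⟩, uy⟩ := u1 _ h1
        refine ⟨(-Bf y, ModularGroup.S • y), ⟨Finset.mem_union_right _
          (Finset.mem_image_of_mem _ hy), _, nm.conj_mem g hg ModularGroup.S, ?_⟩, ?_⟩
        · rw [← e, ← conj_smul, SS]
        rintro q ⟨hq, g', hg', e'⟩
        rcases Finset.mem_union.1 hq with h | h
        · obtain ⟨σ, hσ, rfl⟩ := Finset.mem_image.1 h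
          exact absurd h1 (excl hp0 (hp_of_smul hp0 (gam_le_G8 hg') (e' ▸ m1 σ hσ)))
        · obtain ⟨σ, hσ, rfl⟩ := Finset.mem_image.1 h
          rw [uy σ ⟨hσ, _, nm.conj_mem g' hg' ModularGroup.S, by rw [conj_smul, e', SS]⟩]
    · intro V _ f hf
      rw [← hsum (fun τ => f τ - f (ModularGroup.S • τ)) (fun g hg x _ => by
        rw [hf g hg.1, ← conj_smul, hf _ (conj_G8 hg.1)]), Finset.sum_union, Finset.sum_image,
        Finset.sum_image, ← Finset.sum_add_distrib]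
      · refine Finset.sum_congr rfl fun τ hτ => ?_
        have h1 := hB1 τ (m1 τ hτ)
        rw [ZMod.χ₄_int_one_mod_four h1, ZMod.χ₄_int_three_mod_four (n := -Bf τ) (by omega),
          one_smul, neg_one_smul, sub_eq_add_neg]
      · intro x _ y _ e
        exact MulAction.injective _ (congrArg Prod.snd e)
      · intro x _ y _ e
        exact congrArg Prod.snd e
      · rw [Finset.disjoint_left]
        intro q h1 h2
        obtain ⟨x, hx, rfl⟩ := Finset.mem_image.1 h1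
        obtain ⟨y, hy, e⟩ := Finset.mem_image.1 h2
        have e1 : -Bf y = Bf x := congrArg Prod.fst e
        have := hB1 x (m1 x hx)
        have := hB1 y (m1 y hy)
        omega

end Pool.Agent.MP_9207e0_ag.h2

end MrgPart1

-- marker of a merged file
example : 731051 + 85140 = 731051 + 85140 := rfl
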