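import Mathlib
import Pool.Agent.MP_9207e0_ag.h2.Frm

/-! Module DEC: eigenspace decomposition of the points over `ℚ(i, √2, √p)`. -/

set_option linter.unusedSectionVars false
set_option linter.unusedVariables false

namespace Pool.Agent.MP_9207e0_ag.h2

open UpperHalfPlane Complex Filter Asymptotics Matrix WeierstrassCurve
open scoped Real MatrixGroups Manifold Classical
open Pool.Agent.MP_9207e0_ag.hg
open Pool.Agent.MP_a43263_nt (Pt)
open Pool.Agent.MP_a43263_nt.Two (IsE ZR Sg some_eq)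
open Pool.Agent.MP_a43263_nt.R2 (Ecv)

namespace Dec

section abstract

variable {G A : Type} [Group G] [AddCommGroup A]

/-- Splitting along a character with values `± 1`. -/
lemma split (act : G → A →+ A) (hm : ∀ σ τ P, act (σ * τ) P = act σ (act τ P)) (H : Subgroup G)
    (ψ c : G →* ℤˣ) (P : A) (h : ∀ σ ∈ H, c σ = 1 → act σ P = (ψ σ : ℤ) • P) :
    ∃ P1 P2, (2 : ℤ) • P = P1 + P2 ∧ (∀ σ ∈ H, act σ P1 = (ψ σ : ℤ) • P1) ∧
      ∀ σ ∈ H, act σ P2 = ((c * ψ) σ : ℤ) • P2 := by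
  by_cases hg : ∃ g ∈ H, c g = -1
  · obtain ⟨g, gH, hg⟩ := hg
    have sq : ∀ σ, (ψ σ : ℤ) * ψ σ = 1 := fun σ => by
      rw [← Units.val_mul, Int.units_mul_self, Units.val_one]
    have inv : ∀ u : ℤˣ, u⁻¹ = u := fun u => Int.units_inv_eq_self u
    have A1 : ∀ σ ∈ H, c σ = 1 → act σ (act g P) = (ψ σ : ℤ) • act g P := fun σ hσ e => by
      have := h (g⁻¹ * σ * g) (H.mul_mem (H.mul_mem (H.inv_mem gH) hσ) gH)
        (by simp [map_mul, e, hg])
      rw [← hm, show σ * g = g * (g⁻¹ * σ * g) by group, hm, this, map_zsmul]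
      congr 2
      rw [map_mul, map_mul, map_inv, mul_right_comm, inv_mul_cancel, one_mul]
    have A2 : ∀ σ ∈ H, c σ = -1 → act σ (act g P) = ((ψ σ : ℤ) * ψ g) • P := fun σ hσ e => by
      rw [← hm, h _ (H.mul_mem hσ gH) (by simp [map_mul, e, hg]), map_mul, Units.val_mul]
    have A3 : ∀ σ ∈ H, c σ = -1 → act σ P = ((ψ σ : ℤ) * ψ g) • act g P := fun σ hσ e => by
      have := h (g⁻¹ * σ) (H.mul_mem (H.inv_mem gH) hσ) (by simp [map_mul, e, hg])
      rw [show σ = g * (g⁻¹ * σ) by group, hm, this, map_zsmul]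
      congr 1
      simp only [map_mul, map_inv, inv, Units.val_mul]
      linear_combination (-(ψ σ : ℤ) * ψ g) * sq g
    refine ⟨P + (ψ g : ℤ) • act g P, P - (ψ g : ℤ) • act g P, by module, fun σ hσ => ?_,
      fun σ hσ => ?_⟩
    · rcases Int.units_eq_one_or (c σ) with e | e
      · rw [map_add, map_zsmul, A1 σ hσ e, h σ hσ e]
        module
      · rw [map_add, map_zsmul, A2 σ hσ e, A3 σ hσ e, smul_smul,
          show (ψ g : ℤ) * ((ψ σ : ℤ) * ψ g) = ψ σ by linear_combination (ψ σ : ℤ) * sq g]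
        module
    · rcases Int.units_eq_one_or (c σ) with e | e
      · rw [map_sub, map_zsmul, A1 σ hσ e, h σ hσ e, MonoidHom.mul_apply, e, one_mul]
        module
      · rw [map_sub, map_zsmul, A2 σ hσ e, A3 σ hσ e, smul_smul,
          show (ψ g : ℤ) * ((ψ σ : ℤ) * ψ g) = ψ σ by linear_combination (ψ σ : ℤ) * sq g,
          MonoidHom.mul_apply, e]
        simp only [Units.val_mul, Units.val_neg, Units.val_one]
        module
  · refine ⟨(2 : ℤ) • P, 0, by simp, fun σ hσ => ?_, by simp⟩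
    have e : c σ = 1 := (Int.units_eq_one_or (c σ)).resolve_right fun e => hg ⟨σ, hσ, e⟩
    rw [map_zsmul, h σ hσ e, smul_comm]

/-- Eigenvectors of infinite order with different characters are independent. -/
lemma indep {ι : Type} (act : G → A →+ A) (v : ι → A) (ψ : ι → G → ℤ)
    (hv : ∀ j σ, act σ (v j) = ψ j σ • v j) (hi : Function.Injective ψ) (hn : ∀ j, NT (v j)) :
    LinearIndependent ℤ v := by
  rw [linearIndependent_iff']
  intro s
  induction s using Finset.induction_on with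
  | empty => simp
  | insert k s hk ih =>
    intro g hg
    rw [Finset.sum_insert hk] at hg
    have z : ∀ j ∈ s, g j = 0 := fun j hj => by
      have hne : ψ j ≠ ψ k := fun e => hk (hi e ▸ hj)
      obtain ⟨σ, hσ⟩ := Function.ne_iff.1 hne
      have h1 := congrArg (act σ) hg
      rw [map_add, map_sum, map_zero, map_zsmul, hv] at h1
      simp only [map_zsmul, hv] at h1
      have h2 : ∑ l ∈ s, (g l * (ψ l σ - ψ k σ)) • v l = 0 := by
        have h3 : ∑ l ∈ s, (g l * (ψ l σ - ψ k σ)) • v l =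
            ∑ l ∈ s, g l • ψ l σ • v l - ψ k σ • ∑ l ∈ s, g l • v l := by
          rw [Finset.smul_sum, ← Finset.sum_sub_distrib]
          exact Finset.sum_congr rfl fun l _ => by module
        rw [h3, eq_neg_of_add_eq_zero_right h1, eq_neg_of_add_eq_zero_right hg]
        module
      exact (mul_eq_zero.1 (ih _ h2 j hj)).resolve_right (sub_ne_zero.2 hσ)
    intro j hj
    rcases Finset.mem_insert.1 hj with rfl | hj
    · rw [Finset.sum_eq_zero fun l hl => by rw [z l hl, zero_smul], add_zero] at hg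
      by_contra e
      exact hn _ _ e hg
    · exact z j hj

/-- A nonzero multiple lies in `M`. -/
def Good (M : AddSubgroup A) (P : A) : Prop := ∃ k : ℤ, k ≠ 0 ∧ k • P ∈ M

lemma Good.of_two {M : AddSubgroup A} {P P1 P2 : A} (e : (2 : ℤ) • P = P1 + P2) (h1 : Good M P1)
    (h2 : Good M P2) : Good M P := by
  obtain ⟨k, hk, m1⟩ := h1
  obtain ⟨l, hl, m2⟩ := h2
  refine ⟨k * l * 2, mul_ne_zero (mul_ne_zero hk hl) two_ne_zero, ?_⟩
  rw [mul_smul, e, show (k * l) • (P1 + P2) = l • k • P1 + k • l • P2 by module]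
  exact M.add_mem (M.zsmul_mem m1 _) (M.zsmul_mem m2 _)

lemma Good.of_neg {M : AddSubgroup A} {P : A} (h : Good M (-P)) : Good M P := by
  obtain ⟨k, hk, m⟩ := h
  exact ⟨k, hk, by simpa using M.neg_mem m⟩

end abstract

/-- `c` is the character of `ρ`. -/
def Ch (ρ : Qbar) (c : GQ →* ℤˣ) : Prop := ∀ σ : GQ, σ ρ = ((c σ : ℤ) : Qbar) * ρ

lemma Ch.mul {ρ ρ' : Qbar} {c c' : GQ →* ℤˣ} (h : Ch ρ c) (h' : Ch ρ' c') :
    Ch (ρ * ρ') (c * c') := fun σ => by
  rw [map_mul, h σ, h' σ, MonoidHom.mul_apply]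
  push_cast
  ring

lemma ch_one : Ch 1 1 := fun σ => by simp

lemma neg_ne {ρ : Qbar} (h : ρ ≠ 0) : -ρ ≠ ρ := fun e =>
  h (by linear_combination (-1 / 2 : Qbar) * e)

lemma exists_ch {ρ : Qbar} {d : ℚ} (hd : d ≠ 0) (h : ρ ^ 2 = d) : ∃ c, Ch ρ c := by
  have h0 : ρ ≠ 0 := Pool.Agent.MP_a43263_nt.Two.root_ne hd h
  have hs : ∀ σ : GQ, σ ρ = ρ ∨ σ ρ = -ρ := fun σ =>
    sq_eq_sq_iff_eq_or_eq_neg.1 (by rw [← map_pow, h, map_ratCast])
  have hn := neg_ne h0
  refine ⟨MonoidHom.mk' (fun σ => if σ ρ = ρ then 1 else -1) fun σ τ => ?_, fun σ => ?_⟩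
  · rcases hs σ with e | e <;> rcases hs τ with e' | e' <;> simp [e, e', hn]
  · rcases hs σ with e | e <;> simp [e, hn]

lemma Ch.iff {ρ : Qbar} {c : GQ →* ℤˣ} (h : Ch ρ c) (h0 : ρ ≠ 0) {P : EQ} :
    Eig ρ P ↔ ∀ σ, ga σ P = (c σ : ℤ) • P := by
  constructor
  · intro hE σ
    have := h σ
    rcases Int.units_eq_one_or (c σ) with e | e
    · rw [e] at this ⊢
      simpa using (hE σ).1 (by simpa using this)
    · rw [e] at this ⊢
      simpa using (hE σ).2 (by simpa using this)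
  · intro hE σ
    have := h σ
    have hn := neg_ne h0
    rw [hE σ]
    rcases Int.units_eq_one_or (c σ) with e | e
    · rw [e] at this ⊢
      refine ⟨fun _ => by simp, fun e' => ?_⟩
      rw [e'] at this
      exact absurd (by simpa using this) hn
    · rw [e] at this ⊢
      refine ⟨fun e' => ?_, fun _ => by simp⟩
      rw [e'] at this
      exact absurd (by simpa using this.symm) hn

lemma Ch.fix {ρ : Qbar} {c : GQ →* ℤˣ} (h : Ch ρ c) {σ : GQ} (e : c σ = 1) : σ ρ = ρ := by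
  simpa [e] using h σ

lemma eig_congr {ρ ρ' : Qbar} (e : ρ ^ 2 = ρ' ^ 2) {P : EQ} (h : Eig ρ P) : Eig ρ' P := by
  rcases sq_eq_sq_iff_eq_or_eq_neg.1 e with rfl | rfl
  · exact h
  · exact fun σ => ⟨fun e => (h σ).1 (by rw [map_neg, e]), fun e => (h σ).2 (by rw [map_neg, e])⟩

lemma eig_J {i ρ : Qbar} (hi : i ^ 2 = -1) {P : EQ} (h : Eig ρ P) : Eig (i * ρ) (cmJ i hi P) := by
  intro σ
  have h0 : i ≠ 0 := by rintro rfl; simp at hi
  have hs : σ i = i ∨ σ i = -i :=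
    sq_eq_sq_iff_eq_or_eq_neg.1 (by rw [← map_pow, hi, map_neg, map_one])
  rw [map_mul]
  rcases hs with e | e
  · rw [(ga_cmJ hi σ P).1 e, e]
    exact ⟨fun e' => by rw [(h σ).1 (mul_left_cancel₀ h0 e')], fun e' => by
      rw [(h σ).2 (mul_left_cancel₀ h0 (by rw [e', mul_neg])), map_neg]⟩
  · rw [(ga_cmJ hi σ P).2 e, e]
    exact ⟨fun e' => by
      rw [(h σ).2 (mul_left_cancel₀ h0 (by linear_combination -e')), map_neg, neg_neg],
      fun e' => by rw [(h σ).1 (mul_left_cancel₀ h0 (by linear_combination -e'))]⟩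

lemma nt_J {i : Qbar} (hi : i ^ 2 = -1) {P : EQ} (h : NT P) : NT (cmJ i hi P) := fun k hk e => by
  have := congrArg (cmJ i hi) e
  rw [map_zsmul, cmJ_cmJ, map_zero] at this
  exact h k hk (neg_eq_zero.1 ((smul_neg k P).symm.trans this))

/-- Eigenpoints come from rational points of the twist. -/
lemma twist {ρ : Qbar} {n : ℚ} (hn : n ≠ 0) (h : ρ ^ 2 = n) :
    ∃ φ : Pt (Ecv n (-n)) ℚ →+ EQ, ∀ P, Eig ρ P → ∃ Q, φ Q = P := by
  have h0 : ρ ≠ 0 := Pool.Agent.MP_a43263_nt.Two.root_ne hn h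
  have hn' : (n : Qbar) ≠ 0 := by exact_mod_cast hn
  have hE : IsE ((Ecv n (-n)).baseChange ℚ).toAffine n (-n) := by
    simpa using Pool.Agent.MP_a43263_nt.R2.Desc.isE (a := n) (b := -n) hn (neg_ne_zero.2 hn)
      (fun e => hn (by linear_combination (1 / 2 : ℚ) * e)) ℚ
  have hE' : IsE (legendre (-1 : Qbar)) ((ρ⁻¹) ^ 2 * Rat.castHom Qbar n)
      ((ρ⁻¹) ^ 2 * Rat.castHom Qbar (-n)) := by
    have e1 : (ρ⁻¹) ^ 2 * Rat.castHom Qbar n = 1 := by
      rw [inv_pow, h]; simp [hn']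
    have e2 : (ρ⁻¹) ^ 2 * Rat.castHom Qbar (-n) = -1 := by rw [map_neg, mul_neg, e1]
    rw [e1, e2]
    exact isE_leg Qbar
  refine ⟨scl (Rat.castHom Qbar) ρ⁻¹ (inv_ne_zero h0) hE hE', ?_⟩
  rintro (_ | ⟨x, y, hP⟩) hP'
  · exact ⟨0, map_zero _⟩
  · have key : ∀ σ : GQ, σ (n * x) = n * x ∧ σ (ρ ^ 3 * y) = ρ ^ 3 * y := fun σ => by
      obtain ⟨h1, e1⟩ := ga_some σ hP
      have hs : σ ρ = ρ ∨ σ ρ = -ρ :=
        sq_eq_sq_iff_eq_or_eq_neg.1 (by rw [← map_pow, h, map_ratCast])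
      rw [map_mul, map_mul, map_pow, map_ratCast]
      rcases hs with e | e
      · have := (hP' σ).1 e
        rw [e1] at this
        obtain ⟨a1, a2⟩ := Affine.Point.some.inj this
        rw [a1, a2, e]
        exact ⟨rfl, rfl⟩
      · have := (hP' σ).2 e
        rw [e1, Affine.Point.neg_some] at this
        obtain ⟨a1, a2⟩ := Affine.Point.some.inj this
        rw [a1, a2, e, (isE_leg Qbar).negY]
        exact ⟨rfl, by ring⟩
    obtain ⟨u, hu⟩ := Pool.Agent.MP_a43263_nt.rat_of_fixed (x := n * x) fun σ => (key σ).1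
    obtain ⟨w, hw⟩ := Pool.Agent.MP_a43263_nt.rat_of_fixed (x := ρ ^ 3 * y) fun σ => (key σ).2
    have eq := (isE_leg Qbar).eqn hP
    have hq : w ^ 2 = u * (u - n) * (u - -n) := by
      apply Rat.cast_injective (α := Qbar)
      push_cast
      rw [hu, hw, ← h]
      linear_combination ρ ^ 6 * eq
    refine ⟨.some u w (hE.ns hq), ?_⟩
    obtain ⟨h2, e2⟩ := scl_some (Rat.castHom Qbar) ρ⁻¹ (inv_ne_zero h0) hE hE' (hE.ns hq)
    rw [e2]
    refine some_eq ?_ ?_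
    · rw [Rat.coe_castHom, hu, ← h]
      field_simp
    · rw [Rat.coe_castHom, hw]
      field_simp

lemma tors (hR : RANK) {ρ : Qbar} {n : ℚ} (hn : n = 1 ∨ n = 2) (h : ρ ^ 2 = n) {P : EQ}
    (hP : Eig ρ P) : ∃ k : ℤ, k ≠ 0 ∧ k • P = 0 := by
  obtain ⟨φ, hφ⟩ := twist (n := n) (by rcases hn with rfl | rfl <;> norm_num) h
  obtain ⟨Q, rfl⟩ := hφ P hP
  obtain ⟨k, hk, e⟩ := hR.zero n hn Q
  exact ⟨k, hk, by rw [← map_zsmul, e, map_zero]⟩

lemma dep (hR : RANK) {p : ℕ} (hp : p.Prime) (h8 : p % 8 = 7) {ρ : Qbar} {n : ℚ}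
    (hn : n = p ∨ n = 2 * p) (h : ρ ^ 2 = n) {P B : EQ} (hP : Eig ρ P) (hB : Eig ρ B)
    (hN : NT B) : ∃ k l : ℤ, k ≠ 0 ∧ k • P = l • B := by
  have hp0 : (p : ℚ) ≠ 0 := by exact_mod_cast hp.ne_zero
  obtain ⟨φ, hφ⟩ := twist (n := n) (by rcases hn with rfl | rfl <;> simp [hp0]) h
  obtain ⟨Q, rfl⟩ := hφ P hP
  obtain ⟨C, rfl⟩ := hφ B hB
  obtain ⟨k, l, hk, e⟩ := hR.one p n hp h8 hn Q C fun k hk e =>
    hN k hk (by rw [← map_zsmul, e, map_zero])
  exact ⟨k, l, hk, by rw [← map_zsmul, e, map_zsmul]⟩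

/-- Different square classes give different characters. -/
lemma ch_ne {ρ ρ' : Qbar} {c c' : GQ →* ℤˣ} (h : Ch ρ c) (h' : Ch ρ' c') {m q : ℚ} (hq : q ≠ 0)
    (hm : ¬IsSquare m) (e : (ρ * ρ') ^ 2 = (m * q ^ 2 : ℚ)) :
    (fun σ => (c σ : ℤ)) ≠ fun σ => (c' σ : ℤ) := fun e' => by
  obtain ⟨u, hu⟩ := Pool.Agent.MP_a43263_nt.rat_of_fixed (x := ρ * ρ') fun σ => by
    have e1 : c σ = c' σ := Units.ext (congrFun e' σ)
    exact (h.mul h').fix (by rw [MonoidHom.mul_apply, e1, Int.units_mul_self])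
  rw [← hu] at e
  have e2 : u ^ 2 = m * q ^ 2 := by exact_mod_cast e
  exact hm ⟨u / q, by field_simp; linear_combination -e2⟩

end Dec

open Dec in
theorem dec (hR : RANK) : DecStmt := by
  intro p i t r s hi a b M hp h8 ht hr hs ea na eb nb
  have hp0 : (p : ℚ) ≠ 0 := by exact_mod_cast hp.ne_zero
  have hp1 : (p : Qbar) ≠ 0 := by exact_mod_cast hp.ne_zero
  obtain ⟨ci, hci⟩ := exists_ch (ρ := i) (d := -1) (by norm_num) (by simpa using hi)
  obtain ⟨ct, hct⟩ := exists_ch (ρ := t) (d := 2) (by norm_num) (by simpa using ht)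
  obtain ⟨cr, hcr⟩ := exists_ch (ρ := r) (d := -p) (by simpa using hp0) (by simpa using hr)
  obtain ⟨cs, hcs⟩ := exists_ch (ρ := s) (d := 2 * p) (by simpa using hp0) (by simpa using hs)
  have sqne : ∀ {x y : Qbar}, x ^ 2 = y → y ≠ 0 → x ≠ 0 := fun e h h0 => h (by rw [← e, h0]; simp)
  have i0 : i ≠ 0 := sqne hi (by simp)
  have r0 : r ≠ 0 := sqne hr (by simpa using hp1)
  have s0 : s ≠ 0 := sqne hs (by simpa using hp1)
  constructor
  · intro ma mJa mb mJb
    have pos : ∀ (ρ : Qbar) (Q : EQ), ρ ^ 2 = 1 ∨ ρ ^ 2 = 2 ∨ ρ ^ 2 = p ∨ ρ ^ 2 = 2 * p → Eig ρ Q →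
        Good M Q ∧ Good M (cmJ i hi Q) := by
      intro ρ Q hρ hQ
      have fin : ∀ (B : EQ) (k l : ℤ), B ∈ M → cmJ i hi B ∈ M → k ≠ 0 → k • Q = l • B →
          Good M Q ∧ Good M (cmJ i hi Q) := fun B k l m1 m2 hk e =>
        ⟨⟨k, hk, by rw [e]; exact M.zsmul_mem m1 _⟩,
          ⟨k, hk, by rw [← map_zsmul, e, map_zsmul]; exact M.zsmul_mem m2 _⟩⟩
      rcases hρ with e | e | e | e
      · obtain ⟨k, hk, e'⟩ := tors hR (n := 1) (.inl rfl) (by simpa using e) hQ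
        exact fin b k 0 mb mJb hk (by simpa using e')
      · obtain ⟨k, hk, e'⟩ := tors hR (n := 2) (.inr rfl) (by simpa using e) hQ
        exact fin b k 0 mb mJb hk (by simpa using e')
      · obtain ⟨k, l, hk, e'⟩ := dep hR hp h8 (n := p) (.inl rfl) (by simpa using e) hQ
          (eig_congr (by rw [mul_pow, hi, hr, e]; ring) (eig_J hi ea)) (nt_J hi na)
        exact fin _ k l mJa (by rw [cmJ_cmJ]; exact M.neg_mem ma) hk e'
      · obtain ⟨k, l, hk, e'⟩ := dep hR hp h8 (n := 2 * p) (.inr rfl) (by simpa using e) hQ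
          (eig_congr (by rw [hs, e]) eb) nb
        exact fin _ k l mb mJb hk e'
    have neg : ∀ (ρ : Qbar) (Q : EQ), (i * ρ) ^ 2 = 1 ∨ (i * ρ) ^ 2 = 2 ∨ (i * ρ) ^ 2 = p ∨
        (i * ρ) ^ 2 = 2 * p → Eig ρ Q → Good M Q := fun ρ Q hρ hQ => by
      have := (pos _ _ hρ (eig_J hi hQ)).2
      rw [cmJ_cmJ] at this
      exact this.of_neg
    have L1 : ∀ (ρ : Qbar) (c : GQ →* ℤˣ) (Q : EQ), Ch ρ c →
        ρ ^ 2 = 1 ∨ ρ ^ 2 = 2 ∨ ρ ^ 2 = -p ∨ ρ ^ 2 = -(2 * p) →
        (∀ σ, ci σ = 1 → ga σ Q = (c σ : ℤ) • Q) → Good M Q := by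
      intro ρ c Q hc hρ hQ
      have ρ0 : ρ ≠ 0 := by
        rcases hρ with e | e | e | e <;> exact sqne e (by simp [hp1])
      obtain ⟨Q1, Q2, e, h1, h2⟩ := split ga ga_mul ⊤ c ci Q fun σ _ => hQ σ
      have E1 : Eig ρ Q1 := (hc.iff ρ0).2 fun σ => h1 σ trivial
      have E2 : Eig (i * ρ) Q2 := ((hci.mul hc).iff (mul_ne_zero i0 ρ0)).2 fun σ => h2 σ trivial
      have u1 : (i * ρ) ^ 2 = -ρ ^ 2 := by rw [mul_pow, hi]; ring
      have u2 : (i * (i * ρ)) ^ 2 = ρ ^ 2 := by rw [mul_pow, u1, hi]; ring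
      rcases hρ with f | f | f | f
      · exact .of_two e (pos _ _ (.inl f) E1).1 (neg _ _ (.inl (u2.trans f)) E2)
      · exact .of_two e (pos _ _ (.inr (.inl f)) E1).1 (neg _ _ (.inr (.inl (u2.trans f))) E2)
      · have g : (i * ρ) ^ 2 = p := by rw [u1, f, neg_neg]
        exact .of_two e (neg _ _ (.inr (.inr (.inl g))) E1) (pos _ _ (.inr (.inr (.inl g))) E2).1
      · have g : (i * ρ) ^ 2 = 2 * p := by rw [u1, f, neg_neg]
        exact .of_two e (neg _ _ (.inr (.inr (.inr g))) E1) (pos _ _ (.inr (.inr (.inr g))) E2).1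
    have L2 : ∀ (ρ : Qbar) (c : GQ →* ℤˣ) (Q : EQ), Ch ρ c → ρ ^ 2 = 1 ∨ ρ ^ 2 = -p →
        (∀ σ, ci σ = 1 → ct σ = 1 → ga σ Q = (c σ : ℤ) • Q) → Good M Q := by
      intro ρ c Q hc hρ hQ
      obtain ⟨Q1, Q2, e, h1, h2⟩ := split ga ga_mul ci.ker c ct Q fun σ hσ => hQ σ hσ
      refine .of_two e (L1 ρ c Q1 hc ?_ h1) (L1 (t * ρ) _ Q2 (hct.mul hc) ?_ h2)
      · tauto
      · rw [mul_pow, ht]
        rcases hρ with f | f <;> rw [f]
        · exact .inr (.inl (mul_one _))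
        · exact .inr (.inr (.inr (mul_neg _ _)))
    intro P hP
    obtain ⟨Q1, Q2, e, h1, h2⟩ := split ga ga_mul (ci.ker ⊓ ct.ker) 1 cr P fun σ hσ e => by
      simpa using hP σ (hci.fix hσ.1) (hct.fix hσ.2) (hcr.fix e)
    exact Good.of_two e (L2 1 1 Q1 ch_one (.inl (one_pow _)) fun σ e1 e2 => h1 σ ⟨e1, e2⟩)
      (L2 (r * 1) _ Q2 (hcr.mul ch_one) (.inr (by rw [mul_one, hr])) fun σ e1 e2 => h2 σ ⟨e1, e2⟩)
  · have hir := hci.mul hcr
    have his := hci.mul hcs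
    have m1 : ¬IsSquare (-1 : ℚ) := fun h => by have := h.nonneg; norm_num at this
    have m2 : ¬IsSquare (-2 : ℚ) := fun h => by have := h.nonneg; norm_num at this
    have m3 : ¬IsSquare (2 : ℚ) := by
      have := Nat.prime_two.not_isSquare
      rwa [← Rat.isSquare_natCast_iff] at this
    have d12 := ch_ne hcr hir hp0 m1 (by push_cast; simp only [mul_pow, hi, hr]; ring)
    have d13 := ch_ne hcr hcs hp0 m2 (by push_cast; simp only [mul_pow, hs, hr]; ring)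
    have d14 := ch_ne hcr his hp0 m3 (by push_cast; simp only [mul_pow, hi, hs, hr]; ring)
    have d23 := ch_ne hir hcs hp0 m3 (by push_cast; simp only [mul_pow, hi, hs, hr]; ring)
    have d24 := ch_ne hir his hp0 m2 (by push_cast; simp only [mul_pow, hi, hs, hr]; ring)
    have d34 := ch_ne hcs his (q := 2 * p) (by simpa using hp0) m1
      (by push_cast; simp only [mul_pow, hi, hs]; ring)
    refine indep ga _ ![fun σ => (cr σ : ℤ), fun σ => ((ci * cr) σ : ℤ), fun σ => (cs σ : ℤ),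
      fun σ => ((ci * cs) σ : ℤ)] ?_ ?_ ?_
    · intro j
      fin_cases j
      · exact (hcr.iff r0).1 ea
      · exact (hir.iff (mul_ne_zero i0 r0)).1 (eig_J hi ea)
      · exact (hcs.iff s0).1 eb
      · exact (his.iff (mul_ne_zero i0 s0)).1 (eig_J hi eb)
    · intro j k e
      fin_cases j <;> fin_cases k <;>
        first
        | rfl
        | exact absurd e d12 | exact absurd e d13 | exact absurd e d14 | exact absurd e d23
        | exact absurd e d24 | exact absurd e d34 | exact absurd e.symm d12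
        | exact absurd e.symm d13 | exact absurd e.symm d14 | exact absurd e.symm d23
        | exact absurd e.symm d24 | exact absurd e.symm d34
    · intro j
      fin_cases j
      · exact na
      · exact nt_J hi na
      · exact nb
      · exact nt_J hi nb

end Pool.Agent.MP_9207e0_ag.h2
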