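import Mathlib
import Pool.Agent.MP_9207e0_ag.h2.Frm

/-! The action of the modular group on the quotients of theta constants. -/

set_option linter.unusedSectionVars false
set_option linter.unusedVariables false

namespace Pool.Agent.MP_9207e0_ag.h2

open UpperHalfPlane Complex Filter Asymptotics Matrix
open scoped Real MatrixGroups Manifold Classical
open Pool.Agent.MP_9207e0_ag.hg

namespace Th2

/-! ### Rational expansions -/

lemma rq_of {w : ℍ → ℂ} (f : ℤ → ℤ) (a : ℤ → ℚ) (h0 : ∀ n, 0 ≤ f n)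
    (hf : ∀ m, (f ⁻¹' {m}).Finite)
    (hw : ∀ τ : ℍ, HasSum (fun n => (a n : ℂ) * ee (f n * τ / (8 : ℕ))) (w τ)) : RQ 8 w := by
  refine ⟨HahnSeries.ofSuppBddBelow (fun m => ∑' n : f ⁻¹' {m}, (a n : ℂ)) ⟨0, fun m hm => ?_⟩,
    fun τ => ?_, fun m => ?_⟩
  · by_contra hlt
    have : IsEmpty (f ⁻¹' {m}) := ⟨fun n => hlt (by have := h0 n; rwa [n.2] at this)⟩
    exact hm tsum_empty
  · have h := (hw τ).tsum_fiberwise f
    have e : (fun m : ℤ => ∑' n : f ⁻¹' {m}, (a n : ℂ) * ee (f n * τ / (8 : ℕ))) =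
        fun m : ℤ => (∑' n : f ⁻¹' {m}, (a n : ℂ)) * ee (m * τ / (8 : ℕ)) := funext fun m => by
      rw [← tsum_mul_right]
      exact tsum_congr fun n => by rw [show f n = m from n.2]
    rw [e] at h
    exact h
  · have := (hf m).fintype
    refine ⟨∑ n : f ⁻¹' {m}, a n, ?_⟩
    rw [HahnSeries.coeff_ofSuppBddBelow, tsum_fintype]
    push_cast
    rfl

lemma fin_of {f : ℤ → ℤ} (h : ∀ n, |n| ≤ f n) (m : ℤ) : (f ⁻¹' {m}).Finite :=
  (Set.finite_Icc (-m) m).subset fun n hn => by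
    have := h n
    rw [show f n = m from hn] at this
    exact abs_le.1 this

lemma sm (z : ℂ) (τ : ℍ) : Summable fun n : ℤ => jacobiTheta₂_term n z τ :=
  (summable_jacobiTheta₂_term_iff z τ).2 τ.im_pos

lemma abs_le_four (n : ℤ) : |n| ≤ 4 * n ^ 2 := by
  rcases abs_cases n with h | h <;> nlinarith [sq_nonneg n, sq_nonneg (2 * n - 1), sq_nonneg (2 * n + 1)]

lemma abs_le_odd (n : ℤ) : |n| ≤ (2 * n + 1) ^ 2 := by
  rcases abs_cases n with h | h
  · nlinarith [sq_nonneg n]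
  · have : n ≤ -1 := by omega
    nlinarith [sq_nonneg (n + 1)]

lemma rq00 : RQ 8 th00 := by
  refine rq_of (fun n => 4 * n ^ 2) (fun _ => 1) (fun n => by positivity) (fin_of abs_le_four)
    fun τ => ?_
  have e : ∀ n : ℤ, cexp (π * Complex.I * n ^ 2 * τ) =
      ((1 : ℚ) : ℂ) * ee ((4 * n ^ 2 : ℤ) * τ / (8 : ℕ)) := fun n => by
    rw [ee, Rat.cast_one, one_mul]
    congr 1
    push_cast
    ring
  have hs : Summable fun n : ℤ => cexp (π * Complex.I * n ^ 2 * τ) :=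
    (sm 0 τ).congr fun n => by simp [jacobiTheta₂_term]
  simpa only [th00, e] using hs.hasSum

lemma rq01 : RQ 8 th01 := by
  refine rq_of (fun n => 4 * n ^ 2) (fun n => (-1) ^ n) (fun n => by positivity)
    (fin_of abs_le_four) fun τ => ?_
  have e : ∀ n : ℤ, (-1) ^ n * cexp (π * Complex.I * n ^ 2 * τ) =
      (((-1) ^ n : ℚ) : ℂ) * ee ((4 * n ^ 2 : ℤ) * τ / (8 : ℕ)) := fun n => by
    rw [ee]
    congr 1
    · push_cast
      rfl
    · congr 1
      push_cast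
      ring
  have hs : Summable fun n : ℤ => (-1 : ℂ) ^ n * cexp (π * Complex.I * n ^ 2 * τ) :=
    (sm (1 / 2) τ).congr fun n => by
      rw [jacobiTheta₂_term, ← Complex.exp_pi_mul_I, ← Complex.exp_int_mul, ← Complex.exp_add]
      congr 1
      ring
  simpa only [th01, e] using hs.hasSum

lemma rq10 : RQ 8 th10 := by
  refine rq_of (fun n => (2 * n + 1) ^ 2) (fun _ => 1) (fun n => by positivity)
    (fin_of abs_le_odd) fun τ => ?_
  have e : ∀ n : ℤ, cexp (π * Complex.I * (n + 1 / 2) ^ 2 * τ) =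
      ((1 : ℚ) : ℂ) * ee (((2 * n + 1) ^ 2 : ℤ) * τ / (8 : ℕ)) := fun n => by
    rw [ee, Rat.cast_one, one_mul]
    congr 1
    push_cast
    ring
  have hs : Summable fun n : ℤ => cexp (π * Complex.I * (n + 1 / 2) ^ 2 * τ) :=
    ((sm (τ / 2) τ).mul_left (cexp (π * Complex.I * τ / 4))).congr fun n => by
      rw [jacobiTheta₂_term, ← Complex.exp_add]
      congr 1
      ring
  simpa only [th10, e] using hs.hasSum

/-! ### The transformation formula -/

/-- First coordinate of the transformed characteristic. -/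
def cm (a b c d i : ℕ) : ℕ := (a * (i / 2 + 7 * c * d) + c * (i % 2 + 7 * a * b)) % 8

/-- Second coordinate of the transformed characteristic. -/
def cn (a b c d i : ℕ) : ℕ := (b * (i / 2 + 7 * c * d) + d * (i % 2 + 7 * a * b)) % 8

/-- The permutation of the theta constants. -/
def sg (a b c d : ZMod 8) (i : Fin 3) : Fin 3 :=
  Fin.ofNat 3 (2 * (cm a.val b.val c.val d.val i % 2) + cn a.val b.val c.val d.val i % 2)

/-- The exponent in the formula of Igusa. -/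
def ig (a b c d m n : ℕ) : ℕ :=
  4 * m * (n / 2) + 7 * m * m * b * d + 2 * m * n * b * c + 7 * n * n * a * c +
    2 * a * b * (d * m + 7 * c * n)

/-- The exponent of the eighth root of unity. -/
def ex (a b c d : ZMod 8) (i : Fin 3) : ZMod 8 :=
  (ig a.val b.val c.val d.val (cm a.val b.val c.val d.val i) (cn a.val b.val c.val d.val i) : ℕ)

theorem chkS : ∀ a b c d : ZMod 8, a * d - b * c = 1 →
    4 * -a * d = 4 * b * c + 4 - 4 * (ex b (-a) d (-c) 0 - ex a b c d 0) ∧ ∀ i,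
      sg b (-a) d (-c) i = ![0, 2, 1] (sg a b c d i) ∧
        ex b (-a) d (-c) i = ex a b c d i + 0 + (ex b (-a) d (-c) 0 - ex a b c d 0) := by
  decide +kernel

theorem chkT : ∀ a b c d : ZMod 8, a * d - b * c = 1 →
    4 * (a + b) * c = 4 * b * c + 0 -
      4 * (ex a (a + b) c (c + d) 0 - ex a b c d 0 - ![0, 0, 1] (sg a b c d 0)) ∧ ∀ i,
      sg a (a + b) c (c + d) i = ![1, 0, 2] (sg a b c d i) ∧
        ex a (a + b) c (c + d) i = ex a b c d i + ![0, 0, 1] (sg a b c d i) +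
          (ex a (a + b) c (c + d) 0 - ex a b c d 0 - ![0, 0, 1] (sg a b c d 0)) := by
  decide +kernel

theorem chk1 : ∀ i, sg 1 0 0 1 i = i ∧ ex 1 0 0 1 i = 0 := by decide +kernel

theorem chk2 : ∀ a b c d : ZMod 8, a * d - b * c = 1 → 4 * b = 0 → 4 * c = 0 →
    (∀ i, sg a b c d i = i) ∧ ex a b c d 2 = ex a b c d 0 + b * d ∧
      ex a b c d 1 = ex a b c d 0 + -(c * a) ∧ 4 * b * c + 4 * ex a b c d 0 = 0 := by
  decide +kernel

theorem chk6 : ∀ a b c d : ZMod 8, a * d - b * c = 1 → (4 * b = 0 ∧ 4 * c = 0) ∨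
    (sg a b c d 2 = 1 ∧ sg a b c d 0 = 0 ∧ 4 * ex a b c d 2 = 4 * ex a b c d 0) ∨
    (sg a b c d 2 = 0 ∧ sg a b c d 0 = 2 ∧ 4 * ex a b c d 2 = 4 * ex a b c d 0) ∨
    (sg a b c d 2 = 0 ∧ sg a b c d 0 = 1 ∧ 4 * ex a b c d 2 = 4 * ex a b c d 0) ∨
    (sg a b c d 2 = 1 ∧ sg a b c d 0 = 2 ∧ 4 * ex a b c d 2 = 4 * ex a b c d 0 + 4) ∨
    (sg a b c d 2 = 2 ∧ sg a b c d 0 = 1 ∧ 4 * ex a b c d 2 = 4 * ex a b c d 0 + 4) := by
  decide +kernel

/-- The three theta constants. -/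
noncomputable def th : Fin 3 → ℍ → ℂ := ![th00, th01, th10]

lemma ee_pow : ee (1 / 8) ^ 8 = 1 := by
  rw [ee, ← Complex.exp_nat_mul]
  refine Eq.trans (congrArg cexp ?_) Complex.exp_two_pi_mul_I
  push_cast
  ring

lemma ee_two : ee (1 / 8) ^ 2 = Complex.I := by
  rw [ee, ← Complex.exp_nat_mul]
  refine Eq.trans (congrArg cexp ?_) Complex.exp_pi_div_two_mul_I
  push_cast
  ring

/-- The character of order eight. -/
noncomputable def ch : AddChar (ZMod 8) ℂ := AddChar.zmodChar 8 ee_pow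

lemma ch_one : ch 1 = ee (1 / 8) := pow_one _

lemma ch_ne (k : ZMod 8) : ch k ≠ 0 := fun h => by
  have := AddChar.map_add_eq_mul ch k (-k)
  rw [add_neg_cancel, AddChar.map_zero_eq_one, h, zero_mul] at this
  exact one_ne_zero this

lemma ch_pow (k : ZMod 8) : ch k ^ 4 = ch (4 * k) := by
  rw [← AddChar.map_nsmul_eq_pow, nsmul_eq_mul]
  rfl

lemma ch_two (k : ℤ) : ch ((2 * k : ℤ) : ZMod 8) = Complex.I ^ k := by
  rw [show ((2 * k : ℤ) : ZMod 8) = k • (2 : ℕ) • (1 : ZMod 8) by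
      rw [zsmul_eq_mul, nsmul_eq_mul]; push_cast; ring,
    AddChar.map_zsmul_eq_zpow, AddChar.map_nsmul_eq_pow, ch_one, ee_two]

lemma ch_four : ch 4 = -1 := by
  have := ch_two 2
  rw [show ((2 * 2 : ℤ) : ZMod 8) = 4 by norm_num] at this
  rw [this, zpow_ofNat, Complex.I_sq]

/-- The permutation attached to a matrix. -/
def sG (g : SL2) : Fin 3 → Fin 3 := sg (g 0 0) (g 0 1) (g 1 0) (g 1 1)

/-- The exponents attached to a matrix. -/
def eG (g : SL2) : Fin 3 → ZMod 8 := ex (g 0 0) (g 0 1) (g 1 0) (g 1 1)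

/-- The sign attached to a matrix. -/
def nG (g : SL2) : ZMod 8 := 4 * (g 0 1 : ZMod 8) * (g 1 0 : ZMod 8)

/-- The transformation law. -/
def Law (g : SL2) : Prop := ∀ τ, ∃ ν : ℂ, ν ^ 4 = ch (nG g) * dn g τ ^ 2 ∧
  ∀ i, th i (g • τ) = ν * ch (eG g i) * th (sG g i) τ

lemma dn_ne (g : SL2) (τ : ℍ) : dn g τ ≠ 0 := den_ne (det_SL_pos g) τ

lemma dn_mul' (g h : SL2) (τ : ℍ) : dn (g * h : SL2) τ = dn g (h • τ) * dn h τ := by
  rw [Matrix.SpecialLinearGroup.coe_mul, dn_mul (det_SL_pos h), mob_SL]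

lemma step {g h : SL2} {p : Fin 3 → Fin 3} {δ : Fin 3 → ZMod 8} {s : ZMod 8}
    (hh : ∀ τ, ∃ μ : ℂ, μ ^ 4 = ch s * dn h τ ^ 2 ∧
      ∀ j, th j (h • τ) = μ * ch (δ j) * th (p j) τ)
    (ht : ∃ k, nG (g * h) = nG g + s - 4 * k ∧
      ∀ i, sG (g * h) i = p (sG g i) ∧ eG (g * h) i = eG g i + δ (sG g i) + k) :
    Law g ↔ Law (g * h) := by
  obtain ⟨k, hn, ht⟩ := ht
  have hk : ch k * ch (-k) = 1 := by
    rw [← AddChar.map_add_eq_mul, add_neg_cancel, AddChar.map_zero_eq_one]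
  have hn' : ch (nG (g * h)) = ch (nG g) * ch s * ch (-k) ^ 4 := by
    rw [hn, ch_pow, ← AddChar.map_add_eq_mul, ← AddChar.map_add_eq_mul]
    congr 1
    ring
  constructor
  · intro H τ
    obtain ⟨ν, h0, h1⟩ := H (h • τ)
    obtain ⟨μ, h3, h2⟩ := hh τ
    refine ⟨ν * μ * ch (-k), ?_, fun i => ?_⟩
    · rw [mul_pow, mul_pow, h0, h3, hn', dn_mul']
      ring
    · rw [mul_smul, h1, h2, (ht i).1, (ht i).2, AddChar.map_add_eq_mul, AddChar.map_add_eq_mul]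
      linear_combination (-(ν * μ * ch (eG g i) * ch (δ (sG g i)) * th (p (sG g i)) τ)) * hk
  · intro H τ
    obtain ⟨τ, rfl⟩ : ∃ σ, τ = h • σ := ⟨h⁻¹ • τ, (smul_inv_smul h τ).symm⟩
    obtain ⟨ν, h0, h1⟩ := H τ
    obtain ⟨μ, h3, h2⟩ := hh τ
    have h4 := dn_ne h τ
    have h5 := ch_ne s
    have h6 : μ ≠ 0 := fun e => by
      rw [e] at h3
      exact mul_ne_zero h5 (pow_ne_zero 2 h4) (by rw [← h3]; norm_num)
    refine ⟨ν * ch k / μ, ?_, fun i => ?_⟩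
    · rw [div_pow, mul_pow, h0, h3, hn', dn_mul', div_eq_iff (mul_ne_zero h5 (pow_ne_zero 2 h4))]
      have h7 : ch k ^ 4 * ch (-k) ^ 4 = 1 := by rw [← mul_pow, hk, one_pow]
      linear_combination ch (nG g) * ch s * (dn g (h • τ) * dn h τ) ^ 2 * h7
    · rw [← mul_smul, h1, h2, (ht i).1, (ht i).2, AddChar.map_add_eq_mul, AddChar.map_add_eq_mul]
      field_simp

lemma det8 (g : SL2) : (g 0 0 : ZMod 8) * g 1 1 - g 0 1 * g 1 0 = 1 := by
  have := congrArg (Int.cast : ℤ → ZMod 8) ((Matrix.det_fin_two _).symm.trans g.2)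
  simpa using this

lemma law (hB : QB) (hT : THA) (g : SL2) : Law g := by
  have hS : ∀ g : SL2, Law g ↔ Law (g * ModularGroup.S) := fun g => by
    refine step (p := ![0, 2, 1]) (δ := 0) (s := 4) (fun τ => ⟨sqr τ, ?_, fun j => ?_⟩) ?_
    · have e : dn (ModularGroup.S : SL2) τ = τ := by simp [dn, ModularGroup.S]
      rw [e, ch_four, show sqr τ ^ 4 = (sqr τ ^ 2) ^ 2 by ring, hB.sqr_sq]
      linear_combination (τ : ℂ) ^ 2 * Complex.I_sq
    · obtain ⟨h1, h2, h3⟩ := hT.lawS τ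
      generalize ModularGroup.S • τ = σ at h1 h2 h3
      fin_cases j <;> simp [th, h1, h2, h3]
    · exact ⟨_, by
        simpa [nG, ModularGroup.S, Matrix.mul_apply] using (chkS _ _ _ _ (det8 g)).1, fun i => by
        simpa [sG, eG, ModularGroup.S, Matrix.mul_apply] using (chkS _ _ _ _ (det8 g)).2 i⟩
  have hT' : ∀ g : SL2, Law g ↔ Law (g * ModularGroup.T) := fun g => by
    refine step (p := ![1, 0, 2]) (δ := ![0, 0, 1]) (s := 0) (fun τ => ⟨1, ?_, fun j => ?_⟩) ?_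
    · simp [dn, ModularGroup.T]
    · obtain ⟨h1, h2, h3⟩ := hT.lawT τ
      generalize ModularGroup.T • τ = σ at h1 h2 h3
      fin_cases j <;> simp [th, h1, h2, h3, ch_one]
    · exact ⟨_, by
        simpa [nG, ModularGroup.T, Matrix.mul_apply] using (chkT _ _ _ _ (det8 g)).1, fun i => by
        simpa [sG, eG, ModularGroup.T, Matrix.mul_apply] using (chkT _ _ _ _ (det8 g)).2 i⟩
  have hg : g ∈ Subgroup.closure {ModularGroup.S, ModularGroup.T} :=
    SpecialLinearGroup.SL2Z_generators ▸ Subgroup.mem_top g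
  induction hg using Subgroup.closure_induction_right with
  | one => exact fun τ => ⟨1, by simp [nG, dn], fun i => by simp [sG, eG, chk1 i]⟩
  | mul_right x _ y hy ih =>
    rcases hy with rfl | rfl
    · exact (hS x).1 ih
    · exact (hT' x).1 ih
  | mul_inv_cancel x _ y hy ih =>
    rcases hy with rfl | rfl
    · exact (hS _).2 (by rwa [inv_mul_cancel_right])
    · exact (hT' _).2 (by rwa [inv_mul_cancel_right])

lemma th_ne (hT : THA) (i : Fin 3) (τ : ℍ) : th i τ ≠ 0 := by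
  obtain ⟨h1, h2, h3⟩ := hT.ne τ
  fin_cases i <;> assumption

lemma quot_law (hB : QB) (hT : THA) (g : SL2) (i : Fin 3) (τ : ℍ) :
    th i (g • τ) / th 0 (g • τ) =
      ch (eG g i) / ch (eG g 0) * (th (sG g i) τ / th (sG g 0) τ) := by
  obtain ⟨ν, -, h⟩ := law hB hT g τ
  have h5 : ν ≠ 0 := fun e => th_ne hT 0 (g • τ) (by rw [h, e, zero_mul, zero_mul])
  rw [h, h]
  field_simp

lemma mu_law (hB : QB) (hT : THA) (g : SL2) (τ : ℍ) :
    mu g τ = ch (nG g + 4 * eG g 0) * (th (sG g 0) τ / th 0 τ) ^ 4 := by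
  obtain ⟨ν, h0, h⟩ := law hB hT g τ
  have h1 : th00 (g • τ) = ν * ch (eG g 0) * th (sG g 0) τ := h 0
  have h2 := dn_ne g τ
  rw [mu, mob_SL, h1, mul_pow, mul_pow, h0, ch_pow, AddChar.map_add_eq_mul]
  change _ / (_ * th 0 τ ^ 4) = _
  field_simp

lemma hol_quot (hT : THA) (i j : Fin 3) : Hol fun τ => th i τ / th j τ := by
  have h1 : ∀ i, Hol (th i) := fun i => by
    obtain ⟨h1, h2, h3⟩ := hT.hol
    fin_cases i <;> assumption
  exact hol_iff.2 fun τ =>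
    (hol_iff.1 (h1 i) τ).div (hol_iff.1 (h1 j) τ) (by simpa using th_ne hT j τ)

lemma exp_quot (hA : QA) (hT : THA) (i j : Fin 3) : ExpG fun τ => th i τ / th j τ := by
  have h2 : ∀ i, HasQ 8 (th i) := fun i => by
    obtain ⟨h1, h2, h3⟩ := hT.hasQ
    fin_cases i <;> assumption
  obtain ⟨c, hc⟩ := h2 i
  obtain ⟨d, hd⟩ := h2 j
  exact hA.expG (by norm_num) (hA.quot (by norm_num) hc hd
    (fun e => th_ne hT _ UpperHalfPlane.I (congrFun e _)) (hol_quot hT _ _)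
    (funext fun τ => div_mul_cancel₀ _ (th_ne hT _ τ)))

lemma exp_four {w : ℍ → ℂ} (z : ℂ) (h : ExpG w) : ExpG fun τ => z * w τ ^ 4 := by
  have := ExpG.mul ⟨0, gr_const z⟩ ((h.mul h).mul (h.mul h))
  rwa [show (fun _ => z) * (w * w * (w * w)) = fun τ => z * w τ ^ 4 from
    funext fun τ => by simp only [Pi.mul_apply]; ring] at this

lemma chr (hB : QB) (hT : THA) (γ : SL2) (b c : ℤ) (hb : (γ : M2) 0 1 = 2 * b)
    (hc : (γ : M2) 1 0 = 2 * c) (τ : ℍ) :
    uu (γ • τ) = Complex.I ^ (b * (γ : M2) 1 1) * uu τ ∧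
      vv (γ • τ) = Complex.I ^ (-(c * (γ : M2) 0 0)) * vv τ ∧ mu γ τ = 1 := by
  have e8 : ∀ x : ℤ, (4 : ZMod 8) * ((2 * x : ℤ) : ZMod 8) = 0 := fun x => by
    push_cast
    rw [← mul_assoc, show (4 : ZMod 8) * 2 = 0 by decide, zero_mul]
  obtain ⟨h1, h2, h3, h4⟩ := chk2 _ _ _ _ (det8 γ) (by rw [← e8 b, ← hb]) (by rw [← e8 c, ← hc])
  have h0 := ch_ne (eG γ 0)
  refine ⟨?_, ?_, ?_⟩
  · have h := quot_law hB hT γ 2 τ
    rw [show sG γ 2 = 2 from h1 2, show sG γ 0 = 0 from h1 0, show eG γ 2 = eG γ 0 + _ from h2,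
      AddChar.map_add_eq_mul, mul_div_cancel_left₀ _ h0] at h
    rw [← ch_two, show ((2 * (b * (γ : M2) 1 1) : ℤ) : ZMod 8) = (γ 0 1 : ZMod 8) * γ 1 1 by
      rw [← mul_assoc, ← hb]; push_cast; rfl]
    exact h
  · have h := quot_law hB hT γ 1 τ
    rw [show sG γ 1 = 1 from h1 1, show sG γ 0 = 0 from h1 0, show eG γ 1 = eG γ 0 + _ from h3,
      AddChar.map_add_eq_mul, mul_div_cancel_left₀ _ h0] at h
    rw [← ch_two, show ((2 * -(c * (γ : M2) 0 0) : ℤ) : ZMod 8) = -((γ 1 0 : ZMod 8) * γ 0 0) by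
      rw [mul_neg, ← mul_assoc, ← hc]; push_cast; rfl]
    exact h
  · rw [mu_law hB hT, show nG γ + 4 * eG γ 0 = 0 from h4, show sG γ 0 = 0 from h1 0,
      div_self (th_ne hT 0 τ), AddChar.map_zero_eq_one, one_pow, one_mul]

lemma inv (hB : QB) (hT : THA) (γ : SL2) (h : γ ∈ G8) (τ : ℍ) :
    uu (γ • τ) = uu τ ∧ vv (γ • τ) = vv τ ∧ mu γ τ = 1 := by
  obtain ⟨⟨k, hk⟩, l, hl⟩ := mem_G8.1 h
  have e : ∀ x : ℤ, Complex.I ^ (4 * x) = 1 := fun x => by
    rw [_root_.zpow_mul, zpow_ofNat, Complex.I_pow_four, _root_.one_zpow]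
  have := chr hB hT γ (4 * k) (4 * l) (by rw [hk]; ring) (by rw [hl]; ring) τ
  rwa [mul_assoc, mul_assoc, ← mul_neg, e, e, one_mul, one_mul] at this

lemma uu_four (hB : QB) (hT : THA) (γ : SL2) (τ : ℍ) {i j : Fin 3} {s : ZMod 8} (hi : sG γ 2 = i)
    (hj : sG γ 0 = j) (hs : 4 * eG γ 2 = 4 * eG γ 0 + s) :
    uu (γ • τ) ^ 4 = ch s * (th i τ ^ 4 / th j τ ^ 4) := by
  have h : uu (γ • τ) = _ := quot_law hB hT γ 2 τ
  rw [h, hi, hj, mul_pow, div_pow, div_pow, ch_pow, ch_pow, hs, AddChar.map_add_eq_mul,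
    mul_div_cancel_left₀ _ (ch_ne _)]

lemma two_dvd {x : ℤ} (h : (4 : ZMod 8) * x = 0) : 2 ∣ x := by
  have : ((4 * x : ℤ) : ZMod 8) = 0 := by exact_mod_cast h
  have := (ZMod.intCast_zmod_eq_zero_iff_dvd _ 8).1 this
  omega

end Th2

open Th2 in
theorem th2 (hA : QA) (hB : QB) (hT : THA) : TH2 where
  rq := ⟨rq00, rq01, rq10⟩
  on := fun τ => by
    obtain ⟨h1, h2, h3⟩ := hT.ne τ
    refine ⟨?_, div_ne_zero h3 h1, div_ne_zero h2 h1⟩
    rw [uu, vv, div_pow, div_pow, ← add_div, div_eq_one_iff_eq (pow_ne_zero 4 h1), hT.jacobi,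
      add_comm]
  lawS := fun τ => by
    obtain ⟨h1, h2, h3⟩ := hT.lawS τ
    have h0 : sqr τ ≠ 0 := fun e => (hT.ne (ModularGroup.S • τ)).1 (by rw [h1, e, zero_mul])
    rw [uu, vv, uu, vv, h1, h2, h3, mul_div_mul_left _ _ h0, mul_div_mul_left _ _ h0]
    exact ⟨rfl, rfl⟩
  lawT := fun τ => by
    obtain ⟨h1, h2, h3⟩ := hT.lawT τ
    obtain ⟨h4, h5, h6⟩ := hT.ne τ
    rw [uu, vv, uu, vv, h1, h2, h3]
    constructor <;> field_simp
  chr := chr hB hT
  six := fun γ => by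
    have hj : ∀ τ, th01 τ ^ 4 = th00 τ ^ 4 - th10 τ ^ 4 := fun τ => by
      rw [hT.jacobi, add_sub_cancel_right]
    have hn : ∀ τ, th00 τ ^ 4 - th10 τ ^ 4 ≠ 0 := fun τ => hj τ ▸ pow_ne_zero 4 (hT.ne τ).2.1
    have hn' : ∀ τ, th10 τ ^ 4 - th00 τ ^ 4 ≠ 0 := fun τ e => hn τ (by linear_combination -e)
    rcases chk6 _ _ _ _ (det8 γ) with h | h | h | h | h | h
    · exact Or.inl ⟨two_dvd h.1, two_dvd h.2⟩
    · refine Or.inr (Or.inl fun τ => ?_)
      obtain ⟨h4, h5, h6⟩ := hT.ne τ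
      rw [uu_four hB hT γ τ h.1 h.2.1 (h.2.2.trans (add_zero _).symm), AddChar.map_zero_eq_one, uu]
      change 1 * (th01 τ ^ 4 / th00 τ ^ 4) = _
      rw [hj]
      field_simp
    · refine Or.inr (Or.inr (Or.inl fun τ => ?_))
      obtain ⟨h4, h5, h6⟩ := hT.ne τ
      rw [uu_four hB hT γ τ h.1 h.2.1 (h.2.2.trans (add_zero _).symm), AddChar.map_zero_eq_one, uu]
      change 1 * (th00 τ ^ 4 / th10 τ ^ 4) = _
      field_simp
    · refine Or.inr (Or.inr (Or.inr (Or.inl fun τ => ?_)))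
      obtain ⟨h4, h5, h6⟩ := hT.ne τ
      have := hn τ
      rw [uu_four hB hT γ τ h.1 h.2.1 (h.2.2.trans (add_zero _).symm), AddChar.map_zero_eq_one, uu]
      change 1 * (th00 τ ^ 4 / th01 τ ^ 4) = _
      rw [hj]
      field_simp
    · refine Or.inr (Or.inr (Or.inr (Or.inr (Or.inl fun τ => ?_))))
      obtain ⟨h4, h5, h6⟩ := hT.ne τ
      rw [uu_four hB hT γ τ h.1 h.2.1 h.2.2, ch_four, uu]
      change -1 * (th01 τ ^ 4 / th10 τ ^ 4) = _
      rw [hj]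
      field_simp
      ring
    · refine Or.inr (Or.inr (Or.inr (Or.inr (Or.inr fun τ => ?_))))
      obtain ⟨h4, h5, h6⟩ := hT.ne τ
      have := hn τ
      have := hn' τ
      rw [uu_four hB hT γ τ h.1 h.2.1 h.2.2, ch_four, uu]
      change -1 * (th10 τ ^ 4 / th01 τ ^ 4) = _
      rw [hj]
      field_simp
      ring
  inv := inv hB hT
  md := by
    refine ⟨⟨hol_quot hT 2 0, fun γ h τ => (inv hB hT γ (gam_le_G8 h) τ).1, fun γ => ?_⟩,
      hol_quot hT 1 0, fun γ h τ => (inv hB hT γ (gam_le_G8 h) τ).2.1, fun γ => ?_⟩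
    · rw [show (fun τ => uu (γ • τ)) = _ from funext (quot_law hB hT γ 2)]
      exact ExpG.mul ⟨0, gr_const _⟩ (exp_quot hA hT _ _)
    · rw [show (fun τ => vv (γ • τ)) = _ from funext (quot_law hB hT γ 1)]
      exact ExpG.mul ⟨0, gr_const _⟩ (exp_quot hA hT _ _)
  mu_exp := fun γ => by
    constructor
    · rw [show mu γ = _ from funext (mu_law hB hT γ)]
      exact exp_four _ (exp_quot hA hT _ _)
    · rw [show (fun τ => (mu γ τ)⁻¹) = fun τ => (ch (nG γ + 4 * eG γ 0))⁻¹ *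
          (th 0 τ / th (sG γ 0) τ) ^ 4 from funext fun τ => by
        rw [mu_law hB hT, mul_inv, ← inv_pow, inv_div]]
      exact exp_four _ (exp_quot hA hT _ _)
  jrel := fun τ => by
    obtain ⟨h4, h5, h6⟩ := hT.ne τ
    have h := hT.jrel τ
    have h0 : uu τ ≠ 0 := div_ne_zero h6 h4
    rw [show uX τ = 1 / uu τ ^ 2 by rw [uX, uu]; field_simp] at h
    generalize uu τ = u at h h0 ⊢
    field_simp at h
    linear_combination h

end Pool.Agent.MP_9207e0_ag.h2
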