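import Pool.Agent.MP_9207e0_ag.h2.Frm

/-! Module TORS: halving the Heegner points. -/

set_option linter.unusedSectionVars false
set_option linter.unusedVariables false

namespace Pool.Agent.MP_9207e0_ag.h2

open UpperHalfPlane Complex Filter Asymptotics Matrix WeierstrassCurve
open scoped Real MatrixGroups Manifold Classical
open Pool.Agent.MP_9207e0_ag.hg
open Pool.Agent.MP_a43263_nt.Two (IsE ZR Sg some_eq)

namespace Tors

lemma hE : IsE (legendre (-1 : Qbar)) 1 (-1) := isE_leg Qbar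

/-- The point `(0, 0)`. -/
noncomputable def T0 : EQ := .some 0 0 (hE.ns (by simp))

lemma two_T0 : 2 • T0 = 0 := hE.sg_two (hE.sg_T _)

lemma neg_T0 : -T0 = T0 := by
  rw [neg_eq_iff_add_eq_zero, ← two_nsmul, two_T0]

lemma T0_ne : T0 ≠ 0 := Affine.Point.some_ne_zero _

lemma odd_T0 {m : ℕ} (h : Odd m) : m • T0 = T0 := by
  obtain ⟨k, rfl⟩ := h
  rw [add_nsmul, mul_nsmul, two_T0, nsmul_zero, zero_add, one_nsmul]

lemma neg_some {x y : Qbar} (h : (legendre (-1 : Qbar)).Nonsingular x y) :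
    ∃ h', -(Affine.Point.some x y h : EQ) = .some x (-y) h' :=
  ⟨hE.ns (by linear_combination hE.eqn h), by
    rw [Affine.Point.neg_some]
    exact some_eq rfl (hE.negY _ _)⟩

/-! ### Doubling and points of order four -/

lemma zr_smul {P : EQ} {z0 z2 z3 t k : Qbar} (h : ZR 1 (-1) P z0 z2 z3 t) (hk : k ≠ 0) :
    ZR 1 (-1) P (k * z0) (k * z2) (k * z3) (k * t) := by
  rcases P with _ | ⟨x, y, hP⟩
  · obtain ⟨h0, rfl, rfl, rfl⟩ := h
    exact ⟨mul_ne_zero hk h0, rfl, rfl, mul_zero _⟩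
  · obtain ⟨l, hl, rfl, rfl, rfl, rfl⟩ := h
    exact ⟨k * l, mul_ne_zero hk hl, by ring, by ring, by ring, by ring⟩

lemma dbl {P : EQ} {z0 z2 z3 t : Qbar} (h : ZR 1 (-1) P z0 z2 z3 t) (ht : t ≠ 0) :
    ∃ h', 2 • P = .some (z0 ^ 2 / t ^ 2) (z0 * z2 * z3 / t ^ 3) h' := by
  rcases P with _ | ⟨x, y, hP⟩
  · exact absurd h.2.2.2 ht
  obtain ⟨k, hk, rfl, rfl, rfl, rfl⟩ := h
  have hy : y ≠ 0 := by
    rintro rfl
    simp at ht
  have hn : y ≠ (legendre (-1 : Qbar)).negY x y := by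
    rw [hE.negY]
    exact fun h0 => mul_ne_zero two_ne_zero hy (by linear_combination h0)
  have e := hE.eqn hP
  have hs : (legendre (-1 : Qbar)).slope x x y y = (3 * x ^ 2 - 1) / (2 * y) := by
    rw [Affine.slope_of_Y_ne rfl hn, hE.negY, hE.h1, hE.h2, hE.h4]
    congr 1 <;> ring
  have hX : (legendre (-1 : Qbar)).addX x x ((legendre (-1 : Qbar)).slope x x y y) =
      (k * (x ^ 2 - 1 * -1)) ^ 2 / (k * (2 * y)) ^ 2 := by
    rw [hs, Affine.addX, hE.h1, hE.h2]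
    field_simp
    linear_combination (-8 * x) * e
  have hY : (legendre (-1 : Qbar)).addY x x y ((legendre (-1 : Qbar)).slope x x y y) =
      k * (x ^ 2 - 1 * -1) * (k * (x ^ 2 - 2 * 1 * x + 1 * -1)) *
        (k * (x ^ 2 - 2 * -1 * x + 1 * -1)) / (k * (2 * y)) ^ 3 := by
    rw [Affine.addY, hE.negY, Affine.negAddY, hX, hs]
    field_simp
    linear_combination (-8 * y ^ 2 + 4 * x * (x ^ 2 + 1)) * e
  rw [two_nsmul, Affine.Point.add_self_of_Y_ne hn]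
  exact ⟨hX ▸ hY ▸ Affine.nonsingular_add hP hP fun hxy => hn hxy.right, some_eq hX hY⟩

lemma fix_two (σ : GQ) {H : EQ} (h : 2 • H = 0) : ga σ H = H := by
  obtain ⟨u2, u3, hs⟩ := hE.sg_ex h
  have := zr_ga σ hs.2.2
  rw [map_mul, map_zero, show σ u2 = u2 from MP_a43263_nt.Two.map_sign (σ : Qbar →+* Qbar) hs.1,
    show σ u3 = u3 from MP_a43263_nt.Two.map_sign (σ : Qbar →+* Qbar) hs.2.1] at this
  exact hE.unique this hs.2.2

lemma fix_sq {σ : GQ} {u z : Qbar} (h : σ u = u) (e : z ^ 2 = u ^ 2) : σ z = z := by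
  rcases sq_eq_sq_iff_eq_or_eq_neg.1 e with rfl | rfl
  · exact h
  · rw [map_neg, h]

lemma norm (H : EQ) : 2 • H = 0 ∨ ∃ z0 z2 z3, ZR 1 (-1) H z0 z2 z3 1 ∧ z0 ^ 2 - z2 ^ 2 = 1 ∧
    z0 ^ 2 - z3 ^ 2 = -1 ∧ ∃ h', 2 • H = .some (z0 ^ 2) (z0 * z2 * z3) h' := by
  rcases H with _ | ⟨x, y, hP⟩
  · exact .inl rfl
  rcases eq_or_ne y 0 with rfl | hy
  · exact .inl (by rw [two_nsmul]; exact (hE.add_self hP hP rfl).2)
  have hy' : 1 * (2 * y) ≠ 0 := by simpa using hy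
  have h := zr_smul (P := .some x y hP) ⟨1, one_ne_zero, rfl, rfl, rfl, rfl⟩ (inv_ne_zero hy')
  rw [inv_mul_cancel₀ hy'] at h
  have := dbl h one_ne_zero
  simp only [one_pow, div_one] at this
  exact .inr ⟨_, _, _, h, by simpa using (hE.on h).1, by simpa using (hE.on h).2, this⟩

lemma fix_zr {σ : GQ} {H : EQ} {z0 z2 z3 : Qbar} (h : ZR 1 (-1) H z0 z2 z3 1) (h0 : σ z0 = z0)
    (h2 : σ z2 = z2) (h3 : σ z3 = z3) : ga σ H = H := by
  have := zr_ga σ h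
  rw [h0, h2, h3, map_one] at this
  exact hE.unique this h

lemma fix_half {σ : GQ} {i : Qbar} (hi : i ^ 2 = -1) (h : σ i = i) {H : EQ} (e : 2 • H = T0) :
    ga σ H = H := by
  rcases norm H with h0 | ⟨z0, z2, z3, hz, e2, e3, h', e'⟩
  · exact fix_two σ h0
  rw [e', T0, Affine.Point.some.injEq] at e
  obtain rfl : z0 = 0 := pow_eq_zero_iff two_ne_zero |>.1 e.1
  exact fix_zr hz (map_zero _) (fix_sq h (by linear_combination -e2 - hi))
    (fix_sq (map_one σ) (by linear_combination -e3))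

lemma fix_four {σ : GQ} {ζ : Qbar} (hi : (ζ ^ 2) ^ 2 = -1) (h : σ ζ = ζ) {H : EQ}
    (e : 2 • 2 • H = 0) : ga σ H = H := by
  rcases norm H with h0 | ⟨z0, z2, z3, hz, e2, e3, h', e'⟩
  · exact fix_two σ h0
  have hy : z0 * z2 * z3 = 0 := by
    by_contra hy
    rw [e', two_nsmul, Affine.Point.add_self_of_Y_ne (by
      rw [hE.negY]
      exact fun h0 => mul_ne_zero two_ne_zero hy (by linear_combination h0))] at e
    exact Affine.Point.some_ne_zero _ e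
  have a1 : σ (ζ ^ 2) = ζ ^ 2 := by rw [map_pow, h]
  have a2 : σ (ζ - ζ ^ 3) = ζ - ζ ^ 3 := by rw [map_sub, map_pow, h]
  have a3 : σ (ζ + ζ ^ 3) = ζ + ζ ^ 3 := by rw [map_add, map_pow, h]
  rcases mul_eq_zero.1 hy with hy | rfl
  · rcases mul_eq_zero.1 hy with rfl | rfl
    · exact fix_zr hz (map_zero _) (fix_sq a1 (by linear_combination -e2 - hi))
        (fix_sq (map_one σ) (by linear_combination -e3))
    · exact fix_zr hz (fix_sq (map_one σ) (by linear_combination e2)) (map_zero _)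
        (fix_sq a2 (by linear_combination e2 - e3 + (2 - ζ ^ 2) * hi))
  · exact fix_zr hz (fix_sq a1 (by linear_combination e3 - hi))
      (fix_sq a3 (by linear_combination e3 - e2 - (2 + ζ ^ 2) * hi)) (map_zero _)

lemma two_of_neg {σ : GQ} {ζ : Qbar} (hi : (ζ ^ 2) ^ 2 = -1) (h : σ ζ = ζ) (e : ℕ) :
    ∀ H : EQ, ga σ H = -H → 2 ^ e • H = 0 → 2 • H = 0 := by
  induction e with
  | zero => intro H _ h0; rw [pow_zero, one_nsmul] at h0; rw [h0, nsmul_zero]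
  | succ e ih =>
    intro H h1 h0
    have := fix_four hi h (ih (2 • H) (by rw [map_nsmul, h1, neg_nsmul])
      (by rw [← mul_nsmul', ← pow_succ, h0]))
    rw [two_nsmul, ← neg_eq_iff_add_eq_zero, ← h1, this]

lemma split {P : EQ} {k : ℤ} (hk : k ≠ 0) (h : k • P = 0) :
    ∃ e m : ℕ, Odd m ∧ 2 ^ e • m • P = 0 := by
  obtain ⟨e, m, hm, e'⟩ := Nat.exists_eq_two_pow_mul_odd (Int.natAbs_ne_zero.2 hk)
  exact ⟨e, m, hm, by rw [← mul_nsmul', ← e', natAbs_nsmul_eq_zero, h]⟩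

/-! ### Automorphisms with prescribed signs -/

lemma sign {u : Qbar} {d : ℚ} (h : u ^ 2 = d) (σ : GQ) : σ u = u ∨ σ u = -u :=
  sq_eq_sq_iff_eq_or_eq_neg.1 (by rw [← map_pow, h, map_ratCast])

lemma flip {u : Qbar} {d : ℚ} (h : u ^ 2 = d) (hd : ¬IsSquare d) : ∃ σ : GQ, True ∧ σ u = -u := by
  have h0 : d ≠ 0 := by
    rintro rfl
    exact hd IsSquare.zero
  obtain ⟨σ, hσ⟩ := not_forall.1 (mt (MP_a43263_nt.Two.isSquare_iff h0 h).2 hd)
  exact ⟨σ, trivial, (sign h σ).resolve_left fun e =>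
    hσ (by rw [e, div_self (MP_a43263_nt.Two.root_ne h0 h)])⟩

lemma ne_neg {u : Qbar} (h : u ≠ 0) : u ≠ -u := fun e =>
  mul_ne_zero two_ne_zero h (by linear_combination e)

lemma step (P : GQ → Prop) (hP : ∀ a b, P a → P b → P (a * b)) {u v : Qbar} (h0 : u * v ≠ 0)
    (hu : ∀ σ : GQ, σ u = u ∨ σ u = -u) (hv : ∀ σ : GQ, σ v = v ∨ σ v = -v)
    (h1 : ∃ a, P a ∧ a u = -u) (h2 : ∃ b, P b ∧ b (u * v) = -(u * v)) :
    ∃ g, P g ∧ g v = v ∧ g u = -u := by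
  obtain ⟨a, ha, a1⟩ := h1
  obtain ⟨b, hb, b1⟩ := h2
  rcases hv a with a2 | a2
  · exact ⟨a, ha, a2, a1⟩
  rw [map_mul] at b1
  rcases hu b with b2 | b2 <;> rcases hv b with b3 | b3
  · exact absurd (by rwa [b2, b3] at b1) (ne_neg h0)
  · exact ⟨a * b, hP a b ha hb, by rw [AlgEquiv.mul_apply, b3, map_neg, a2, neg_neg],
      by rw [AlgEquiv.mul_apply, b2, a1]⟩
  · exact ⟨b, hb, b3, b2⟩
  · exact absurd (by rwa [b2, b3, neg_mul_neg] at b1) (ne_neg h0)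

lemma exists_g {p : ℕ} {ζ r : Qbar} (hi : (ζ ^ 2) ^ 2 = -1) (hp : p.Prime) (h8 : p % 8 = 7)
    (hr : r ^ 2 = -p) : (∃ g : GQ, g ζ = ζ ∧ g r = -r) ∧ ∃ g : GQ, g ζ = -ζ ∧ g r = r := by
  have hp0 : (0 : ℚ) < p := by exact_mod_cast hp.pos
  have neg : ∀ {d : ℚ}, d < 0 → ¬IsSquare d := fun h c => absurd c.nonneg (not_le.2 h)
  have n1 : ¬IsSquare (p : ℚ) := by
    rw [Rat.isSquare_natCast_iff]
    exact hp.prime.not_isSquare
  have n2 : ¬IsSquare ((2 * p : ℕ) : ℚ) := by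
    rw [Rat.isSquare_natCast_iff]
    rintro ⟨m, hm⟩
    obtain ⟨k, rfl⟩ : 2 ∣ m := (Nat.prime_two.dvd_mul.1 ⟨p, hm.symm⟩).elim id id
    have : p = 2 * (k * k) := by nlinarith
    omega
  have n3 : ¬IsSquare ((2 : ℕ) : ℚ) := by
    rw [Rat.isSquare_natCast_iff]
    exact Nat.prime_two.prime.not_isSquare
  obtain ⟨ρ, hρ⟩ : ∃ ρ, ρ = ζ - ζ ^ 3 := ⟨_, rfl⟩
  have s1 : (ζ ^ 2) ^ 2 = ((-1 : ℚ) : Qbar) := by rw [hi]; simp
  have s2 : ρ ^ 2 = ((2 : ℕ) : ℚ) := by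
    rw [hρ]; push_cast; linear_combination (ζ ^ 2 - 2) * hi
  have s3 : r ^ 2 = ((-p : ℚ) : Qbar) := by rw [hr]; simp
  have s4 : (r * ρ) ^ 2 = ((-(2 * p) : ℚ) : Qbar) := by rw [mul_pow, s2, hr]; push_cast; ring
  have z1 := MP_a43263_nt.Two.root_ne (by norm_num) s1
  have z2 := MP_a43263_nt.Two.root_ne (by norm_num) s2
  have z3 := MP_a43263_nt.Two.root_ne (neg_ne_zero.2 hp0.ne') s3
  have m : ρ * ζ = 1 + ζ ^ 2 := by rw [hρ]; linear_combination -hi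
  obtain ⟨g1, -, g1⟩ := step (fun _ => True) (fun _ _ _ _ => trivial) (mul_ne_zero z3 z1) (sign s3)
    (sign s1) (flip s3 (neg (by linarith)))
    (flip (d := p) (by rw [mul_pow, hi, hr]; simp) n1)
  obtain ⟨g2, -, g2⟩ := step (fun _ => True) (fun _ _ _ _ => trivial)
    (mul_ne_zero (mul_ne_zero z3 z2) z1) (sign s4) (sign s1) (flip s4 (neg (by linarith)))
    (flip (by rw [mul_pow, hi, s4]; simp) n2)
  obtain ⟨g, a1, a2, a3⟩ := step (fun σ => σ (ζ ^ 2) = ζ ^ 2)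
    (fun a b ha hb => by rw [AlgEquiv.mul_apply, hb, ha]) (mul_ne_zero z3 z2) (sign s3) (sign s2)
    ⟨_, g1⟩ ⟨_, g2⟩
  obtain ⟨g0, -, b1, b2⟩ := step (fun _ => True) (fun _ _ _ _ => trivial) (mul_ne_zero z2 z1)
    (sign s2) (sign s1) (flip s2 n3)
    (flip (d := -2) (by rw [mul_pow, hi, s2]; simp) (neg (by norm_num)))
  have c1 : g ζ = ζ := mul_left_cancel₀ z2 (by
    have := congrArg g m
    rwa [map_mul, a2, map_add, map_one, a1, ← m] at this)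
  have c2 : g0 ζ = -ζ := mul_left_cancel₀ z2 (by
    have := congrArg g0 m
    rw [map_mul, b2, map_add, map_one, b1, ← m] at this
    linear_combination -this)
  refine ⟨⟨g, c1, a3⟩, ?_⟩
  rcases sign s3 g0 with e | e
  · exact ⟨g0, c2, e⟩
  · exact ⟨g0 * g, by rw [AlgEquiv.mul_apply, c1, c2],
      by rw [AlgEquiv.mul_apply, a3, map_neg, e, neg_neg]⟩

/-! ### Points of the Fermat quartic -/

/-- The affine quartic without the axes. -/
def On (x : Qbar × Qbar) : Prop := x.1 ^ 4 + x.2 ^ 4 = 1 ∧ x.1 ≠ 0 ∧ x.2 ≠ 0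

/-- The Galois action on pairs. -/
noncomputable def act (σ : GQ) (x : Qbar × Qbar) : Qbar × Qbar := (σ x.1, σ x.2)

variable {x : Qbar × Qbar} {z : Qbar}

lemma On.swap (h : On x) : On x.swap := ⟨by rw [add_comm]; exact h.1, h.2.2, h.2.1⟩

lemma On.act (h : On x) (σ : GQ) : On (act σ x) :=
  ⟨by simpa [Tors.act] using congrArg σ h.1, by simpa [Tors.act] using h.2.1,
    by simpa [Tors.act] using h.2.2⟩

lemma z_ne (hz : (z ^ 2) ^ 2 = -1) : z ≠ 0 := by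
  rintro rfl
  simp at hz

lemma On.tt (h : On x) (hz : (z ^ 2) ^ 2 = -1) : On (tt z x) := by
  have := h.2.2
  refine ⟨?_, div_ne_zero (mul_ne_zero (z_ne hz) h.2.1) this, one_div_ne_zero this⟩
  simp only [h2.tt]
  field_simp
  linear_combination x.1 ^ 4 * hz - h.1

lemma PP_some (h : On x) : ∃ h', PP x = .some (1 / x.1 ^ 2) (x.2 ^ 2 / x.1 ^ 3) h' :=
  ptq_some (by have := h.2.1; field_simp; linear_combination h.1)

lemma ga_PP (σ : GQ) (h : On x) : ga σ (PP x) = PP (act σ x) := by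
  obtain ⟨h1, e1⟩ := PP_some h
  obtain ⟨h2, e2⟩ := ga_some σ h1
  obtain ⟨h3, e3⟩ := PP_some (h.act σ)
  rw [e1, e2, e3]
  exact some_eq (by simp [act]) (by simp [act])

lemma PP_tt2 (hz : (z ^ 2) ^ 2 = -1) (h : On x) : PP ((tt z)^[2] x) = cmJ _ hz (PP x) := by
  obtain ⟨h1, e1⟩ := PP_some h
  obtain ⟨h2, e2⟩ := cmJ_some hz h1
  obtain ⟨h3, e3⟩ := PP_some ((h.tt hz).tt hz)
  have := h.2.1
  have := h.2.2
  have := z_ne hz
  rw [e1, e2]
  refine e3.trans (some_eq ?_ ?_) <;> simp only [tt] <;> field_simp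
  · linear_combination hz
  · linear_combination (1 - z ^ 4) * hz

lemma sum_inj {X : Finset (Qbar × Qbar)} {f : Qbar × Qbar → Qbar × Qbar}
    (hf : Function.Injective f) (h : ∀ x ∈ X, f x ∈ X) (Ψ : Qbar × Qbar → EQ) :
    ∑ x ∈ X, Ψ (f x) = ∑ x ∈ X, Ψ x := by
  have : X.image f = X := Finset.eq_of_subset_of_card_le
    (Finset.image_subset_iff.2 h) (Finset.card_image_of_injective X hf).ge
  conv_rhs => rw [← this, Finset.sum_image hf.injOn]

lemma act_inj (σ : GQ) : Function.Injective (act σ) := fun _ _ e =>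
  Prod.ext (σ.injective (congrArg Prod.fst e)) (σ.injective (congrArg Prod.snd e))

variable {p : ℕ} {X : Finset (Qbar × Qbar)} {r : Qbar} {σ : GQ}

lemma sum_pos (hX : XD p X) (hr : r ^ 2 = -p) (h : σ r = r) (Ψ : Qbar × Qbar → EQ) :
    ∑ x ∈ X, Ψ (act σ x) = ∑ x ∈ X, Ψ x :=
  sum_inj (act_inj σ) (fun x hx => (hX.gal σ r hr x hx).1 h) Ψ

lemma sum_neg (hX : XD p X) (hr : r ^ 2 = -p) (h : σ r = -r) (Ψ : Qbar × Qbar → EQ) :
    ∑ x ∈ X, Ψ (act σ x).swap = ∑ x ∈ X, Ψ x :=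
  sum_inj (f := fun x => (act σ x).swap) (Prod.swap_injective.comp (act_inj σ))
    (fun x hx => (hX.gal σ r hr x hx).2 h) Ψ

lemma eig0 (hX : XD p X) (hr : r ^ 2 = -p) : Eig r (ww z X 0) := by
  intro σ
  have e : ga σ (ww z X 0) = ∑ x ∈ X, (PP (act σ x) - PP (act σ x).swap) := by
    rw [ww, map_sum]
    refine Finset.sum_congr rfl fun x hx => ?_
    have h : On x := hX.on x hx
    rw [map_sub, Function.iterate_zero_apply, Function.iterate_zero_apply, ga_PP σ h,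
      ga_PP σ h.swap]
    rfl
  refine ⟨fun h => e.trans (sum_pos hX hr h fun x => PP x - PP x.swap), fun h => ?_⟩
  rw [e, ww, ← Finset.sum_neg_distrib]
  simpa using sum_neg hX hr h fun x => PP x.swap - PP x

/-! ### Halving the first point -/

/-- `D` is the half of `PP x - PP x.swap` attached to the square root `ρ` of two. -/
def IsD (ρ : Qbar) (x : Qbar × Qbar) (D : EQ) : Prop :=
  ∃ (s s' : Qbar) (R R' : EQ), s ^ 2 = 1 + x.1 ^ 2 ∧ s' ^ 2 = 1 + x.2 ^ 2 ∧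
    s * s' * ρ = 1 + x.1 ^ 2 + x.2 ^ 2 ∧ ZR 1 (-1) R 1 (x.2 ^ 2 / s) s x.1 ∧
    ZR 1 (-1) R' 1 (x.1 ^ 2 / s') s' x.2 ∧ D = R - R'

variable {ρ ρ' s : Qbar} {D D' : EQ}

lemma s_ne (h : On x) (hs : s ^ 2 = 1 + x.1 ^ 2) : s ≠ 0 := by
  rintro rfl
  exact pow_ne_zero 4 h.2.2 (by linear_combination h.1 - (1 - x.1 ^ 2) * hs)

lemma exists_R (h : On x) (hs : s ^ 2 = 1 + x.1 ^ 2) :
    ∃ R : EQ, ZR 1 (-1) R 1 (x.2 ^ 2 / s) s x.1 :=
  hE.surj (by have := s_ne h hs; field_simp; linear_combination (1 - x.1 ^ 2) * hs - h.1)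
    (by linear_combination -hs) (by simp)

lemma two_R (h : On x) (hs : s ^ 2 = 1 + x.1 ^ 2) {R : EQ}
    (hR : ZR 1 (-1) R 1 (x.2 ^ 2 / s) s x.1) : 2 • R = PP x := by
  obtain ⟨h1, e1⟩ := dbl hR h.2.1
  obtain ⟨h2, e2⟩ := PP_some h
  rw [e1, e2]
  exact some_eq (by simp) (by rw [one_mul, div_mul_cancel₀ _ (s_ne h hs)])

lemma exists_D (h : On x) (hρ : ρ ^ 2 = 2) : ∃ D, IsD ρ x D := by
  obtain ⟨s, hs⟩ := IsAlgClosed.exists_pow_nat_eq (1 + x.1 ^ 2) two_pos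
  have h0 := s_ne h hs
  have h1 : ρ ≠ 0 := by
    rintro rfl
    simp at hρ
  have hs' : ((1 + x.1 ^ 2 + x.2 ^ 2) / (s * ρ)) ^ 2 = 1 + x.2 ^ 2 := by
    rw [div_pow, div_eq_iff (pow_ne_zero 2 (mul_ne_zero h0 h1)), mul_pow, hs, hρ]
    linear_combination h.1
  obtain ⟨R, hR⟩ := exists_R h hs
  obtain ⟨R', hR'⟩ := exists_R h.swap hs'
  exact ⟨_, s, _, R, R', hs, hs', by field_simp, hR, hR', rfl⟩

lemma IsD.two (h : On x) (hD : IsD ρ x D) : 2 • D = PP x - PP x.swap := by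
  obtain ⟨s, s', R, R', h1, h2, -, h4, h5, rfl⟩ := hD
  rw [nsmul_sub, two_R h h1 h4, two_R h.swap h2 h5]

lemma IsD.swap (hD : IsD ρ x D) : IsD ρ x.swap (-D) := by
  obtain ⟨s, s', R, R', h1, h2, h3, h4, h5, rfl⟩ := hD
  exact ⟨s', s, R', R, h2, h1, by simp only [Prod.fst_swap, Prod.snd_swap]; linear_combination h3,
    h5, h4, neg_sub _ _⟩

lemma IsD.gal (hD : IsD ρ x D) (σ : GQ) : IsD (σ ρ) (act σ x) (ga σ D) := by
  obtain ⟨s, s', R, R', h1, h2, h3, h4, h5, rfl⟩ := hD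
  exact ⟨σ s, σ s', _, _, by simpa [act] using congrArg σ h1,
    by simpa [act] using congrArg σ h2, by simpa [act] using congrArg σ h3,
    by simpa [act] using zr_ga σ h4, by simpa [act] using zr_ga σ h5, map_sub _ _ _⟩

lemma R_eq {c a s' : Qbar} {R R' : EQ} (e : s' ^ 2 = s ^ 2) (h : ZR 1 (-1) R 1 (c / s) s a)
    (h' : ZR 1 (-1) R' 1 (c / s') s' a) : (s' = s ∧ R' = R) ∨ (s' = -s ∧ R' = R + T0) := by
  rcases sq_eq_sq_iff_eq_or_eq_neg.1 e with rfl | rfl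
  · exact .inl ⟨rfl, hE.unique h' h⟩
  · exact .inr ⟨rfl, hE.unique h' (by rw [div_neg]; exact hE.shift_T _ h)⟩

lemma IsD.eq (h : On x) (hD : IsD ρ x D) (hD' : IsD ρ' x D') :
    (ρ' = ρ ∧ D' = D) ∨ (ρ' = -ρ ∧ D' = D + T0) := by
  obtain ⟨s, s', R, R', h1, h2, h3, h4, h5, rfl⟩ := hD
  obtain ⟨u, u', Q, Q', k1, k2, k3, k4, k5, rfl⟩ := hD'
  have h0 := mul_ne_zero (s_ne h h1) (s_ne h.swap h2)
  rcases R_eq (k1.trans h1.symm) h4 k4 with ⟨rfl, rfl⟩ | ⟨rfl, rfl⟩ <;>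
    rcases R_eq (k2.trans h2.symm) h5 k5 with ⟨rfl, rfl⟩ | ⟨rfl, rfl⟩
  · exact .inl ⟨mul_left_cancel₀ h0 (k3.trans h3.symm), rfl⟩
  · exact .inr ⟨mul_left_cancel₀ h0 (by linear_combination h3 - k3),
      by rw [← sub_sub, sub_eq_add_neg _ T0, neg_T0]⟩
  · exact .inr ⟨mul_left_cancel₀ h0 (by linear_combination h3 - k3), by abel⟩
  · exact .inl ⟨mul_left_cancel₀ h0 (by linear_combination k3 - h3), by abel⟩

lemma nt0 (hz : (z ^ 2) ^ 2 = -1) (hp : p.Prime) (h8 : p % 8 = 7) (hX : XD p X)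
    (hr : r ^ 2 = -p) : NT (ww z X 0) := by
  obtain ⟨⟨g, g1, g2⟩, g0, g3, g4⟩ := exists_g hz hp h8 hr
  have hρ : (z - z ^ 3) ^ 2 = 2 := by linear_combination (z ^ 2 - 2) * hz
  have h0 : z - z ^ 3 ≠ 0 := fun e => by simp [e] at hρ
  have a1 : g (z - z ^ 3) = z - z ^ 3 := by rw [map_sub, map_pow, g1]
  have a2 : g0 (z - z ^ 3) = -(z - z ^ 3) := by rw [map_sub, map_pow, g3]; ring
  have : ∀ x, ∃ D, On x → IsD (z - z ^ 3) x D := fun x => by
    by_cases h : On x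
    · exact (exists_D h hρ).imp fun _ hD _ => hD
    · exact ⟨0, fun h' => absurd h' h⟩
  choose D hD using this
  have e0 : 2 • ∑ x ∈ X, D x = ww z X 0 := by
    rw [Finset.smul_sum, ww]
    exact Finset.sum_congr rfl fun x hx => (hD x (hX.on x hx)).two (hX.on x hx)
  have e1 : ga g (∑ x ∈ X, D x) = -∑ x ∈ X, D x := by
    rw [map_sum, ← sum_neg hX hr g2 D, ← Finset.sum_neg_distrib]
    refine Finset.sum_congr rfl fun x hx => ?_
    have h : On x := hX.on x hx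
    have := ((hD x h).gal g).swap
    rw [a1] at this
    rcases this.eq (h.act g).swap (hD _ (h.act g).swap) with e | e
    · rw [e.2, neg_neg]
    · exact absurd e.1 (ne_neg h0)
  have e2 : ga g0 (∑ x ∈ X, D x) = ∑ x ∈ X, D x + T0 := by
    rw [map_sum, ← sum_pos hX hr g4 D, ← odd_T0 hX.odd, ← Finset.sum_const,
      ← Finset.sum_add_distrib]
    refine Finset.sum_congr rfl fun x hx => ?_
    have h : On x := hX.on x hx
    have := (hD x h).gal g0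
    rw [a2] at this
    rcases (hD _ (h.act g0)).eq (h.act g0) this with e | e
    · exact absurd e.1.symm (ne_neg h0)
    · exact e.2
  intro k hk h
  obtain ⟨e, m, hm, h'⟩ := split (P := ∑ x ∈ X, D x) (mul_ne_zero hk two_ne_zero)
    (by rw [mul_zsmul, ← h, ← e0, ← natCast_zsmul]; rfl)
  have := fix_two g0 (two_of_neg hz g1 e _ (by rw [map_nsmul, e1, neg_nsmul]) h')
  rw [map_nsmul, e2, nsmul_add, odd_T0 hm, add_eq_left] at this
  exact T0_ne this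

/-! ### The second point -/

lemma psi_some (hz : (z ^ 2) ^ 2 = -1) (h : On x) : ∃ h', PP (tt z x) =
    .some (x.2 ^ 2 / (z ^ 2 * x.1 ^ 2)) (x.2 / (z ^ 3 * x.1 ^ 3)) h' := by
  obtain ⟨h1, e1⟩ := PP_some (h.tt hz)
  have := h.2.1
  have := h.2.2
  have := z_ne hz
  have a1 : 1 / (tt z x).1 ^ 2 = x.2 ^ 2 / (z ^ 2 * x.1 ^ 2) := by simp only [tt]; field_simp
  have a2 : (tt z x).2 ^ 2 / (tt z x).1 ^ 3 = x.2 / (z ^ 3 * x.1 ^ 3) := by
    simp only [tt]; field_simp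
  exact ⟨a1 ▸ a2 ▸ h1, e1.trans (some_eq a1 a2)⟩

lemma psi_swap (hz : (z ^ 2) ^ 2 = -1) (h : On x) : PP (tt z x.swap) = -(PP (tt z x) + T0) := by
  obtain ⟨h1, e1⟩ := psi_some hz h
  obtain ⟨h2, e2⟩ := psi_some hz h.swap
  have := h.2.1
  have := h.2.2
  have := z_ne hz
  obtain ⟨x', y', h3, e3, rfl, rfl⟩ := hE.add_tors h1 (hE.ns (x := 0) (y := 0) (by simp))
    (by simp [*])
  obtain ⟨h4, e4⟩ := neg_some h3
  rw [e1, e2, T0, e3, e4]
  refine some_eq ?_ ?_ <;> simp only [Prod.fst_swap, Prod.snd_swap, sub_zero] <;> field_simp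
  · linear_combination x.1 ^ 2 * hz
  · linear_combination hz

lemma psi_neg (hz : (z ^ 2) ^ 2 = -1) (h : On x) : PP (tt (-z) x) = -PP (tt z x) := by
  obtain ⟨h1, e1⟩ := psi_some hz h
  obtain ⟨h2, e2⟩ := psi_some (z := -z) (by linear_combination hz) h
  obtain ⟨h3, e3⟩ := neg_some h1
  rw [e1, e2, e3]
  exact some_eq (by ring) (by ring)

lemma psi_cube (hz : (z ^ 2) ^ 2 = -1) (h : On x) : PP (tt (z ^ 3) x) = cmJ _ hz (PP (tt z x)) := by
  obtain ⟨h1, e1⟩ := psi_some hz h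
  obtain ⟨h2, e2⟩ := psi_some (z := z ^ 3) (by linear_combination (z ^ 8 - z ^ 4 + 1) * hz) h
  obtain ⟨h3, e3⟩ := cmJ_some hz h1
  have := h.2.1
  have := h.2.2
  have := z_ne hz
  rw [e1, e2, e3]
  refine some_eq ?_ ?_ <;> field_simp
  · linear_combination hz
  · linear_combination (1 - z ^ 4) * hz

lemma ga_psi (hz : (z ^ 2) ^ 2 = -1) (σ : GQ) (h : On x) :
    ga σ (PP (tt z x)) = PP (tt (σ z) (act σ x)) := by
  rw [ga_PP σ (h.tt hz)]
  simp [act, tt]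

/-- The trace of the translated points. -/
noncomputable def yy (X : Finset (Qbar × Qbar)) (z : Qbar) : EQ := ∑ x ∈ X, PP (tt z x)

lemma yy_neg (hz : (z ^ 2) ^ 2 = -1) (hX : XD p X) : yy X (-z) = -yy X z := by
  rw [yy, yy, ← Finset.sum_neg_distrib]
  exact Finset.sum_congr rfl fun x hx => psi_neg hz (hX.on x hx)

lemma yy_cube (hz : (z ^ 2) ^ 2 = -1) (hX : XD p X) : yy X (z ^ 3) = cmJ _ hz (yy X z) := by
  rw [yy, yy, map_sum]
  exact Finset.sum_congr rfl fun x hx => psi_cube hz (hX.on x hx)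

lemma ga_pos (hz : (z ^ 2) ^ 2 = -1) (hX : XD p X) (hr : r ^ 2 = -p) (h : σ r = r) :
    ga σ (yy X z) = yy X (σ z) := by
  rw [yy, yy, map_sum, ← sum_pos hX hr h fun x => PP (tt (σ z) x)]
  exact Finset.sum_congr rfl fun x hx => ga_psi hz σ (hX.on x hx)

lemma ga_neg (hz : (z ^ 2) ^ 2 = -1) (hX : XD p X) (hr : r ^ 2 = -p) (h : σ r = -r) :
    ga σ (yy X z) = -(yy X (σ z) + T0) := by
  rw [yy, yy, map_sum, ← sum_neg hX hr h fun x => PP (tt (σ z) x), ← odd_T0 hX.odd,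
    ← Finset.sum_const, ← Finset.sum_add_distrib, ← Finset.sum_neg_distrib]
  refine Finset.sum_congr rfl fun x hx => ?_
  have h : On x := hX.on x hx
  rw [ga_psi hz σ h]
  have hσ : (σ z ^ 2) ^ 2 = -1 := by simpa using congrArg σ hz
  rw [← psi_swap hσ (h.act σ).swap, Prod.swap_swap]

lemma four_T0 (P : EQ) : 4 • (P + T0) = 4 • P := by
  rw [nsmul_add, show 4 = 2 * 2 from rfl, mul_nsmul T0, two_T0, nsmul_zero, add_zero]

lemma two_ww (hz : (z ^ 2) ^ 2 = -1) (hX : XD p X) : 2 • ww z X 1 = 4 • yy X z := by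
  rw [ww, yy, Finset.smul_sum, Finset.smul_sum]
  refine Finset.sum_congr rfl fun x hx => ?_
  rw [Function.iterate_one, psi_swap hz (hX.on x hx), sub_neg_eq_add, ← add_assoc, nsmul_add, two_T0]
  abel

lemma eig1 (hz : (z ^ 2) ^ 2 = -1) (hX : XD p X) (hp : p ≠ 0) (hr : r ^ 2 = -p)
    (hs : s ^ 2 = 2 * p) : Eig s (4 • yy X z + cmJ _ hz (4 • yy X z)) := by
  have key : ∀ (σ : GQ) (b : EQ), b = 4 • yy X z + cmJ _ hz (4 • yy X z) →
      (σ ((z + z ^ 3) * r) = (z + z ^ 3) * r ∧ ga σ b = b) ∨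
        (σ ((z + z ^ 3) * r) = -((z + z ^ 3) * r) ∧ ga σ b = -b) := by
    rintro σ _ rfl
    have h3 : ((z ^ 3) ^ 2) ^ 2 = -1 := by linear_combination (z ^ 8 - z ^ 4 + 1) * hz
    have hσ : (σ z ^ 2) ^ 2 = -1 := by simpa using congrArg σ hz
    have hZ : (σ r = r ∧ ga σ (4 • yy X z) = 4 • yy X (σ z)) ∨
        (σ r = -r ∧ ga σ (4 • yy X z) = -(4 • yy X (σ z))) :=
      (sign (d := -p) (by rw [hr]; simp) σ).imp (fun h => ⟨h, by rw [map_nsmul, ga_pos hz hX hr h]⟩)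
        fun h => ⟨h, by rw [map_nsmul, ga_neg hz hX hr h, neg_nsmul, four_T0]⟩
    have hJ := ga_cmJ hz σ (4 • yy X z)
    rw [map_pow] at hJ
    rw [map_mul, map_add, map_pow, map_add]
    rcases sq_eq_sq_iff_eq_or_eq_neg.1 (hσ.trans hz.symm) with e | e
    · rw [hJ.1 e]
      rcases sq_eq_sq_iff_eq_or_eq_neg.1 e with e | e <;> rcases hZ with ⟨a, b⟩ | ⟨a, b⟩ <;>
        rw [a, b, e]
      · exact .inl ⟨rfl, rfl⟩
      · exact .inr ⟨by ring, by rw [map_neg]; abel⟩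
      · exact .inr ⟨by ring, by rw [yy_neg hz hX, neg_nsmul, map_neg]; abel⟩
      · exact .inl ⟨by ring, by rw [yy_neg hz hX, neg_nsmul, neg_neg]⟩
    · rw [hJ.2 e]
      have e' : σ z ^ 2 = (z ^ 3) ^ 2 := by linear_combination e - z ^ 2 * hz
      have e9 : (z ^ 3) ^ 3 = z := by linear_combination (z ^ 5 - z) * hz
      have j : cmJ _ hz (4 • yy X (z ^ 3)) = -(4 • yy X z) := by
        rw [yy_cube hz hX, ← map_nsmul, cmJ_cmJ]
      have j' : 4 • yy X (z ^ 3) = cmJ _ hz (4 • yy X z) := by rw [yy_cube hz hX, map_nsmul]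
      rcases sq_eq_sq_iff_eq_or_eq_neg.1 e' with e | e <;> rcases hZ with ⟨a, b⟩ | ⟨a, b⟩ <;>
        rw [a, b, e]
      · exact .inl ⟨by linear_combination r * e9, by rw [j, j']; abel⟩
      · exact .inr ⟨by linear_combination -r * e9, by rw [map_neg, j, j']; abel⟩
      · exact .inr ⟨by linear_combination -r * e9,
          by rw [yy_neg h3 hX, neg_nsmul, map_neg, j, j']; abel⟩
      · exact .inl ⟨by linear_combination r * e9,
          by rw [yy_neg h3 hX, neg_nsmul, neg_neg, j, j']; abel⟩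
  have h0 : s ≠ 0 := by
    rintro rfl
    exact hp (by simpa using hs)
  have e : s ^ 2 = ((z + z ^ 3) * r) ^ 2 := by
    rw [mul_pow, hr, hs]
    linear_combination (p : Qbar) * (z ^ 2 + 2) * hz
  intro σ
  rcases key σ _ rfl with ⟨a, b⟩ | ⟨a, b⟩
  · exact ⟨fun _ => b, fun c => absurd ((fix_sq a e).symm.trans c) (ne_neg h0)⟩
  · refine ⟨fun c => absurd ((fix_sq c e.symm).symm.trans a) (ne_neg fun e0 => h0 ?_), fun _ => b⟩
    rwa [e0, zero_pow two_ne_zero, pow_eq_zero_iff two_ne_zero] at e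

lemma nt1 (hz : (z ^ 2) ^ 2 = -1) (hp : p.Prime) (h8 : p % 8 = 7) (hX : XD p X)
    (hr : r ^ 2 = -p) : NT (4 • yy X z + cmJ _ hz (4 • yy X z)) := by
  obtain ⟨⟨g, g1, g2⟩, g0, g3, g4⟩ := exists_g hz hp h8 hr
  intro k hk h
  have h1 := congrArg (cmJ _ hz) h
  rw [map_zsmul, map_add, cmJ_cmJ, map_zero] at h1
  have h2 : (k * 8) • yy X z = 0 := by
    rw [← sub_zero (0 : EQ)]
    nth_rewrite 1 [← h]
    rw [← h1]
    module
  obtain ⟨e, m, hm, h'⟩ := split (mul_ne_zero hk (by norm_num)) h2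
  have e1 : ga g (m • yy X z) = -(m • yy X z + T0) := by
    rw [map_nsmul, ga_neg hz hX hr g2, g1, neg_nsmul, nsmul_add, odd_T0 hm]
  have e2 : ga g0 (m • yy X z) = -(m • yy X z) := by
    rw [map_nsmul, ga_pos hz hX hr g4, g3, yy_neg hz hX, neg_nsmul]
  generalize m • yy X z = H at h' e1 e2
  have e3 := fix_four hz g1 (two_of_neg hz g1 e (2 • H)
    (by rw [map_nsmul, e1, neg_nsmul, nsmul_add, two_T0, add_zero])
    (by rw [smul_comm, h', nsmul_zero]))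
  have e4 : 2 • H = T0 := by
    rw [← neg_T0, two_nsmul]
    nth_rewrite 1 [← e3]
    rw [e1]
    abel
  have e5 := fix_half hz (by rw [map_pow, g3, neg_sq]) e4
  rw [two_nsmul] at e4
  nth_rewrite 1 [← e5] at e4
  rw [e2, neg_add_cancel] at e4
  exact T0_ne e4.symm

end Tors

theorem tors : TorsStmt := by
  intro p X ζ r s hi hp h8 hX hr hs
  have e : ∀ k, ww ζ X (2 + k) = cmJ _ hi (ww ζ X k) := fun k => by
    have on : ∀ x, Tors.On x → Tors.On ((tt ζ)^[k] x) := fun x h =>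
      Function.Iterate.rec Tors.On h (fun _ h => h.tt hi) k
    rw [ww, ww, map_sum]
    refine Finset.sum_congr rfl fun x hx => ?_
    have h : Tors.On x := hX.on x hx
    rw [map_sub, Function.iterate_add_apply, Function.iterate_add_apply, Tors.PP_tt2 hi (on _ h),
      Tors.PP_tt2 hi (on _ h.swap)]
  have e' : 2 • ww ζ X 1 + 2 • ww ζ X 3 = 4 • Tors.yy X ζ + cmJ _ hi (4 • Tors.yy X ζ) := by
    rw [e 1, ← map_nsmul, Tors.two_ww hi hX]
  rw [e']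
  exact ⟨e 0, e 1, Tors.eig0 hX hr, Tors.nt0 hi hp h8 hX hr, Tors.eig1 hi hX hp.ne_zero hr hs,
    Tors.nt1 hi hp h8 hX hr⟩

end Pool.Agent.MP_9207e0_ag.h2
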