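import Mathlib
import Pool.Agent.MP_9207e0_ag.h2.Frm
import Pool.Agent.MP_9207e0_ag.hg.Main
import Pool.Agent.MP_9207e0_ag.hg.E2A
import Pool.Agent.MP_9207e0_ag.hg.App
import Pool.Agent.MP_9207e0_ag.hg.Inp
import Pool.Agent.MP_9207e0_ag.hg.Form
import Pool.Agent.MP_9207e0_ag.hg.ThB
import Pool.Agent.MP_9207e0_ag.hg.Thm
import Pool.Agent.MP_9207e0_ag.hg.Rec
import Pool.Agent.MP_9207e0_ag.hg.Heeg
import Pool.Agent.MP_9207e0_ag.hg.Proda
import Pool.Agent.MP_9207e0_ag.hg.Ordf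
import Pool.Agent.MP_9207e0_ag.h2.Tors
import Pool.Agent.MP_9207e0_ag.h2.Dec
import Pool.Agent.MP_9207e0_ag.h2.Th2

-- ======== part 0: formerly Pool.Agent.MP_9207e0_ag.h2.Rank
section MrgPart0

/-! HEEG stage 2, module RANK: the 2-descent on `y ^ 2 = x ^ 3 - n ^ 2 x` for `n = 1, 2, p, 2 p`. -/

set_option linter.unusedSectionVars false
set_option linter.unusedVariables false

namespace Pool.Agent.MP_9207e0_ag.h2

open WeierstrassCurve
open scoped Classical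
open Pool.Agent.MP_a43263_nt (Pt parallelogram northcott)
open Pool.Agent.MP_a43263_nt.Two (index_two)
open Pool.Agent.MP_a43263_nt.R2 (Ecv Sol2)
open Pool.Agent.MP_a43263_nt.R2.Desc (isE Gd exists_gd card_two)

namespace Rank

/-- a rational number is a squarefree integer times a square -/
lemma sqf {d : ℚ} (hd : d ≠ 0) : ∃ (s : ℤ) (c : ℚ), Squarefree s ∧ c ≠ 0 ∧ d = s * c ^ 2 := by
  obtain ⟨a, b, hab, ha⟩ := Nat.sq_mul_squarefree (d.num * d.den).natAbs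
  have hden : (d.den : ℚ) ≠ 0 := by exact_mod_cast d.den_ne_zero
  have hn : d.num * d.den ≠ 0 :=
    mul_ne_zero (Rat.num_ne_zero.2 hd) (by exact_mod_cast d.den_ne_zero)
  have hb : (b : ℚ) ≠ 0 := by
    rintro h
    have : b = 0 := by exact_mod_cast h
    subst this
    exact hn (Int.natAbs_eq_zero.1 (by simpa using hab.symm))
  have e : (d.num : ℚ) = d * d.den := by
    rw [← div_eq_iff hden]; exact Rat.num_div_den d
  rcases Int.natAbs_eq (d.num * d.den) with h | h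
  · refine ⟨a, b / d.den, Int.squarefree_natCast.2 ha, div_ne_zero hb hden, ?_⟩
    rw [← hab] at h
    have h' : (d.num : ℚ) * d.den = b ^ 2 * a := by exact_mod_cast h
    rw [e] at h'
    field_simp
    push_cast
    linear_combination h'
  · refine ⟨-a, b / d.den, ?_, div_ne_zero hb hden, ?_⟩
    · rw [← Int.squarefree_natAbs]; simpa using ha
    rw [← hab] at h
    have h' : (d.num : ℚ) * d.den = -(b ^ 2 * a) := by exact_mod_cast h
    rw [e] at h'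
    field_simp
    push_cast
    linear_combination h'

lemma not_dvd_of_even {q : ℕ} (hq : q.Prime) {s : ℤ} {c : ℚ} (hs : Squarefree s) (hc : c ≠ 0)
    (h : Even (padicValRat q (s * c ^ 2))) : ¬(q : ℤ) ∣ s := by
  have := Fact.mk hq
  rintro ⟨u, rfl⟩
  have hu : ¬(q : ℤ) ∣ u := by
    rintro ⟨v, rfl⟩
    have := hs q ⟨v, by ring⟩
    exact hq.ne_one (by simpa using Int.isUnit_iff_natAbs_eq.1 this)
  have hu0 : u ≠ 0 := by rintro rfl; exact hu (dvd_zero _)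
  have hq0 : (q : ℚ) ≠ 0 := by exact_mod_cast hq.ne_zero
  have hu1 : (u : ℚ) ≠ 0 := by exact_mod_cast hu0
  push_cast at h
  rw [padicValRat.mul (mul_ne_zero hq0 hu1) (pow_ne_zero 2 hc), padicValRat.mul hq0 hu1,
    padicValRat.pow c, padicValRat.self hq.one_lt, padicValRat.of_int,
    padicValInt.eq_zero_of_not_dvd hu] at h
  obtain ⟨k, hk⟩ := h
  push_cast at hk
  omega

lemma sol_scale {a b s₂ s₃ c₂ c₃ : ℚ} (h₂ : c₂ ≠ 0) (h₃ : c₃ ≠ 0)
    (h : Sol2 a b (s₂ * c₂ ^ 2) (s₃ * c₃ ^ 2)) : Sol2 a b s₂ s₃ := by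
  obtain ⟨z₀, z₂, z₃, t, hne, e₂, e₃⟩ := h
  refine ⟨c₂ * c₃ * z₀, c₂ * z₂, c₃ * z₃, t, ?_, by linear_combination e₂,
    by linear_combination e₃⟩
  rintro ⟨a0, a2, a3, a4⟩
  exact hne ⟨by simpa [h₂, h₃] using a0, by simpa [h₂] using a2, by simpa [h₃] using a3, a4⟩

/-- infinite descent -/
lemma nosol {n s₂ s₃ : ℤ} (q : ℤ) (hq : 1 < q)
    (h : ∀ z₀ z₂ z₃ t : ℤ, s₂ * s₃ * z₀ ^ 2 - s₂ * z₂ ^ 2 = n * t ^ 2 →
      s₂ * s₃ * z₀ ^ 2 - s₃ * z₃ ^ 2 = -n * t ^ 2 → q ∣ z₀ ∧ q ∣ z₂ ∧ q ∣ z₃ ∧ q ∣ t) :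
    ¬Sol2 (n : ℚ) (-n) s₂ s₃ := by
  have key : ∀ (N : ℕ) (z₀ z₂ z₃ t : ℤ), z₀.natAbs + z₂.natAbs + z₃.natAbs + t.natAbs = N →
      s₂ * s₃ * z₀ ^ 2 - s₂ * z₂ ^ 2 = n * t ^ 2 → s₂ * s₃ * z₀ ^ 2 - s₃ * z₃ ^ 2 = -n * t ^ 2 →
      N = 0 := by
    intro N
    induction N using Nat.strong_induction_on with
    | _ N ih =>
      intro z₀ z₂ z₃ t hN e₂ e₃
      obtain ⟨⟨w₀, rfl⟩, ⟨w₂, rfl⟩, ⟨w₃, rfl⟩, ⟨u, rfl⟩⟩ := h _ _ _ _ e₂ e₃
      have hq0 : q ^ 2 ≠ 0 := by positivity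
      simp only [Int.natAbs_mul, ← mul_add] at hN
      have hq2 : 2 ≤ q.natAbs := by omega
      by_contra hN0
      have hM : w₀.natAbs + w₂.natAbs + w₃.natAbs + u.natAbs ≠ 0 := by
        intro h0; rw [h0] at hN; exact hN0 (by simpa using hN.symm)
      refine hM (ih _ ?_ w₀ w₂ w₃ u rfl (mul_left_cancel₀ hq0 (by linear_combination e₂))
        (mul_left_cancel₀ hq0 (by linear_combination e₃)))
      rw [← hN]
      nlinarith [Nat.pos_of_ne_zero hM]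
  rintro ⟨z₀, z₂, z₃, t, hne, e₂, e₃⟩
  have hD : ∀ x : ℚ, (x.den : ℚ) * x = x.num := fun x => Rat.den_mul_eq_num x
  have hd : ∀ x : ℚ, (x.den : ℤ) ≠ 0 := fun x => by exact_mod_cast x.den_ne_zero
  have := key _ (z₀.num * z₂.den * z₃.den * t.den) (z₂.num * z₀.den * z₃.den * t.den)
    (z₃.num * z₀.den * z₂.den * t.den) (t.num * z₀.den * z₂.den * z₃.den) rfl
    (by
      apply Int.cast_injective (α := ℚ)
      push_cast
      rw [← hD z₀, ← hD z₂, ← hD t]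
      linear_combination ((z₀.den : ℚ) * z₂.den * z₃.den * t.den) ^ 2 * e₂)
    (by
      apply Int.cast_injective (α := ℚ)
      push_cast
      rw [← hD z₀, ← hD z₃, ← hD t]
      linear_combination ((z₀.den : ℚ) * z₂.den * z₃.den * t.den) ^ 2 * e₃)
  simp only [Nat.add_eq_zero_iff, Int.natAbs_eq_zero, mul_eq_zero, hd, or_false,
    Rat.num_eq_zero] at this
  exact hne ⟨this.1.1.1, this.1.1.2, this.1.2, this.2⟩

lemma dvd_of_sq {q u z : ℤ} (hq : Prime q) (hu : ¬q ∣ u) (h : q ∣ u * z ^ 2) : q ∣ z :=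
  hq.dvd_of_dvd_pow ((hq.dvd_or_dvd h).resolve_left hu)

lemma not_dvd_cof {q u : ℤ} (hq : Prime q) (hs : Squarefree (q * u)) : ¬q ∣ u := by
  rintro ⟨v, rfl⟩
  exact hq.not_isUnit (hs q ⟨v, by ring⟩)

/-- the primes of good reduction do not divide -/
lemma supp_aux {n s₂ s₃ q : ℤ} (hq : Prime q) (h2 : ¬q ∣ 2) (hn : ¬q ∣ n) (hs₂ : Squarefree s₂)
    (hs₃ : Squarefree s₃) (hd : q ∣ s₂) (z₀ z₂ z₃ t : ℤ)
    (e₂ : s₂ * s₃ * z₀ ^ 2 - s₂ * z₂ ^ 2 = n * t ^ 2)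
    (e₃ : s₂ * s₃ * z₀ ^ 2 - s₃ * z₃ ^ 2 = -n * t ^ 2) :
    q ∣ z₀ ∧ q ∣ z₂ ∧ q ∣ z₃ ∧ q ∣ t := by
  obtain ⟨u, rfl⟩ := hd
  have hu := not_dvd_cof hq hs₂
  have h0 := hq.ne_zero
  obtain ⟨t, rfl⟩ : q ∣ t :=
    dvd_of_sq hq hn ⟨u * s₃ * z₀ ^ 2 - u * z₂ ^ 2, by linear_combination -e₂⟩
  by_cases h3 : q ∣ s₃
  · obtain ⟨v, rfl⟩ := h3
    have hv := not_dvd_cof hq hs₃
    obtain ⟨z₂, rfl⟩ : q ∣ z₂ := dvd_of_sq hq hu ⟨u * v * z₀ ^ 2 - n * t ^ 2,
      mul_left_cancel₀ h0 (by linear_combination -e₂)⟩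
    obtain ⟨z₃, rfl⟩ : q ∣ z₃ := dvd_of_sq hq hv ⟨u * v * z₀ ^ 2 + n * t ^ 2,
      mul_left_cancel₀ h0 (by linear_combination -e₃)⟩
    refine ⟨dvd_of_sq (u := 2 * u * v) hq ?_ ⟨u * z₂ ^ 2 + v * z₃ ^ 2,
      mul_left_cancel₀ (pow_ne_zero 2 h0) (by linear_combination e₂ + e₃)⟩,
      dvd_mul_right _ _, dvd_mul_right _ _, dvd_mul_right _ _⟩
    simp [hq.dvd_mul, h2, hu, hv]
  · obtain ⟨z₃, rfl⟩ : q ∣ z₃ := dvd_of_sq hq h3 ⟨u * s₃ * z₀ ^ 2 + n * q * t ^ 2,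
      by linear_combination -e₃⟩
    obtain ⟨z₀, rfl⟩ : q ∣ z₀ := dvd_of_sq (u := u * s₃) hq (by simp [hq.dvd_mul, hu, h3])
      ⟨s₃ * z₃ ^ 2 - n * t ^ 2, mul_left_cancel₀ h0 (by linear_combination e₃)⟩
    exact ⟨dvd_mul_right _ _, dvd_of_sq hq hu ⟨q * u * s₃ * z₀ ^ 2 - n * t ^ 2,
      mul_left_cancel₀ h0 (by linear_combination -e₂)⟩, dvd_mul_right _ _, dvd_mul_right _ _⟩

lemma supp {n s₂ s₃ : ℤ} {q : ℕ} (hq : q.Prime) (h2 : q ≠ 2) (hn : ¬(q : ℤ) ∣ n)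
    (hs₂ : Squarefree s₂) (hs₃ : Squarefree s₃) (h : Sol2 (n : ℚ) (-n) s₂ s₃) :
    ¬(q : ℤ) ∣ s₂ ∧ ¬(q : ℤ) ∣ s₃ := by
  have hq' : Prime (q : ℤ) := Nat.prime_iff_prime_int.1 hq
  have h2' : ¬(q : ℤ) ∣ 2 := fun e =>
    h2 ((Nat.prime_dvd_prime_iff_eq hq Nat.prime_two).1 (by exact_mod_cast e))
  have h1 : (1 : ℤ) < q := by exact_mod_cast hq.one_lt
  refine ⟨fun hd => nosol q h1 (supp_aux hq' h2' hn hs₂ hs₃ hd) h,
    fun hd => nosol q h1 (fun z₀ z₂ z₃ t e₂ e₃ => ?_) h⟩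
  obtain ⟨a, b, c, d⟩ := supp_aux (n := -n) hq' h2' (by simpa using hn) hs₃ hs₂ hd z₀ z₃ z₂ t
    (by linear_combination e₃) (by linear_combination e₂)
  exact ⟨a, c, b, d⟩

lemma pos₃ {n d₂ d₃ : ℚ} (hn : 0 < n) (h₂ : d₂ ≠ 0) (h₃ : d₃ ≠ 0) (h : Sol2 n (-n) d₂ d₃) :
    0 < d₃ := by
  obtain ⟨z₀, z₂, z₃, t, hne, e₂, e₃⟩ := h
  by_contra h0
  have hneg : d₃ < 0 := lt_of_le_of_ne (not_lt.1 h0) h₃
  have ht : 0 ≤ n * t ^ 2 := by positivity
  have h1 : z₃ ^ 2 ≤ d₂ * z₀ ^ 2 := by nlinarith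
  by_cases hz : z₀ = 0
  · subst hz
    have h3 : z₃ = 0 := by nlinarith [sq_nonneg z₃]
    subst h3
    have h4 : t = 0 := by
      have : n * t ^ 2 = 0 := by linear_combination e₃
      simpa [hn.ne'] using this
    subst h4
    have h5 : d₂ * z₂ ^ 2 = 0 := by linear_combination -e₂
    exact hne ⟨rfl, by simpa [h₂] using h5, rfl, rfl⟩
  · have hz' : 0 < z₀ ^ 2 := by positivity
    have h2 : 0 ≤ d₂ := by
      by_contra hlt
      nlinarith [sq_nonneg z₃, mul_neg_of_neg_of_pos (not_le.1 hlt) hz']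
    have h2' : 0 < d₂ := lt_of_le_of_ne h2 h₂.symm
    have h6 : d₃ * z₀ ^ 2 - z₂ ^ 2 < 0 := by nlinarith [sq_nonneg z₂, mul_neg_of_neg_of_pos hneg hz']
    nlinarith [mul_neg_of_pos_of_neg h2' h6]

lemma unit_of {s : ℤ} (h : ∀ q : ℕ, q.Prime → ¬(q : ℤ) ∣ s) : s = 1 ∨ s = -1 := by
  by_contra hs
  have : s.natAbs ≠ 1 := by omega
  obtain ⟨q, hq, hd⟩ := Nat.exists_prime_and_dvd this
  exact h q hq (Int.natCast_dvd.2 hd)

lemma two_of {s : ℤ} (hs : Squarefree s) (h : ∀ q : ℕ, q.Prime → q ≠ 2 → ¬(q : ℤ) ∣ s) :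
    s = 1 ∨ s = -1 ∨ s = 2 ∨ s = -2 := by
  by_cases h2 : (2 : ℤ) ∣ s
  · obtain ⟨u, rfl⟩ := h2
    have hu := not_dvd_cof Int.prime_two hs
    have := unit_of (s := u) fun q hq hd => by
      by_cases e : q = 2
      · subst e; exact hu hd
      · exact h q hq e (hd.mul_left _)
    omega
  · have := unit_of (s := s) fun q hq hd => by
      by_cases e : q = 2
      · subst e; exact h2 hd
      · exact h q hq e hd
    omega

/-- squares modulo eight -/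
lemma sq8 (m z : ℤ) : (2 ∣ z ∧ 4 ∣ m * z ^ 2) ∨ (¬2 ∣ z ∧ 8 ∣ m * z ^ 2 - m) := by
  obtain ⟨k, rfl | rfl⟩ := Int.even_or_odd' z
  · exact .inl ⟨dvd_mul_right _ _, m * k ^ 2, by ring⟩
  · refine .inr ⟨by omega, ?_⟩
    obtain ⟨j, hj⟩ := Int.even_mul_succ_self k
    exact ⟨m * j, by linear_combination 4 * m * hj⟩

lemma ex_two_odd {n : ℤ} (hn : n % 2 = 1) : ¬Sol2 (n : ℚ) (-n) ((2 : ℤ) : ℚ) ((1 : ℤ) : ℚ) := by
  refine nosol 2 one_lt_two fun z₀ z₂ z₃ t e₂ e₃ => ?_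
  have a₀ := sq8 1 z₀
  have a₂ := sq8 1 z₂
  have a₃ := sq8 1 z₃
  have a₄ := sq8 n t
  rw [neg_mul] at e₃
  simp only [one_mul, mul_one] at *
  generalize z₀ ^ 2 = A at *
  generalize z₂ ^ 2 = B at *
  generalize z₃ ^ 2 = C at *
  generalize n * t ^ 2 = D at *
  omega

lemma ex_two_even {p : ℤ} (hp : p % 8 = 7) :
    ¬Sol2 ((2 * p : ℤ) : ℚ) (-(2 * p : ℤ)) ((2 : ℤ) : ℚ) ((1 : ℤ) : ℚ) := by
  refine nosol 2 one_lt_two fun z₀ z₂ z₃ t e₂ e₃ => ?_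
  have a₀ := sq8 1 z₀
  have a₂ := sq8 1 z₂
  have a₃ := sq8 1 z₃
  have a₄ := sq8 p t
  rw [neg_mul, mul_assoc 2 p] at e₃
  rw [mul_assoc 2 p] at e₂
  simp only [one_mul, mul_one] at *
  generalize z₀ ^ 2 = A at *
  generalize z₂ ^ 2 = B at *
  generalize z₃ ^ 2 = C at *
  generalize p * t ^ 2 = D at *
  omega

lemma ex_neg_two : ¬Sol2 ((2 : ℤ) : ℚ) (-(2 : ℤ)) ((-1 : ℤ) : ℚ) ((1 : ℤ) : ℚ) := by
  refine nosol 2 one_lt_two fun z₀ z₂ z₃ t e₂ e₃ => ?_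
  have a₀ := sq8 1 z₀
  have a₂ := sq8 1 z₂
  have a₃ := sq8 1 z₃
  have a₄ := sq8 1 t
  simp only [one_mul, mul_one] at *
  generalize z₀ ^ 2 = A at *
  generalize z₂ ^ 2 = B at *
  generalize z₃ ^ 2 = C at *
  generalize t ^ 2 = D at *
  omega

/-- a non residue -/
lemma ex_mod {p : ℕ} (hp : p.Prime) {m s : ℤ} (hm : ¬(p : ℤ) ∣ m) (hs : ¬IsSquare (s : ZMod p)) :
    ¬Sol2 ((m * p : ℤ) : ℚ) (-(m * p : ℤ)) s ((1 : ℤ) : ℚ) := by
  have := Fact.mk hp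
  have hq : Prime (p : ℤ) := Nat.prime_iff_prime_int.1 hp
  have hs' : ¬(p : ℤ) ∣ s := fun h => hs (by
    rw [(ZMod.intCast_zmod_eq_zero_iff_dvd s p).2 h]; exact IsSquare.zero)
  refine nosol p (by exact_mod_cast hp.one_lt) fun z₀ z₂ z₃ t e₂ e₃ => ?_
  obtain ⟨z₀, rfl⟩ : (p : ℤ) ∣ z₀ := by
    by_contra h0
    have h1 : (z₀ : ZMod p) ≠ 0 := fun e => h0 ((ZMod.intCast_zmod_eq_zero_iff_dvd _ p).1 e)
    have h2 := congrArg (Int.cast : ℤ → ZMod p) e₃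
    push_cast at h2
    rw [ZMod.natCast_self] at h2
    exact hs ⟨z₃ / z₀, by field_simp; linear_combination h2⟩
  obtain ⟨z₃, rfl⟩ : (p : ℤ) ∣ z₃ := hq.dvd_of_dvd_pow (n := 2)
    ⟨s * p * z₀ ^ 2 + m * t ^ 2, by linear_combination -e₃⟩
  obtain ⟨t, rfl⟩ : (p : ℤ) ∣ t := dvd_of_sq hq hm ⟨z₃ ^ 2 - s * z₀ ^ 2,
    mul_left_cancel₀ hq.ne_zero (by linear_combination e₃)⟩
  exact ⟨dvd_mul_right _ _, dvd_of_sq hq hs' ⟨s * p * z₀ ^ 2 - m * p ^ 2 * t ^ 2,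
    by linear_combination -e₂⟩, dvd_mul_right _ _, dvd_mul_right _ _⟩

/-- normal form of a class with trivial invariants -/
lemma norm {n : ℤ} (hn : 0 < n) {d₂ d₃ : ℚ} (h₂ : d₂ ≠ 0) (h₃ : d₃ ≠ 0)
    (h : Sol2 (n : ℚ) (-n) d₂ d₃)
    (v₃ : ∀ q : ℕ, q.Prime → q = 2 ∨ (q : ℤ) ∣ n → Even (padicValRat q d₃))
    (v₂ : ∀ q : ℕ, q.Prime → q ≠ 2 → (q : ℤ) ∣ n → Even (padicValRat q d₂)) :
    IsSquare d₃ ∧ ∃ (s : ℤ) (c : ℚ), Squarefree s ∧ c ≠ 0 ∧ d₂ = s * c ^ 2 ∧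
      (s = 1 ∨ s = -1 ∨ s = 2 ∨ s = -2) ∧ Sol2 (n : ℚ) (-n) s ((1 : ℤ) : ℚ) := by
  have hp := pos₃ (by exact_mod_cast hn) h₂ h₃ h
  obtain ⟨s₂, c₂, q₂, n₂, rfl⟩ := sqf h₂
  obtain ⟨s₃, c₃, q₃, n₃, rfl⟩ := sqf h₃
  have h' := sol_scale n₂ n₃ h
  have hs : 0 < s₃ := by
    have : (0 : ℚ) < s₃ := (mul_pos_iff_of_pos_right (by positivity)).1 hp
    exact_mod_cast this
  have u₃ := unit_of (s := s₃) fun q hq => by
    by_cases e : q = 2 ∨ (q : ℤ) ∣ n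
    · exact not_dvd_of_even hq q₃ n₃ (v₃ q hq e)
    · rw [not_or] at e
      exact (supp hq e.1 e.2 q₂ q₃ h').2
  obtain rfl : s₃ = 1 := by omega
  refine ⟨⟨c₃, by push_cast; ring⟩, s₂, c₂, q₂, n₂, rfl, two_of q₂ fun q hq e => ?_, h'⟩
  by_cases e' : (q : ℤ) ∣ n
  · exact not_dvd_of_even hq q₂ n₂ (v₂ q hq e e')
  · exact (supp hq e e' q₂ q₃ h').1

lemma key_one {d₂ d₃ : ℚ} (h₂ : 0 < d₂) (h₃ : d₃ ≠ 0) (h : Sol2 (1 : ℚ) (-1) d₂ d₃)
    (v : Even (padicValRat 2 d₃)) : IsSquare d₂ ∧ IsSquare d₃ := by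
  have hq : ∀ q : ℕ, q.Prime → ¬(q : ℤ) ∣ 1 := fun q hq e =>
    hq.ne_one (Nat.dvd_one.1 (by exact_mod_cast e))
  obtain ⟨a, s, c, -, hc, rfl, hs, h'⟩ := norm (n := 1) one_pos h₂.ne' h₃ (by simpa using h)
    (fun q hq' e => by
      rcases e with rfl | e
      exacts [v, absurd e (hq q hq')])
    (fun q hq' _ e => absurd e (hq q hq'))
  have hs0 : 0 < s := by
    have : (0 : ℚ) < s := (mul_pos_iff_of_pos_right (by positivity)).1 h₂
    exact_mod_cast this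
  rcases hs with rfl | rfl | rfl | rfl
  · exact ⟨⟨c, by push_cast; ring⟩, a⟩
  · omega
  · exact absurd h' (ex_two_odd rfl)
  · omega

lemma key_two {d₂ d₃ : ℚ} (h₂ : d₂ ≠ 0) (h₃ : d₃ ≠ 0) (h : Sol2 (2 : ℚ) (-2) d₂ d₃)
    (v : Even (padicValRat 2 d₃)) (w : Even (padicValRat 2 d₂)) :
    IsSquare d₂ ∧ IsSquare d₃ := by
  have hq : ∀ q : ℕ, q.Prime → (q : ℤ) ∣ 2 → q = 2 := fun q hq e =>
    (Nat.prime_dvd_prime_iff_eq hq Nat.prime_two).1 (by exact_mod_cast e)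
  obtain ⟨a, s, c, hsq, hc, rfl, hs, h'⟩ := norm (n := 2) two_pos h₂ h₃ (by simpa using h)
    (fun q hq' e => by
      obtain rfl : q = 2 := e.elim id (hq q hq')
      exact v)
    (fun q hq' e e' => absurd (hq q hq' e') e)
  have h2 := not_dvd_of_even Nat.prime_two hsq hc w
  rcases hs with rfl | rfl | rfl | rfl
  · exact ⟨⟨c, by push_cast; ring⟩, a⟩
  · exact absurd h' ex_neg_two
  · exact absurd (by norm_num) h2
  · exact absurd (by norm_num) h2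

lemma key_p {p : ℕ} (hp : p.Prime) (h8 : p % 8 = 7) {m : ℤ} (hm : m = 1 ∨ m = 2) {d₂ d₃ : ℚ}
    (h₂ : d₂ ≠ 0) (h₃ : d₃ ≠ 0) (h : Sol2 ((m * p : ℤ) : ℚ) (-(m * p : ℤ)) d₂ d₃)
    (v : Even (padicValRat 2 d₃)) (v' : Even (padicValRat p d₃)) (w : Even (padicValRat p d₂)) :
    IsSquare d₂ ∧ IsSquare d₃ := by
  have := Fact.mk hp
  have hq : ∀ q : ℕ, q.Prime → (q : ℤ) ∣ m * p → q = 2 ∨ q = p := fun q hq e => by
    have e' : (q : ℤ) ∣ 2 * p := by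
      rcases hm with rfl | rfl
      exacts [(by simpa using e : (q : ℤ) ∣ p).mul_left _, e]
    have e'' : q ∣ 2 * p := by exact_mod_cast e'
    rcases (Nat.Prime.dvd_mul hq).1 e'' with f | f
    · exact .inl ((Nat.prime_dvd_prime_iff_eq hq Nat.prime_two).1 f)
    · exact .inr ((Nat.prime_dvd_prime_iff_eq hq hp).1 f)
  have hp0 : (0 : ℤ) < p := by exact_mod_cast hp.pos
  have hm' : ¬(p : ℤ) ∣ m := fun e => by
    have := Int.le_of_dvd (by omega) e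
    omega
  obtain ⟨a, s, c, hsq, hc, rfl, hs, h'⟩ := norm (n := m * p) (mul_pos (by omega) hp0) h₂ h₃ h
    (fun q hq' e => by
      rcases e.elim .inl (hq q hq') with rfl | rfl
      exacts [v, v'])
    (fun q hq' e e' => by
      obtain rfl : q = p := (hq q hq' e').resolve_left e
      exact w)
  rcases hs with rfl | rfl | rfl | rfl
  · exact ⟨⟨c, by push_cast; ring⟩, a⟩
  · refine absurd h' (ex_mod hp hm' ?_)
    push_cast
    rw [ZMod.exists_sq_eq_neg_one_iff]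
    omega
  · rcases hm with rfl | rfl
    · exact absurd h' (ex_two_odd (by omega))
    · exact absurd h' (ex_two_even (by omega))
  · refine absurd h' (ex_mod hp hm' ?_)
    push_cast
    rw [ZMod.exists_sq_eq_neg_two_iff (by omega)]
    omega

/-- a bound for the rank from invariants of the descent classes -/
lemma rank_le {a b : ℚ} (ha : a ≠ 0) (hb : b ≠ 0) (hab : a ≠ b) {ι : Type} [Finite ι]
    (f : ℚ → ℚ → ι) (r : ℕ) (hc : Nat.card ι ≤ 2 ^ (r + 2))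
    (h : ∀ d₂ d₃ e₂ e₃ : ℚ, d₂ ≠ 0 → d₃ ≠ 0 → e₂ ≠ 0 → e₃ ≠ 0 → f d₂ d₃ = f e₂ e₃ →
      Sol2 a b (d₂ * e₂) (d₃ * e₃) → IsSquare (d₂ * e₂) ∧ IsSquare (d₃ * e₃)) :
    Module.rank ℤ (Pt (Ecv a b) ℚ) ≤ r := by
  have hΔ := (isE ha hb hab ℚ).delta
  have : ((Ecv a b).baseChange ℚ).IsElliptic := ⟨hΔ.isUnit⟩
  choose g₂ g₃ hg using exists_gd ha hb hab
  have hinj : Function.Injective fun q : Pt (Ecv a b) ℚ ⧸
      (nsmulAddMonoidHom (α := Pt (Ecv a b) ℚ) 2).range => f (g₂ q.out) (g₃ q.out) := by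
    intro q q' e
    have m := (hg q.out).mul ha hb hab (hg q'.out)
    obtain ⟨Z, hZ⟩ := (m.iff ha hb hab).1
      (h _ _ _ _ (hg _).1 (hg _).2.1 (hg _).1 (hg _).2.1 e (m.sol ha hb hab))
    rw [← q.out_eq, ← q'.out_eq]
    refine QuotientAddGroup.eq.2 ⟨Z - q.out, ?_⟩
    rw [nsmulAddMonoidHom_apply, smul_sub, ← hZ]
    abel
  have hfin := Finite.of_injective _ hinj
  have h1 : (nsmulAddMonoidHom (α := Pt (Ecv a b) ℚ) 2).range.index ≤ 2 ^ (r + 2) :=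
    (Nat.card_le_card_of_injective _ hinj).trans hc
  have h0 : (nsmulAddMonoidHom (α := Pt (Ecv a b) ℚ) 2).range.index ≠ 0 :=
    AddSubgroup.index_ne_zero_of_finite
  obtain ⟨C, hC⟩ := parallelogram (V := ((Ecv a b).baseChange ℚ).toAffine)
  have := northcott (V := ((Ecv a b).baseChange ℚ).toAffine)
  obtain ⟨n, h2, h3⟩ := index_two (AddCommGroup.fg_of_descent' ⟨h0⟩
    (fun P : Pt (Ecv a b) ℚ => Height.logHeight_nonneg P.xRep) hC)
  rw [h3, card_two ha hb hab, ← pow_add] at h1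
  have := (Nat.pow_le_pow_iff_right one_lt_two).1 h1
  rw [h2]
  exact_mod_cast (by omega : n ≤ r)

lemma even_mul {q : ℕ} (hq : q.Prime) {d e : ℚ} (hd : d ≠ 0) (he : e ≠ 0)
    (h : decide (Even (padicValRat q d)) = decide (Even (padicValRat q e))) :
    Even (padicValRat q (d * e)) := by
  have := Fact.mk hq
  rw [padicValRat.mul hd he, Int.even_add]
  exact decide_eq_decide.1 h

end Rank

open Rank

theorem rank : RANK where
  zero := by
    intro n hn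
    have h : Module.rank ℤ (Pt (Ecv n (-n)) ℚ) ≤ (0 : ℕ) := by
      rcases hn with rfl | rfl
      · refine rank_le (by norm_num) (by norm_num) (by norm_num)
          (fun d₂ d₃ => (decide (Even (padicValRat 2 d₃)), decide (0 < d₂))) 0 (by simp)
          fun d₂ d₃ e₂ e₃ a b c d e hs => ?_
        rw [Prod.mk.injEq] at e
        refine key_one ?_ (mul_ne_zero b d) hs (even_mul Nat.prime_two b d e.1)
        have e' := decide_eq_decide.1 e.2
        rcases lt_or_gt_of_ne a with f | f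
        · exact mul_pos_of_neg_of_neg f
            (lt_of_le_of_ne (not_lt.1 fun g => f.not_gt (e'.2 g)) c)
        · exact mul_pos f (e'.1 f)
      · refine rank_le (by norm_num) (by norm_num) (by norm_num)
          (fun d₂ d₃ => (decide (Even (padicValRat 2 d₃)), decide (Even (padicValRat 2 d₂)))) 0
          (by simp) fun d₂ d₃ e₂ e₃ a b c d e hs => ?_
        rw [Prod.mk.injEq] at e
        exact key_two (mul_ne_zero a c) (mul_ne_zero b d) hs (even_mul Nat.prime_two b d e.1)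
          (even_mul Nat.prime_two a c e.2)
    exact rank_eq_zero_iff.1 (by simpa using h)
  one := by
    intro p n hp h8 hn P Q hQ
    obtain ⟨m, hm, rfl⟩ : ∃ m : ℤ, (m = 1 ∨ m = 2) ∧ n = ((m * p : ℤ) : ℚ) := by
      rcases hn with rfl | rfl
      exacts [⟨1, .inl rfl, by simp⟩, ⟨2, .inr rfl, by simp⟩]
    have hpos : (0 : ℚ) < ((m * p : ℤ) : ℚ) := by
      have : (0 : ℤ) < p := by exact_mod_cast hp.pos
      exact_mod_cast mul_pos (by omega) this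
    have h := rank_le hpos.ne' (neg_ne_zero.2 hpos.ne') (by linarith)
      (fun d₂ d₃ => (decide (Even (padicValRat 2 d₃)), decide (Even (padicValRat p d₃)),
        decide (Even (padicValRat p d₂)))) 1 (by simp) fun d₂ d₃ e₂ e₃ a b c d e hs => by
        simp only [Prod.mk.injEq] at e
        exact key_p hp h8 hm (mul_ne_zero a c) (mul_ne_zero b d) hs
          (even_mul Nat.prime_two b d e.1) (even_mul hp b d e.2.1) (even_mul hp a c e.2.2)
    have hl : ¬LinearIndependent ℤ ![P, Q] := fun hl => by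
      have := hl.cardinal_le_rank.trans h
      simp at this
    rw [LinearIndependent.pair_iff] at hl
    push Not at hl
    obtain ⟨s, t, e, hst⟩ := hl
    refine ⟨s, -t, fun hs => ?_, by rw [neg_smul]; exact eq_neg_of_add_eq_zero_left e⟩
    rw [hs, zero_smul, zero_add] at e
    exact hQ t (hst hs) e

end Pool.Agent.MP_9207e0_ag.h2

end MrgPart0

-- ======== part 1: formerly Pool.Agent.MP_9207e0_ag.h2.Th3
section MrgPart1

/-! Module TH3: the Fermat quartic is the quotient of the upper half plane by `G8`, and functions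
with rational expansion are rational functions of the coordinates. -/

set_option linter.unusedSectionVars false
set_option linter.unusedVariables false

namespace Pool.Agent.MP_9207e0_ag.h2

open UpperHalfPlane Complex Filter Asymptotics Matrix
open scoped Real MatrixGroups Manifold Classical
open Pool.Agent.MP_9207e0_ag.hg

namespace Th3

lemma gen_ne {l : ℂ} (h : Gen l) (h0 : l ≠ 0) (h1 : 1 - l ≠ 0) :
    l ≠ 1 - l ∧ l ≠ 1 / l ∧ l ≠ 1 / (1 - l) ∧ l ≠ (l - 1) / l ∧ l ≠ l / (l - 1) := by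
  have h1' : l - 1 ≠ 0 := fun e => h1 (by linear_combination -e)
  refine ⟨fun e => h ?_, fun e => h ?_, fun e => h ?_, fun e => h ?_, fun e => h ?_⟩
  · rw [show 2 * l - 1 = 0 by linear_combination e]; ring
  · rw [eq_div_iff h0] at e
    have : l + 1 = 0 := mul_left_cancel₀ h1' (by linear_combination e)
    rw [this]; ring
  · rw [eq_div_iff h1] at e
    rw [show l ^ 2 - l + 1 = 0 by linear_combination -e]; ring
  · rw [eq_div_iff h0] at e
    rw [show l ^ 2 - l + 1 = 0 by linear_combination e]; ring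
  · rw [eq_div_iff h1'] at e
    have : l - 2 = 0 := mul_left_cancel₀ h0 (by linear_combination e)
    rw [this]; ring

lemma four_dvd {k : ℤ} (h : Complex.I ^ k = 1) : 4 ∣ k := by
  have := (Complex.isPrimitiveRoot_I.zpow_eq_one_iff_dvd k).1 h
  exact_mod_cast this

lemma exists_zpow {x : ℂ} (h : x ^ 4 = 1) : ∃ k : ℤ, Complex.I ^ k = x := by
  obtain ⟨i, -, e⟩ := Complex.isPrimitiveRoot_I.eq_pow_of_pow_eq_one h
  exact ⟨i, by rw [zpow_natCast, e]⟩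

lemma geo_zero {k : ℤ} (h : Complex.I ^ k ≠ 1) :
    ∑ a ∈ Finset.range 4, (Complex.I ^ k) ^ a = 0 := by
  have e : (Complex.I ^ k) ^ 4 = 1 := by
    rw [← zpow_natCast, ← _root_.zpow_mul, mul_comm, _root_.zpow_mul, zpow_natCast,
      Complex.I_pow_four, _root_.one_zpow]
  have := mul_geom_sum (Complex.I ^ k) 4
  rw [e, sub_self] at this
  exact (mul_eq_zero.1 this).resolve_left (sub_ne_zero.2 h)

lemma mem_of_chr {γ : SL2} {b c : ℤ} (hb : (γ : M2) 0 1 = 2 * b) (hc : (γ : M2) 1 0 = 2 * c)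
    (h1 : Complex.I ^ (b * (γ : M2) 1 1) = 1) (h2 : Complex.I ^ (-(c * (γ : M2) 0 0)) = 1) :
    γ ∈ G8 := by
  have d := det_SL γ
  rw [Matrix.det_fin_two, hb, hc] at d
  have k1 := four_dvd h1
  have k2 := (dvd_neg.1 (four_dvd h2))
  rw [mem_G8, hb, hc]
  have c1 : IsCoprime (4 : ℤ) ((γ : M2) 1 1) := ⟨-(b * c), (γ : M2) 0 0, by linear_combination d⟩
  have c2 : IsCoprime (4 : ℤ) ((γ : M2) 0 0) := ⟨-(b * c), (γ : M2) 1 1, by linear_combination d⟩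
  obtain ⟨x, rfl⟩ := c1.dvd_of_dvd_mul_right k1
  obtain ⟨y, rfl⟩ := c2.dvd_of_dvd_mul_right k2
  exact ⟨⟨x, by ring⟩, ⟨y, by ring⟩⟩

section

variable (h2 : TH2)
include h2

lemma l0 (τ : ℍ) : uu τ ^ 4 ≠ 0 := pow_ne_zero 4 (h2.on τ).2.1

lemma l1 (τ : ℍ) : 1 - uu τ ^ 4 ≠ 0 := by
  rw [show 1 - uu τ ^ 4 = vv τ ^ 4 by linear_combination -(h2.on τ).1]
  exact pow_ne_zero 4 (h2.on τ).2.2

lemma l1' (τ : ℍ) : uu τ ^ 4 - 1 ≠ 0 := fun e => l1 h2 τ (by linear_combination -e)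

lemma inj (hI : JB) (τ σ : ℍ) (hG : Gen (uu τ ^ 4)) (e1 : uu τ = uu σ) (e2 : vv τ = vv σ) :
    ∃ γ ∈ G8, γ • τ = σ := by
  have hj : jf τ = jf σ := by
    have a := h2.jrel τ
    have b := h2.jrel σ
    rw [← e1, ← a] at b
    exact (mul_right_cancel₀ (pow_ne_zero 2 (mul_ne_zero (l0 h2 τ) (l1 h2 τ))) b).symm
  obtain ⟨γ, rfl⟩ := hI.inj τ σ hj
  refine ⟨γ, ?_, rfl⟩
  obtain ⟨n1, n2, n3, n4, n5⟩ := gen_ne hG (l0 h2 τ) (l1 h2 τ)
  rcases h2.six γ with ⟨⟨b, hb⟩, ⟨c, hc⟩⟩ | h | h | h | h | h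
  · obtain ⟨a1, a2, -⟩ := h2.chr γ b c hb hc τ
    rw [← e1] at a1
    rw [← e2] at a2
    exact mem_of_chr hb hc (mul_right_cancel₀ (h2.on τ).2.1 (by rw [← a1, one_mul]))
      (mul_right_cancel₀ (h2.on τ).2.2 (by rw [← a2, one_mul]))
  · exact absurd (e1 ▸ h τ) n1
  · exact absurd (e1 ▸ h τ) n2
  · exact absurd (e1 ▸ h τ) n3
  · exact absurd (e1 ▸ h τ) n4
  · exact absurd (e1 ▸ h τ) n5

lemma lamS (τ : ℍ) : uu (ModularGroup.S • τ) ^ 4 = 1 - uu τ ^ 4 := by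
  rw [(h2.lawS τ).1]; linear_combination (h2.on τ).1

lemma lamT (τ : ℍ) : uu (ModularGroup.T • τ) ^ 4 = uu τ ^ 4 / (uu τ ^ 4 - 1) := by
  have e : ee (1 / 8) ^ 4 = -1 := by
    rw [ee, ← Complex.exp_nat_mul, ← Complex.exp_pi_mul_I]
    congr 1
    push_cast
    ring
  rw [(h2.lawT τ).1, div_pow, mul_pow, e, div_eq_div_iff (pow_ne_zero 4 (h2.on τ).2.2) (l1' h2 τ)]
  linear_combination (-uu τ ^ 4) * (h2.on τ).1

lemma surj_lam (hJ : JA) {x : ℂ} (h0 : x ≠ 0) (h1 : 1 - x ≠ 0) : ∃ τ, uu τ ^ 4 = x := by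
  obtain ⟨t, ht⟩ := hJ.surj (256 * (x ^ 2 - x + 1) ^ 3 / (x * (1 - x)) ^ 2)
  have a := h2.jrel t
  rw [ht, div_mul_eq_mul_div, div_eq_iff (pow_ne_zero 2 (mul_ne_zero h0 h1)),
    show uu t ^ 8 = (uu t ^ 4) ^ 2 by ring] at a
  have p0 := l0 h2 t
  have p1 := l1 h2 t
  have p2 := l1' h2 t
  have s := lamS h2
  have r := lamT h2
  set l := uu t ^ 4 with hl
  have f : (l - x) * (l - 1 + x) * (x * l - 1) * ((1 - x) * l - 1) * (x * l - x + 1) *
      ((x - 1) * l - x) = 0 := by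
    linear_combination (1 / 256) * a
  simp only [mul_eq_zero] at f
  have p3 : 1 - l - 1 ≠ 0 := by simpa using p0
  rcases f with ((((f | f) | f) | f) | f) | f
  · exact ⟨t, by linear_combination f⟩
  · exact ⟨ModularGroup.S • t, by rw [s]; linear_combination -f⟩
  · refine ⟨ModularGroup.S • ModularGroup.T • ModularGroup.S • t, ?_⟩
    rw [s, r, s, ← hl]
    field_simp
    linear_combination f
  · refine ⟨ModularGroup.T • ModularGroup.S • t, ?_⟩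
    rw [r, s, ← hl]
    field_simp
    linear_combination -f
  · refine ⟨ModularGroup.S • ModularGroup.T • t, ?_⟩
    rw [s, r, ← hl]
    field_simp
    linear_combination -f
  · refine ⟨ModularGroup.T • t, ?_⟩
    rw [r, ← hl]
    field_simp
    linear_combination -f

lemma surj (hJ : JA) (a b : ℂ) (h : a ^ 4 + b ^ 4 = 1) (ha : a ≠ 0) (hb : b ≠ 0) :
    ∃ τ, uu τ = a ∧ vv τ = b := by
  obtain ⟨t, ht⟩ := surj_lam h2 hJ (pow_ne_zero 4 ha)
    (by rw [show 1 - a ^ 4 = b ^ 4 by linear_combination -h]; exact pow_ne_zero 4 hb)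
  obtain ⟨o, o1, o2⟩ := h2.on t
  obtain ⟨k, hk⟩ := exists_zpow (x := a / uu t) (by rw [div_pow, ht, div_self (pow_ne_zero 4 ha)])
  obtain ⟨m, hm⟩ := exists_zpow (x := b / vv t) (by
    rw [div_pow, show vv t ^ 4 = b ^ 4 by linear_combination o - ht - h,
      div_self (pow_ne_zero 4 hb)])
  let g1 : SL2 := ⟨!![1, 2 * k; 0, 1], by simp [Matrix.det_fin_two]⟩
  let g2 : SL2 := ⟨!![1, 0; 2 * -m, 1], by simp [Matrix.det_fin_two]⟩
  obtain ⟨a1, a2, -⟩ := h2.chr g1 k 0 rfl (by simp [g1]) t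
  obtain ⟨b1, b2, -⟩ := h2.chr g2 0 (-m) (by simp [g2]) rfl (g1 • t)
  refine ⟨g2 • g1 • t, ?_, ?_⟩
  · rw [b1, a1]
    simp [g1, hk, o1]
  · rw [b2, a2]
    simp [g2, hm, o2]

lemma gen (hI : JB) (τ : ℍ) (h : ∀ γ : SL2, γ • τ = τ → γ = 1 ∨ γ = -1) : Gen (uu τ ^ 4) := by
  have key : ∀ (σ : ℍ) (δ : SL2), δ • σ = σ → (δ : M2) 1 0 ≠ 0 → jf τ ≠ jf σ := by
    intro σ δ e hδ hj
    obtain ⟨g, rfl⟩ := hI.inj τ σ hj
    rcases h (g⁻¹ * δ * g) (by rw [mul_smul, mul_smul, e, inv_smul_smul]) with a | a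
    · have : δ = 1 := by
        calc δ = g * (g⁻¹ * δ * g) * g⁻¹ := by group
          _ = 1 := by rw [a]; group
      exact hδ (by simp [this])
    · have : δ = -1 := by
        calc δ = g * (g⁻¹ * δ * g) * g⁻¹ := by group
          _ = -1 := by rw [a]; simp
      exact hδ (by simp [this])
  have n := pow_ne_zero 2 (mul_ne_zero (l0 h2 τ) (l1 h2 τ))
  have a := h2.jrel τ
  let δ : SL2 := ⟨!![0, -1; 1, 1], by simp [Matrix.det_fin_two]⟩
  have e1 : δ • ρ = ρ := by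
    rw [← mob_SL, mob_fix_iff (det_SL_pos δ)]
    simp only [δ]
    simp
    linear_combination ρ_sq
  have j1 : jf ρ = 0 := by simp [jf, hI.e4_zero δ ρ e1 (by simp [δ, Matrix.trace_fin_two])]
  have e2 : ModularGroup.S • UpperHalfPlane.I = UpperHalfPlane.I := by
    rw [← mob_SL, mob_fix_iff (det_SL_pos _)]
    simp [ModularGroup.coe_S]
  have j2 : jf UpperHalfPlane.I = 1728 := by
    have b := h2.jrel UpperHalfPlane.I
    have c := lamS h2 UpperHalfPlane.I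
    rw [e2] at c
    have c' : uu UpperHalfPlane.I ^ 4 = 1 / 2 := by linear_combination (1 / 2) * c
    rw [show uu UpperHalfPlane.I ^ 8 = (uu UpperHalfPlane.I ^ 4) ^ 2 by ring, c'] at b
    linear_combination 16 * b
  intro e
  rw [show uu τ ^ 8 = (uu τ ^ 4) ^ 2 by ring] at a
  set l := uu τ ^ 4
  rw [mul_assoc, mul_assoc, mul_eq_zero] at e
  rcases e with e | e
  · refine key ρ δ e1 (by simp [δ]) ?_
    rw [j1]
    rw [e] at a
    exact (mul_eq_zero.1 (a.trans (by ring))).resolve_right n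
  · refine key _ _ e2 (by simp [ModularGroup.coe_S]) ?_
    rw [j2]
    refine mul_right_cancel₀ n (a.trans ?_)
    linear_combination 64 * ((l + 1) * ((2 * l - 1) * (l - 2))) * e

end

/-! ### Traces -/

/-- The finite quotient of the modular group. -/
abbrev Quo : Type := SL2 ⧸ Gam 8

noncomputable instance : Fintype Quo := Fintype.ofFinite _

lemma out_smul {f : ℍ → ℂ} (hf : f ∈ Mod 8) (g : SL2) (τ : ℍ) :
    f ((g : Quo).out • τ) = f (g • τ) := by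
  obtain ⟨h, e⟩ := QuotientGroup.mk_out_eq_mul (Gam 8) g
  rw [e, mul_smul]
  exact (comp_SL_mem_Mod hf g).2.1 h h.2 τ

lemma tr_mem {f : ℍ → ℂ} (hf : f ∈ Mod 8) : (fun τ => ∑ q : Quo, f (q.out • τ)) ∈ Mod 1 := by
  have : (Gam 8).Normal := CongruenceSubgroup.Gamma_normal 8
  have h8 : (fun τ => ∑ q : Quo, f (q.out • τ)) ∈ Mod 8 := by
    have := (Mod 8).sum_mem (t := (Finset.univ : Finset Quo))
      (f := fun q τ => f (q.out • τ)) fun q _ => comp_SL_mem_Mod hf _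
    convert this using 1
    ext τ
    simp
  refine ⟨h8.1, fun γ _ τ => ?_, h8.2.2⟩
  refine Fintype.sum_equiv (Equiv.mulRight (γ : Quo)) _ _ fun q => ?_
  have : q * (γ : Quo) = ((q.out * γ : SL2) : Quo) := by simp
  simp only [Equiv.coe_mulRight]
  rw [this, out_smul hf, mul_smul]

/-- Kernels whose traces against modular functions lie in `A`. -/
def Ker (A : Subalgebra ℂ (ℍ → ℂ)) (Φ : ℍ → ℍ → ℂ) : Prop :=
  ∀ w ∈ Mod 8, (fun τ => ∑ q : Quo, w (q.out • τ) * Φ (q.out • τ) τ) ∈ A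

section Ker

variable {A : Subalgebra ℂ (ℍ → ℂ)} {Φ Ψ : ℍ → ℍ → ℂ} {f a : ℍ → ℂ}

lemma ker_one (hJ : JA) (hj : jf ∈ A) : Ker A fun _ _ => 1 := by
  intro w hw
  obtain ⟨p, hp⟩ := hJ.poly _ (tr_mem hw)
  have : (fun τ => ∑ q : Quo, w (q.out • τ) * 1) = Polynomial.aeval (jf : ℍ → ℂ) p := by
    ext τ
    rw [Polynomial.aeval_fn_apply, Polynomial.coe_aeval_eq_eval, ← hp]
    simp
  rw [this]
  exact Algebra.adjoin_le (S := A) (by simpa using hj)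
    (Polynomial.aeval_mem_adjoin_singleton ℂ jf)

lemma Ker.add (h : Ker A Φ) (h' : Ker A Ψ) : Ker A fun s t => Φ s t + Ψ s t := by
  intro w hw
  convert A.add_mem (h w hw) (h' w hw) using 1
  ext τ
  simp [mul_add, Finset.sum_add_distrib]

lemma Ker.mul (h : Ker A Φ) (hf : f ∈ Mod 8) (ha : a ∈ A) :
    Ker A fun s t => f s * a t * Φ s t := by
  intro w hw
  convert A.mul_mem ha (h _ ((Mod 8).mul_mem hw hf)) using 1
  ext τ
  simp only [Pi.mul_apply, Finset.mul_sum]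
  exact Finset.sum_congr rfl fun q _ => by ring

lemma Ker.lin (h : Ker A Φ) (hf : f ∈ Mod 8) (ha : a ∈ A) :
    Ker A fun s t => (f s - a t) * Φ s t := by
  convert (h.mul hf A.one_mem).add (h.mul (Mod 8).one_mem (A.neg_mem ha)) using 3
  simp only [Pi.one_apply, Pi.neg_apply]
  ring

lemma Ker.geo (h : Ker A Φ) (hf : f ∈ Mod 8) (ha : a ∈ A) :
    Ker A fun s t => (∑ k ∈ Finset.range 4, (f s * a t) ^ k) * Φ s t := by
  have h1 := h.mul hf ha
  have h2 := h1.mul hf ha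
  have h3 := h2.mul hf ha
  convert ((h.add h1).add h2).add h3 using 3
  simp only [Finset.sum_range_succ, Finset.sum_range_zero]
  ring

end Ker

/-- The product over the five conjugates. -/
noncomputable def Bf (x l : ℂ) : ℂ :=
  (x - (1 - l)) * ((x - 1 / l) * ((x - 1 / (1 - l)) * ((x - (l - 1) / l) * (x - l / (l - 1)))))

/-- The kernel that detects `G8`. -/
noncomputable def Kn (s t : ℍ) : ℂ :=
  (∑ k ∈ Finset.range 4, (uu s * (uu t)⁻¹) ^ k) * ((∑ k ∈ Finset.range 4, (vv s * (vv t)⁻¹) ^ k) *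
    Bf (uu s ^ 4) (uu t ^ 4))

lemma kn_eq (h2 : TH2) (γ : SL2) (τ : ℍ) :
    Kn (γ • τ) τ = if γ ∈ G8 then 16 * Bf (uu τ ^ 4) (uu τ ^ 4) else 0 := by
  obtain ⟨-, o1, o2⟩ := h2.on τ
  split_ifs with h
  · obtain ⟨a, b, -⟩ := h2.inv γ h τ
    rw [Kn, a, b, mul_inv_cancel₀ o1, mul_inv_cancel₀ o2]
    simp
    ring
  · rcases h2.six γ with ⟨⟨b, hb⟩, ⟨c, hc⟩⟩ | e | e | e | e | e
    · obtain ⟨a1, a2, -⟩ := h2.chr γ b c hb hc τ
      rw [Kn, a2, show uu (γ • τ) * (uu τ)⁻¹ = _ by rw [a1, mul_inv_cancel_right₀ o1],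
        mul_inv_cancel_right₀ o2]
      by_cases k1 : Complex.I ^ (b * (γ : M2) 1 1) = 1
      · rw [geo_zero fun k2 => h (mem_of_chr hb hc k1 k2)]
        simp
      · rw [geo_zero k1, zero_mul]
    all_goals simp only [Kn, Bf, e τ, sub_self, mul_zero, zero_mul]

/-! ### Rational expansions -/

section Rat

variable (hA : QA) (σ : ℂ →+* ℂ) (τ τ' : ℍ)

lemma rq_mul (hA : QA) {f g : ℍ → ℂ} (hf : RQ 8 f) (hg : RQ 8 g) : RQ 8 (f * g) := by
  obtain ⟨K, hK⟩ := hA.ratL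
  obtain ⟨c, hc, rc⟩ := hf
  obtain ⟨d, hd, rd⟩ := hg
  exact ⟨_, hA.mul (by norm_num) hc hd, (hK _).1 (K.mul_mem ((hK _).2 rc) ((hK _).2 rd))⟩

lemma rq_one (hA : QA) : RQ 8 1 := by
  obtain ⟨K, hK⟩ := hA.ratL
  exact ⟨_, hA.const 8 1, (hK _).1 (by simp)⟩

lemma rq_inv (hA : QA) {f : ℍ → ℂ} (hf : RQ 8 f) (h : ∀ t, f t ≠ 0) : RQ 8 f⁻¹ := by
  obtain ⟨K, hK⟩ := hA.ratL
  obtain ⟨c, hc, rc⟩ := hf
  obtain ⟨d, hd, rd⟩ := rq_one hA
  have hh := hA.hol (by norm_num) hc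
  have hi : Hol f⁻¹ := by
    rw [hol_iff] at hh ⊢
    exact fun t => (hh t).inv (by simpa using h t)
  exact ⟨_, hA.quot (by norm_num) hd hc (fun e => h UpperHalfPlane.I (by simp [e])) hi
    (funext fun t => inv_mul_cancel₀ (h t)), (hK _).1 (K.div_mem ((hK _).2 rd) ((hK _).2 rc))⟩

/-- Functions with rational expansion whose values are related by `σ`. -/
def Sb : Subring (ℍ → ℂ) where
  carrier := {f | RQ 8 f ∧ σ (f τ) = f τ'}
  mul_mem' := fun a b => ⟨rq_mul hA a.1 b.1, by simp [a.2, b.2]⟩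
  one_mem' := ⟨rq_one hA, by simp⟩
  add_mem' := by
    rintro f g ⟨⟨c, hc, rc⟩, e⟩ ⟨⟨d, hd, rd⟩, e'⟩
    obtain ⟨K, hK⟩ := hA.ratL
    exact ⟨⟨_, hA.add hc hd, (hK _).1 (K.add_mem ((hK _).2 rc) ((hK _).2 rd))⟩, by simp [e, e']⟩
  zero_mem' := ⟨⟨0, fun t => by simp, fun n => ⟨0, by simp⟩⟩, by simp⟩
  neg_mem' := by
    rintro f ⟨⟨c, hc, rc⟩, e⟩
    obtain ⟨K, hK⟩ := hA.ratL
    exact ⟨⟨_, hA.neg hc, (hK _).1 (K.neg_mem ((hK _).2 rc))⟩, by simp [e]⟩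

variable {hA σ τ τ'}

lemma sb_inv {f : ℍ → ℂ} (hf : f ∈ Sb hA σ τ τ') (h : ∀ t, f t ≠ 0) : f⁻¹ ∈ Sb hA σ τ τ' :=
  ⟨rq_inv hA hf.1 h, by simp [hf.2]⟩

lemma proj {f : ℍ → ℂ} (hf : f ∈ Submodule.span ℂ (Sb hA σ τ τ' : Set (ℍ → ℂ))) :
    ∃ c, IsQ 8 f c ∧ ∀ t : ℂ →ₗ[ℚ] ℚ, ∃ f' c', σ (f' τ) = f' τ' ∧ IsQ 8 f' c' ∧
      ∀ n, c'.coeff n = t (c.coeff n) := by
  induction hf using Submodule.span_induction with
  | mem f hf =>
    obtain ⟨⟨c, hc, rc⟩, e⟩ := hf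
    refine ⟨c, hc, fun t => ⟨((t 1 : ℚ) : ℂ) • f, _, by simp [e], hA.smul _ hc, fun n => ?_⟩⟩
    obtain ⟨q, hq⟩ := rc n
    have : t (q : ℂ) = q * t 1 := by rw [← smul_eq_mul, ← map_smul]; simp
    simp [hq, this, mul_comm]
  | zero =>
    have z : IsQ 8 0 0 := fun t => by simp
    exact ⟨0, z, fun t => ⟨0, 0, by simp, z, by simp⟩⟩
  | add f g _ _ hf hg =>
    obtain ⟨c, hc, hf⟩ := hf
    obtain ⟨d, hd, hg⟩ := hg
    refine ⟨_, hA.add hc hd, fun t => ?_⟩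
    obtain ⟨f', c', a1, a2, a3⟩ := hf t
    obtain ⟨g', d', b1, b2, b3⟩ := hg t
    exact ⟨_, _, by simp [a1, b1], hA.add a2 b2, fun n => by simp [a3, b3]⟩
  | smul z f _ hf =>
    obtain ⟨c, hc, hf⟩ := hf
    refine ⟨_, hA.smul z hc, fun t => ?_⟩
    obtain ⟨f', c', a1, a2, a3⟩ := hf (t ∘ₗ LinearMap.mulLeft ℚ z)
    exact ⟨f', c', a1, a2, fun n => by simp [a3]⟩

lemma of_adjoin {f : ℍ → ℂ} (hf : f ∈ Algebra.adjoin ℂ (Sb hA σ τ τ' : Set (ℍ → ℂ)))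
    (hr : RQ 8 f) : σ (f τ) = f τ' := by
  have hs : f ∈ Submodule.span ℂ (Sb hA σ τ τ' : Set (ℍ → ℂ)) := by
    have := Algebra.adjoin_eq_span ℂ (Sb hA σ τ τ' : Set (ℍ → ℂ))
    rw [show Submonoid.closure (Sb hA σ τ τ' : Set (ℍ → ℂ)) = (Sb hA σ τ τ').toSubmonoid from
      Submonoid.closure_eq (Sb hA σ τ τ').toSubmonoid] at this
    exact this.le hf
  obtain ⟨c, hc, h⟩ := proj hs
  obtain ⟨d, hd, rd⟩ := hr
  obtain rfl := hA.unique (by norm_num) hc hd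
  obtain ⟨t, ht⟩ := LinearMap.exists_leftInverse_of_injective (Algebra.linearMap ℚ ℂ)
    (LinearMap.ker_eq_bot.2 (algebraMap ℚ ℂ).injective)
  obtain ⟨f', c', a1, a2, a3⟩ := h t
  have : c' = c := by
    ext n
    obtain ⟨q, hq⟩ := rd n
    have := LinearMap.congr_fun ht q
    simp only [LinearMap.comp_apply, Algebra.linearMap_apply, LinearMap.id_apply,
      eq_ratCast] at this
    rw [a3, hq, this]
  subst this
  obtain rfl : f' = f := funext fun s => (a2 s).unique (hc s)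
  exact a1

end Rat

lemma spec (hA : QA) (hJ : JA) (hT : THA) (h2 : TH2) (w : ℍ → ℂ) (hw : w ∈ Mod 8)
    (hi : ∀ γ ∈ G8, ∀ τ, w (γ • τ) = w τ) (hr : RQ 8 w) (σ : ℂ →+* ℂ) (τ τ' : ℍ)
    (hG : Gen (uu τ ^ 4)) (e1 : σ (uu τ) = uu τ') (e2 : σ (vv τ) = vv τ') : σ (w τ) = w τ' := by
  set S := Sb hA σ τ τ'
  have r0 := rq_inv hA h2.rq.1 fun t => (hT.ne t).1
  have su : uu ∈ S := ⟨by
    convert rq_mul hA h2.rq.2.2 r0 using 1
    ext t; simp [uu, div_eq_mul_inv], e1⟩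
  have sv : vv ∈ S := ⟨by
    convert rq_mul hA h2.rq.2.1 r0 using 1
    ext t; simp [vv, div_eq_mul_inv], e2⟩
  have sl : (fun t => uu t ^ 4) ∈ S := S.pow_mem su 4
  have c1 : (fun t => 1 - uu t ^ 4) ∈ S := S.sub_mem S.one_mem sl
  have c1' : (fun t => uu t ^ 4 - 1) ∈ S := S.sub_mem sl S.one_mem
  have c2 : (fun t => 1 / uu t ^ 4) ∈ S := S.mul_mem S.one_mem (sb_inv sl (l0 h2))
  have c3 : (fun t => 1 / (1 - uu t ^ 4)) ∈ S := S.mul_mem S.one_mem (sb_inv c1 (l1 h2))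
  have c4 : (fun t => (uu t ^ 4 - 1) / uu t ^ 4) ∈ S := S.mul_mem c1' (sb_inv sl (l0 h2))
  have c5 : (fun t => uu t ^ 4 / (uu t ^ 4 - 1)) ∈ S := S.mul_mem sl (sb_inv c1' (l1' h2))
  have sB : (fun t => Bf (uu t ^ 4) (uu t ^ 4)) ∈ S :=
    S.mul_mem (S.sub_mem sl c1) (S.mul_mem (S.sub_mem sl c2) (S.mul_mem (S.sub_mem sl c3)
      (S.mul_mem (S.sub_mem sl c4) (S.sub_mem sl c5))))
  have sj : jf ∈ S := by
    have n := fun t => pow_ne_zero 2 (mul_ne_zero (l0 h2 t) (l1 h2 t))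
    convert S.mul_mem (S.mul_mem (natCast_mem S 256) (S.pow_mem (S.add_mem
      (S.sub_mem (S.pow_mem su 8) sl) S.one_mem) 3))
      (sb_inv (f := fun t => (uu t ^ 4 * (1 - uu t ^ 4)) ^ 2) (S.pow_mem (S.mul_mem sl c1) 2) n)
      using 1
    ext t
    simp only [Pi.mul_apply, Pi.inv_apply]
    rw [eq_mul_inv_iff_mul_eq₀ (n t), h2.jrel t]
    simp
  set A := Algebra.adjoin ℂ (S : Set (ℍ → ℂ))
  have sA : ∀ {f}, f ∈ S → f ∈ A := fun hf => Algebra.subset_adjoin hf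
  have ml : (fun t => uu t ^ 4) ∈ Mod 8 := (Mod 8).pow_mem h2.md.1 4
  have k := (((((((ker_one hJ (sA sj)).lin ml (sA c5)).lin ml (sA c4)).lin ml (sA c3)).lin ml
    (sA c2)).lin ml (sA c1)).geo h2.md.2 (sA (sb_inv sv fun t => (h2.on t).2.2))).geo h2.md.1
    (sA (sb_inv su fun t => (h2.on t).2.1)) w hw
  set n : ℕ := (Finset.univ.filter fun q : Quo => q.out ∈ G8).card with hn
  have n0 : n ≠ 0 := by
    refine Finset.card_ne_zero.2 ⟨((1 : SL2) : Quo), Finset.mem_filter.2 ⟨Finset.mem_univ _, ?_⟩⟩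
    obtain ⟨h, e⟩ := QuotientGroup.mk_out_eq_mul (Gam 8) 1
    rw [e, one_mul]
    exact gam_le_G8 h.2
  have m : (w * fun t => Bf (uu t ^ 4) (uu t ^ 4)) ∈ A := by
    convert A.smul_mem k ((16 * n : ℂ)⁻¹) using 1
    ext t
    have : ∀ q : Quo, w (q.out • t) * Kn (q.out • t) t =
        if q.out ∈ G8 then 16 * (w t * Bf (uu t ^ 4) (uu t ^ 4)) else 0 := by
      intro q
      rw [kn_eq h2]
      split_ifs with h
      · rw [hi _ h]; ring
      · simp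
    have s := Finset.sum_congr rfl fun (q : Quo) (_ : q ∈ Finset.univ) => this q
    rw [← Finset.sum_filter, Finset.sum_const, ← hn, nsmul_eq_mul] at s
    simp only [Kn, Bf] at s
    simp only [Pi.mul_apply, Pi.smul_apply, Pi.inv_apply, smul_eq_mul, mul_one, s, Bf]
    have : (n : ℂ) ≠ 0 := Nat.cast_ne_zero.2 n0
    field_simp
  have f := of_adjoin m (rq_mul hA hr sB.1)
  have g := sB.2
  simp only [Pi.mul_apply, map_mul] at f g
  obtain ⟨n1, n2, n3, n4, n5⟩ := gen_ne hG (l0 h2 τ) (l1 h2 τ)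
  have b0 : σ (Bf (uu τ ^ 4) (uu τ ^ 4)) ≠ 0 := (map_ne_zero σ).2 (by
    simp only [Bf, ne_eq, mul_eq_zero, sub_eq_zero, not_or]
    exact ⟨n1, n2, n3, n4, n5⟩)
  rw [← g] at f
  exact mul_right_cancel₀ b0 f

end Th3

theorem th3 (hA : QA) (hB : QB) (hJ : JA) (hI : JB) (hT : THA) (h2 : TH2) : TH3 :=
  ⟨Th3.inj h2 hI, Th3.surj h2 hJ, Th3.gen h2 hI, Th3.spec hA hJ hT h2⟩

end Pool.Agent.MP_9207e0_ag.h2

end MrgPart1

-- ======== part 2: formerly Pool.Agent.MP_9207e0_ag.h2.HG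
section MrgPart2

/-! Field homomorphisms permute the Heegner points on the Fermat quartic. -/

set_option linter.unusedSectionVars false
set_option linter.unusedVariables false

namespace Pool.Agent.MP_9207e0_ag.h2

open UpperHalfPlane Complex Filter Asymptotics Matrix
open scoped Real MatrixGroups Manifold Classical
open Pool.Agent.MP_9207e0_ag.hg

namespace HG

/-- The matrices of the Hecke operator. -/
def Dl (m : ℕ) (g : M2) : Prop := g.det = m ∧ Odd (g 0 0) ∧ 8 ∣ g 0 1 ∧ 8 ∣ g 1 0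

/-- The index set of the representatives. -/
def Jx (m : ℕ) : Finset (Σ _ : ℕ × ℕ, ℕ) :=
  (m.divisorsAntidiagonal.filter fun p => Odd p.1).sigma fun p => Finset.range p.2

/-- The representatives. -/
def mat (i : Σ _ : ℕ × ℕ, ℕ) : M2 := !![(i.1.1 : ℤ), 8 * (i.2 : ℤ); 0, (i.1.2 : ℤ)]

lemma mem_Jx {m : ℕ} (hm : 0 < m) {i : Σ _ : ℕ × ℕ, ℕ} :
    i ∈ Jx m ↔ i.1.1 * i.1.2 = m ∧ Odd i.1.1 ∧ i.2 < i.1.2 := by
  simp [Jx, Nat.mem_divisorsAntidiagonal, hm.ne', and_assoc]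

lemma dl_mat {m : ℕ} (hm : 0 < m) {i} (hi : i ∈ Jx m) : Dl m (mat i) := by
  obtain ⟨h1, h2, -⟩ := (mem_Jx hm).1 hi
  refine ⟨?_, ?_, ?_, ?_⟩
  · simp [mat, Matrix.det_fin_two, ← h1]
  · simpa [mat] using h2
  · simp [mat]
  · simp [mat]

lemma odd_of_G8 {γ : SL2} (h : γ ∈ G8) : Odd ((γ : M2) 0 0) := by
  have e := det_SL γ
  rw [Matrix.det_fin_two] at e
  obtain ⟨⟨b, hb⟩, -⟩ := h
  refine Int.Odd.of_mul_left (n := (γ : M2) 1 1) ⟨4 * b * (γ : M2) 1 0, ?_⟩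
  rw [hb] at e
  linear_combination e

lemma dl_mul {m : ℕ} {g : M2} (h : Dl m g) {η γ : SL2} (hη : η ∈ G8) (hγ : γ ∈ G8) :
    Dl m (η * g * γ) := by
  obtain ⟨h1, ⟨a, ha⟩, ⟨b, hb⟩, ⟨c, hc⟩⟩ := h
  obtain ⟨a1, ha1⟩ := odd_of_G8 hη
  obtain ⟨a2, ha2⟩ := odd_of_G8 hγ
  obtain ⟨⟨b1, hb1⟩, ⟨c1, hc1⟩⟩ := hη
  obtain ⟨⟨b2, hb2⟩, ⟨c2, hc2⟩⟩ := hγ
  refine ⟨by simp [h1], ?_, ?_, ?_⟩ <;>
    simp only [Matrix.mul_apply, Fin.sum_univ_two, ha, hb, hc, ha1, hb1, hc1, ha2, hb2, hc2]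
  · exact ⟨a + a1 + a2 + 2 * (a * a1 + a * a2 + a1 * a2) + 4 * a * a1 * a2 +
      32 * b1 * c * (2 * a2 + 1) + 32 * c2 * ((2 * a1 + 1) * b + b1 * g 1 1), by ring⟩
  · exact ⟨((2 * a1 + 1) * (2 * a + 1) + 8 * b1 * (8 * c)) * b2 +
      ((2 * a1 + 1) * b + b1 * g 1 1) * (γ : M2) 1 1, by ring⟩
  · exact ⟨(c1 * (2 * a + 1) + (η : M2) 1 1 * c) * (2 * a2 + 1) +
      (8 * c1 * (8 * b) + (η : M2) 1 1 * g 1 1) * c2, by ring⟩

lemma exists_mat {m : ℕ} (hm : 0 < m) {g : M2} (h : Dl m g) :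
    ∃ i ∈ Jx m, ∃ η ∈ G8, mat i = η * g := by
  obtain ⟨h1, h2, ⟨b, hb⟩, ⟨c, hc⟩⟩ := h
  have h0 : g 0 0 ≠ 0 := by
    intro h
    rw [h] at h2
    exact absurd h2 (by decide)
  obtain ⟨e, a', c', he, hco, ha', hc'⟩ := Int.exists_gcd_one' (Int.gcd_pos_of_ne_zero_left c h0)
  have o1 : Odd a' := Int.Odd.of_mul_left (ha' ▸ h2)
  have o2 : Odd (e : ℤ) := Int.Odd.of_mul_right (ha' ▸ h2)
  have c2 : IsCoprime a' 2 := by
    obtain ⟨k, rfl⟩ := o1
    exact ⟨1, -k, by ring⟩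
  have c3 : IsCoprime a' (2 ^ 6 * c') := c2.pow_right.mul_right (Int.isCoprime_iff_gcd_eq_one.2 hco)
  obtain ⟨x, y, hxy⟩ := c3
  rw [Matrix.det_fin_two, ha', hb, hc, hc'] at h1
  obtain ⟨d, hd⟩ : ∃ d, d = a' * g 1 1 - 64 * b * c' := ⟨_, rfl⟩
  have hed : (e : ℤ) * d = m := by rw [hd]; linear_combination h1
  have d0 : 0 < d := pos_of_mul_pos_right (a := (e : ℤ)) (by rw [hed]; exact_mod_cast hm)
    (by exact_mod_cast he.le)
  obtain ⟨d, rfl⟩ := Int.eq_ofNat_of_zero_le d0.le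
  obtain ⟨l, hl⟩ := Int.eq_ofNat_of_zero_le (Int.emod_nonneg (x * b + y * g 1 1) d0.ne')
  have hl2 := Int.emod_lt_of_pos (x * b + y * g 1 1) d0
  have hl3 := Int.emod_add_mul_ediv (x * b + y * g 1 1) d
  rw [hl] at hl2 hl3
  obtain ⟨n, hn⟩ : ∃ n, n = (x * b + y * g 1 1) / d := ⟨_, rfl⟩
  rw [← hn] at hl3
  refine ⟨⟨(e, d), l⟩, (mem_Jx hm).2 ⟨by exact_mod_cast hed, by exact_mod_cast o2,
    by exact_mod_cast hl2⟩, ⟨!![x + 64 * n * c', 8 * (y - n * a'); 8 * (-c'), a'], ?_⟩,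
    ⟨⟨y - n * a', rfl⟩, ⟨-c', rfl⟩⟩, ?_⟩
  · rw [Matrix.det_fin_two_of]
    linear_combination hxy
  · ext i k
    fin_cases i <;> fin_cases k <;>
      simp [mat, Matrix.mul_apply, Fin.sum_univ_two, ha', hb, hc, hc']
    · linear_combination (-(e : ℤ)) * hxy
    · linear_combination 8 * hl3 - 8 * n * hd
    · ring
    · linear_combination hd

lemma mat_unique {m : ℕ} (hm : 0 < m) {i i'} (hi : i ∈ Jx m) (hi' : i' ∈ Jx m) {η : SL2}
    (hη : η ∈ G8) (e : mat i' = η * mat i) : i = i' := by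
  obtain ⟨⟨a, d⟩, l⟩ := i
  obtain ⟨⟨a', d'⟩, l'⟩ := i'
  obtain ⟨h1, -, h3⟩ := (mem_Jx hm).1 hi
  obtain ⟨h1', -, h3'⟩ := (mem_Jx hm).1 hi'
  simp only at h1 h3 h1' h3'
  have a0 : 0 < a := Nat.pos_of_mul_pos_right (h1 ▸ hm)
  have a0' : 0 < a' := Nat.pos_of_mul_pos_right (h1' ▸ hm)
  have e1 := congrFun (congrFun e 0) 0
  have e2 := congrFun (congrFun e 0) 1
  have e3 := congrFun (congrFun e 1) 0
  simp [mat, Matrix.mul_apply, Fin.sum_univ_two, a0.ne'] at e1 e2 e3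
  have e5 := det_SL η
  rw [Matrix.det_fin_two, e3, mul_zero, sub_zero] at e5
  have e6 : (η : M2) 0 0 = 1 := by
    refine Int.eq_one_of_mul_eq_one_right ?_ e5
    by_contra hh
    have : (η : M2) 0 0 * a < 0 := mul_neg_of_neg_of_pos (not_le.1 hh) (by exact_mod_cast a0)
    omega
  obtain ⟨⟨y, hy⟩, -⟩ := hη
  rw [e6, one_mul] at e1 e2
  obtain rfl : a' = a := by exact_mod_cast e1
  obtain rfl : d' = d := Nat.eq_of_mul_eq_mul_left a0 (h1'.trans h1.symm)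
  rw [hy] at e2
  have e7 : (l' : ℤ) - l = d' * y := by linarith
  have e8 : (l' : ℤ) - l = 0 :=
    Int.eq_zero_of_dvd_of_natAbs_lt_natAbs ⟨y, e7⟩ (by omega)
  obtain rfl : l' = l := by omega
  rfl

lemma sum_inv {m : ℕ} (hm : 0 < m) (Φ : M2 → ℂ)
    (h : ∀ η ∈ G8, ∀ g, Dl m g → Φ (η * g) = Φ g) {γ : SL2} (hγ : γ ∈ G8) :
    ∑ i ∈ Jx m, Φ (mat i * γ) = ∑ i ∈ Jx m, Φ (mat i) := by
  have dd : ∀ i ∈ Jx m, Dl m (mat i * γ) := fun i hi => by
    simpa using dl_mul (dl_mat hm hi) G8.one_mem hγ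
  choose f hf η hη e using fun i hi => exists_mat hm (dd i hi)
  have inj : ∀ i hi i' hi', f i hi = f i' hi' → i = i' := fun i hi i' hi' e' => by
    refine mat_unique hm hi hi' (G8.mul_mem (G8.inv_mem (hη i' hi')) (hη i hi)) ?_
    have e1 := (e i hi).symm.trans (e' ▸ e i' hi')
    have e2 := congrArg (fun x => ((η i' hi')⁻¹ : SL2) * x * ((γ⁻¹ : SL2) : M2)) e1
    simp only [mul_assoc, ← Matrix.SpecialLinearGroup.coe_mul, mul_inv_cancel] at e2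
    simp only [← mul_assoc, ← Matrix.SpecialLinearGroup.coe_mul, inv_mul_cancel] at e2
    simpa using e2.symm
  refine Finset.sum_bij f hf inj (fun b hb => ?_) fun i hi => ?_
  · obtain ⟨a, ha, e⟩ := Finset.surj_on_of_inj_on_of_card_le f hf
      (fun a b ha hb => inj a ha b hb) le_rfl b hb
    exact ⟨a, ha, e.symm⟩
  · rw [e i hi, h _ (hη i hi) _ (dd i hi)]

lemma expG_const (c : ℂ) : ExpG fun _ => c := ⟨0, gr_const c⟩

lemma expG_pow {w : ℍ → ℂ} (h : ExpG w) (k : ℕ) : ExpG fun τ => w τ ^ k := by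
  induction k with
  | zero => simpa using expG_const 1
  | succ k ih =>
    simp only [pow_succ]
    exact ih.mul h

lemma expG_sum {ι : Type} (s : Finset ι) (w : ι → ℍ → ℂ) (h : ∀ i ∈ s, ExpG (w i)) :
    ExpG fun τ => ∑ i ∈ s, w i τ := by
  induction s using Finset.induction_on with
  | empty => simpa using expG_const 0
  | insert i s hi ih =>
    simp only [Finset.sum_insert hi]
    exact (h i (by simp)).add (ih fun j hj => h j (by simp [hj]))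

lemma expG_congr {a b : ℍ → ℂ} (h : ExpG a) (e : ∀ τ, a τ = b τ) : ExpG b := funext e ▸ h

lemma hol_sum {ι : Type} (s : Finset ι) (w : ι → ℍ → ℂ) (h : ∀ i ∈ s, Hol (w i)) :
    Hol fun τ => ∑ i ∈ s, w i τ := by
  induction s using Finset.induction_on with
  | empty => simpa using mdifferentiable_const
  | insert i s hi ih =>
    simp only [Finset.sum_insert hi]
    exact (h i (by simp)).add (ih fun j hj => h j (by simp [hj]))

section RQ

variable (hA : QA) {h : ℕ} (h0 : 0 < h) {a b : ℍ → ℂ}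
include hA

lemma rq_const (q : ℚ) : RQ h fun _ => (q : ℂ) :=
  ⟨_, hA.const h q, fun n => by
    rw [HahnSeries.C_apply, HahnSeries.coeff_single]
    split_ifs
    exacts [⟨q, rfl⟩, ⟨0, by simp⟩]⟩

lemma rq_sum {ι : Type} (s : Finset ι) (w : ι → ℍ → ℂ) (hw : ∀ i ∈ s, RQ h (w i)) :
    RQ h fun τ => ∑ i ∈ s, w i τ := by
  obtain ⟨K, hK⟩ := hA.ratL
  choose! c hc hc' using hw
  refine ⟨∑ i ∈ s, c i, ?_, (hK _).1 (K.sum_mem fun i hi => (hK _).2 (hc' i hi))⟩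
  convert hA.sum s w c hc using 1
  ext τ
  simp

include h0

lemma rq_mul (ha : RQ h a) (hb : RQ h b) : RQ h fun τ => a τ * b τ := by
  obtain ⟨K, hK⟩ := hA.ratL
  obtain ⟨c, hc, hc'⟩ := ha
  obtain ⟨d, hd, hd'⟩ := hb
  exact ⟨_, hA.mul h0 hc hd, (hK _).1 (K.mul_mem ((hK _).2 hc') ((hK _).2 hd'))⟩

lemma rq_pow (ha : RQ h a) (k : ℕ) : RQ h fun τ => a τ ^ k := by
  obtain ⟨K, hK⟩ := hA.ratL
  obtain ⟨c, hc, hc'⟩ := ha
  exact ⟨_, hA.pow k h0 hc, (hK _).1 (K.pow_mem ((hK _).2 hc') k)⟩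

lemma rq_inv (ha : RQ h a) (hn : ∀ τ, a τ ≠ 0) : RQ h fun τ => (a τ)⁻¹ := by
  obtain ⟨K, hK⟩ := hA.ratL
  obtain ⟨c, hc, hc'⟩ := ha
  obtain ⟨d, hd, hd'⟩ := rq_const hA (h := h) 1
  refine ⟨_, hA.quot h0 hd hc (fun e => hn UpperHalfPlane.I (congrFun e _))
    ((hA.hol h0 hc).inv hn) ?_, (hK _).1 (K.div_mem ((hK _).2 hd') ((hK _).2 hc'))⟩
  ext τ
  simp [hn τ]

lemma rq_descend {k : ℕ} (hk : 0 < k) (h1 : HasQ h a) (h2 : RQ (k * h) a) : RQ h a := by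
  obtain ⟨c, hc⟩ := h1
  obtain ⟨d, hd, hd'⟩ := h2
  obtain ⟨c', hc'⟩ := hA.exists_sub k 1 c hk
  obtain rfl := hA.unique (by positivity) ((hA.level h0 hk hc').2 hc) hd
  refine ⟨c, hc, fun n => ?_⟩
  simpa [hc'.1 n] using hd' (k * n)

omit h0 in
lemma rq_hecke (ha : RQ 8 a) {x d : ℕ} (hx : 0 < x) (hd : 0 < d) :
    RQ (x * d * 8) fun τ => ∑ l ∈ Finset.range d, a (mob !![(x : ℤ), 8 * (l : ℤ); 0, (d : ℤ)] τ) := by
  obtain ⟨c, hc, hc'⟩ := ha
  choose e he using fun l : ℕ =>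
    hA.exists_sub (x ^ 2) (ee (((8 * l : ℤ) : ℂ) / (((8 : ℕ) : ℂ) * ((d : ℤ) : ℂ)))) c (by positivity)
  have h1 := hA.sum (Finset.range d) _ e fun l _ => hA.comp (h' := x * d * 8) (by norm_num)
    (by positivity) (by exact_mod_cast hx : (0 : ℤ) < x) (by exact_mod_cast hd : (0 : ℤ) < d)
    (by push_cast; ring) hc (he l)
  refine ⟨_, by convert h1 using 1; ext τ; simp, fun ν => ?_⟩
  rw [HahnSeries.coeff_sum]
  by_cases hν : ((x ^ 2 : ℕ) : ℤ) ∣ ν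
  · obtain ⟨n, rfl⟩ := hν
    obtain ⟨q, hq⟩ := hc' n
    have d0 : (d : ℂ) ≠ 0 := by exact_mod_cast hd.ne'
    have e1 : ∀ l : ℕ, ee (((8 * l : ℤ) : ℂ) / (((8 : ℕ) : ℂ) * ((d : ℤ) : ℂ))) ^ n =
        ee (n / d) ^ l := fun l => by
      rw [ee, ee, ← Complex.exp_int_mul, ← Complex.exp_nat_mul]
      congr 1
      push_cast
      field_simp
    have e2 : ee (n / d) ^ d = 1 := by
      rw [ee, ← Complex.exp_nat_mul, ← Complex.exp_int_mul_two_pi_mul_I n]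
      congr 1
      field_simp
    simp only [(he _).1 n, e1, hq, ← Finset.sum_mul]
    by_cases e3 : ee (n / d) = 1
    · exact ⟨d * q, by simp [e3]⟩
    · exact ⟨0, by simp [geom_sum_eq e3, e2]⟩
  · exact ⟨0, by simp [(he _).2 ν hν]⟩

end RQ

/-- The Hecke operator on monomials. -/
noncomputable def Tf (m a b c : ℕ) (τ : ℍ) : ℂ :=
  ∑ i ∈ Jx m, uu (mob (mat i) τ) ^ a * vv (mob (mat i) τ) ^ b * mu (mat i) τ ^ c

section Tf

variable (hA : QA) (hB : QB) (hO : ORB) (hT : THA) (h2 : TH2) {m : ℕ} (hm : 0 < m)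

lemma Dl.pos {m : ℕ} (hm : 0 < m) {g : M2} (h : Dl m g) : 0 < g.det := by
  rw [h.1]; exact_mod_cast hm

include hT h2 hm in
lemma left_inv {g : M2} (hg : Dl m g) {η : SL2} (hη : η ∈ G8) (τ : ℍ) :
    uu (mob (η * g) τ) = uu (mob g τ) ∧ vv (mob (η * g) τ) = vv (mob g τ) ∧
      mu (η * g) τ = mu g τ := by
  obtain ⟨e1, e2, e3⟩ := h2.inv η hη (mob g τ)
  rw [mu_mul hT (det_SL_pos η) (hg.pos hm), mob_mul (det_SL_pos η) (hg.pos hm), mob_SL, e1, e2, e3,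
    one_mul]
  exact ⟨rfl, rfl, rfl⟩

include hT h2 hm in
lemma Tf_inv (a b c : ℕ) {γ : SL2} (hγ : γ ∈ G8) (τ : ℍ) : Tf m a b c (γ • τ) = Tf m a b c τ := by
  refine Eq.trans ?_ (sum_inv hm (fun g => uu (mob g τ) ^ a * vv (mob g τ) ^ b * mu g τ ^ c)
    (fun η hη g hg => ?_) hγ)
  · refine Finset.sum_congr rfl fun i hi => ?_
    have := (dl_mat hm hi).pos hm
    rw [mu_mul hT this (det_SL_pos γ), mob_mul this (det_SL_pos γ), mob_SL, (h2.inv γ hγ τ).2.2,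
      mul_one]
  · obtain ⟨e1, e2, e3⟩ := left_inv hT h2 hm hg hη τ
    simp only [e1, e2, e3]

include hA hB hO hT h2 in
lemma mu_expG {g : M2} (hg : 0 < g.det) (γ : SL2) : ExpG fun τ => mu g (γ • τ) := by
  have hd : 0 < (g * γ).det := by simpa using hg
  obtain ⟨n, hn⟩ := Int.eq_ofNat_of_zero_le hd.le
  obtain ⟨H, ⟨hH, γ', e⟩, -⟩ := hO.herm n (g * γ) (by omega) hn
  obtain ⟨e1, e2, e3, e4, e5⟩ := (hO.mem_herm n H).1 hH
  have e6 : H = !![H 0 0, H 0 1; 0, H 1 1] := by rw [← e1]; exact Matrix.eta_fin_two H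
  have e7 : 0 < H 1 1 := e3.trans_lt e4
  have hH0 : 0 < H.det := by rw [Matrix.det_fin_two, e1, mul_zero, sub_zero]; positivity
  have up : ∀ {w}, ExpG w → ExpG fun τ => w (mob H τ) := by
    rintro w ⟨κ, hκ⟩
    have := hB.gr_upper (b := H 0 1) e2 e7 hκ
    rw [← e6] at this
    exact ⟨_, this⟩
  obtain ⟨c, hc, -⟩ := h2.rq.1
  obtain ⟨c', hc', -⟩ := rq_inv hA (by norm_num) h2.rq.1 fun τ => (hT.ne τ).1
  have k1 := ((up (h2.mu_exp γ').1).mul (((expG_pow (up (hA.expG (by norm_num) hc)) 4).mul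
    (expG_const (((H 1 1 : ℂ) ^ 2)⁻¹))).mul (expG_pow (hA.expG (by norm_num) hc') 4))).mul
    (h2.mu_exp γ).2
  refine expG_congr k1 fun τ => ?_
  have n1 : mu γ τ ≠ 0 := div_ne_zero (pow_ne_zero _ (hT.ne _).1)
    (mul_ne_zero (pow_ne_zero _ (den_ne (det_SL_pos γ) τ)) (pow_ne_zero _ (hT.ne _).1))
  have k2 := mu_mul hT hg (det_SL_pos γ) τ
  rw [e, mu_mul hT (det_SL_pos γ') hH0, mob_SL] at k2
  simp only [Pi.mul_apply]
  rw [mul_inv_eq_iff_eq_mul₀ n1, ← k2]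
  congr 1
  simp only [mu, dn, e1, Int.cast_zero, zero_mul, zero_add]
  ring

include hA hB hO hT h2 hm in
lemma Tf_mod (a b c : ℕ) : Tf m a b c ∈ Mod 8 := by
  refine ⟨?_, fun γ hγ => Tf_inv hT h2 hm a b c (gam_le_G8 hγ), fun γ => ?_⟩
  · refine hol_sum _ _ fun i hi => ?_
    have := (dl_mat hm hi).pos hm
    refine (((h2.md.1.1.comp_mob this).pow a).mul ((h2.md.2.1.comp_mob this).pow b)).mul
      (MDifferentiable.pow ?_ c)
    refine ((hT.hol.1.comp_mob this).pow 4).div ((MDifferentiable.pow ?_ 2).mul (hT.hol.1.pow 4))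
      fun τ => mul_ne_zero (pow_ne_zero _ (den_ne this τ)) (pow_ne_zero _ (hT.ne _).1)
    have : dn (mat i) = fun _ => (i.1.2 : ℂ) := by ext τ; simp [dn, mat]
    rw [this]
    exact mdifferentiable_const
  · refine expG_sum _ _ fun i hi => ?_
    have := (dl_mat hm hi).pos hm
    exact ((expG_pow ((hB.mod_mob this h2.md.1).2.2 γ) a).mul
      (expG_pow ((hB.mod_mob this h2.md.2).2.2 γ) b)).mul
      (expG_pow (mu_expG hA hB hO hT h2 this γ) c)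

include hA hB hO hT h2 hm in
lemma Tf_rq (a b c : ℕ) : RQ 8 (Tf m a b c) := by
  have h8 : 0 < 8 := by norm_num
  refine rq_descend hA h8 hm (hB.mod_q h8 (Tf_mod hA hB hO hT h2 hm a b c)) ?_
  have r0 := rq_inv hA h8 h2.rq.1 fun τ => (hT.ne τ).1
  have r1 := rq_mul hA h8 (rq_mul hA h8 (rq_pow hA h8 (rq_mul hA h8 h2.rq.2.2 r0) a)
    (rq_pow hA h8 (rq_mul hA h8 h2.rq.2.1 r0) b)) (rq_pow hA h8 h2.rq.1 (4 * c))
  have hm8 : 0 < m * 8 := by positivity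
  have r2 := rq_sum hA (h := m * 8) (m.divisorsAntidiagonal.filter fun p => Odd p.1) _ fun p hp =>
    rq_mul hA hm8 (rq_mul hA hm8 (rq_const hA (((p.2 : ℚ) ^ (2 * c))⁻¹))
      (hB.rq_level hm8 (Dvd.intro_left m rfl) (rq_pow hA h8 r0 (4 * c)))) (by
        have e := (Nat.mem_divisorsAntidiagonal.1 (Finset.mem_filter.1 hp).1).1
        rw [← e] at hm ⊢
        exact rq_hecke hA r1 (Nat.pos_of_mul_pos_right hm) (Nat.pos_of_mul_pos_left hm))
  convert r2 using 1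
  ext τ
  rw [Tf, Jx, Finset.sum_sigma]
  refine Finset.sum_congr rfl fun p _ => ?_
  rw [Finset.mul_sum]
  refine Finset.sum_congr rfl fun l _ => ?_
  simp only [uu, vv, mu, dn, mat, div_eq_mul_inv]
  simp only [Fin.isValue, of_apply, cons_val', cons_val_zero, cons_val_fin_one, cons_val_one]
  push_cast
  ring

end Tf

/-- Finite families of points with the same moments have the same support. -/
lemma moments {ι : Type} (s : Finset ι) (x y : ι → Fin 3 → ℂ)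
    (h : ∀ a b c : ℕ, ∑ i ∈ s, x i 0 ^ a * x i 1 ^ b * x i 2 ^ c =
      ∑ i ∈ s, y i 0 ^ a * y i 1 ^ b * y i 2 ^ c) {i0 : ι} (h0 : i0 ∈ s) :
    ∃ i ∈ s, y i = x i0 := by
  have key : ∀ P : MvPolynomial (Fin 3) ℂ,
      ∑ i ∈ s, MvPolynomial.eval (x i) P = ∑ i ∈ s, MvPolynomial.eval (y i) P := by
    intro P
    induction P using MvPolynomial.induction_on' with
    | monomial u a =>
      simp only [MvPolynomial.eval_monomial, Finsupp.prod_pow, Fin.prod_univ_three,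
        ← Finset.mul_sum, h]
    | add p q hp hq => simp only [map_add, Finset.sum_add_distrib, hp, hq]
  by_contra! hne
  obtain ⟨Z, hZ⟩ : ∃ Z, Z = (s.image x ∪ s.image y).erase (x i0) := ⟨_, rfl⟩
  have : ∀ z ∈ Z, ∃ k, z k ≠ x i0 k := fun z hz =>
    Function.ne_iff.1 (Finset.ne_of_mem_erase (hZ ▸ hz))
  choose! k hk using this
  have e := key (∏ z ∈ Z, (MvPolynomial.X (k z) - MvPolynomial.C (z (k z))))
  simp only [map_prod, map_sub, MvPolynomial.eval_X, MvPolynomial.eval_C] at e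
  rw [Finset.sum_eq_zero (s := s) (f := fun i => ∏ z ∈ Z, (y i (k z) - z (k z))) fun i hi =>
    Finset.prod_eq_zero (i := y i) (by
      rw [hZ]
      exact Finset.mem_erase.2 ⟨hne i hi, Finset.mem_union_right _ (Finset.mem_image_of_mem _ hi)⟩)
      (sub_self _),
    ← Finset.sum_filter_of_ne (p := fun i => x i = x i0) (fun i hi hn => by
      by_contra hh
      exact hn (Finset.prod_eq_zero (i := x i) (by
        rw [hZ]
        exact Finset.mem_erase.2 ⟨hh, Finset.mem_union_left _ (Finset.mem_image_of_mem _ hi)⟩)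
        (sub_self _))),
    Finset.sum_congr rfl (g := fun _ => ∏ z ∈ Z, (x i0 (k z) - z (k z)))
      (fun i hi => by rw [(Finset.mem_filter.1 hi).2]), Finset.sum_const, nsmul_eq_mul] at e
  refine mul_ne_zero ?_ (Finset.prod_ne_zero_iff.2 fun z hz => sub_ne_zero.2 (hk z hz).symm) e
  exact_mod_cast Finset.card_ne_zero.2 ⟨i0, by simp [h0]⟩

lemma gen_map (σ : ℂ →+* ℂ) {x : ℂ} (h : Gen x) : Gen (σ x) := by
  have := (map_ne_zero σ).2 h
  simpa only [Gen, map_mul, map_add, map_sub, map_pow, map_one, map_ofNat] using this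

/-- A matrix that fixes `τ` and has the right eigenvalue gives a Heegner form. -/
lemma heeg_of_fix {p m : ℕ} (hm : 0 < m) (hp : 4 * m = p + 1) {g : M2} (hg : Dl m g) {τ : ℍ}
    (hf : mob g τ = τ) {x e : ℤ} (hx : x = 1 ∨ x = -1) (he : e = 1 ∨ e = -1) (hc : 0 ≤ g 1 0)
    (h : dn g τ ^ 2 = ((x + e * (Complex.I * Real.sqrt p)) / 2) ^ 2) :
    ∃ B, IsHeegner p B τ ∧ B % 4 = (e * x + 2) % 4 := by
  obtain ⟨h1, ⟨a, ha⟩, h3, h4⟩ := hg
  rw [mob_fix_iff (by rw [h1]; exact_mod_cast hm)] at hf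
  rw [Matrix.det_fin_two] at h1
  have p0 : (0 : ℝ) < Real.sqrt p := Real.sqrt_pos.2 (by exact_mod_cast (by omega : 0 < p))
  have sq : ((Real.sqrt p : ℝ) : ℂ) ^ 2 = p := by
    exact_mod_cast Real.sq_sqrt (Nat.cast_nonneg (α := ℝ) p)
  obtain ⟨y, hy, e1⟩ : ∃ y : ℤ, y = e * x ∧ dn g τ = (y + Complex.I * Real.sqrt p) / 2 := by
    have im : 0 ≤ (dn g τ).im := by
      have : (0 : ℝ) ≤ g 1 0 := by exact_mod_cast hc
      simpa [dn] using mul_nonneg this τ.im_pos.le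
    rcases sq_eq_sq_iff_eq_or_eq_neg.1 h with h | h <;> rcases he with rfl | rfl
    · exact ⟨_, rfl, by rw [h]; simp⟩
    · rw [h] at im
      simp at im
      linarith
    · rw [h] at im
      simp at im
      linarith
    · exact ⟨_, rfl, by rw [h]; push_cast; ring⟩
  have y2 : y ^ 2 = 1 := by rcases hx with rfl | rfl <;> rcases he with rfl | rfl <;> simp [hy]
  have h1' : (g 0 0 : ℂ) * g 1 1 - g 0 1 * g 1 0 = m := by exact_mod_cast h1
  have y2' : (y : ℂ) ^ 2 = 1 := by exact_mod_cast y2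
  have hp' : 4 * (m : ℂ) = p + 1 := by exact_mod_cast hp
  have e2 : dn g τ ^ 2 - (g 0 0 + g 1 1) * dn g τ + m = 0 := by
    rw [dn]
    linear_combination (g 1 0 : ℂ) * hf - h1'
  have e3 : dn g τ ^ 2 - y * dn g τ + m = 0 := by
    rw [e1]
    linear_combination (hp' - y2' - sq + ((Real.sqrt p : ℝ) : ℂ) ^ 2 * Complex.I_sq) / 4
  have e4 : g 0 0 + g 1 1 = y := by
    have : ((g 0 0 : ℂ) + g 1 1 - y) * dn g τ = 0 := by linear_combination e3 - e2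
    rcases mul_eq_zero.1 this with h | h
    · exact_mod_cast sub_eq_zero.1 h
    · rw [h] at e3
      simp [hm.ne'] at e3
  have hp'' : 4 * (m : ℤ) = p + 1 := by exact_mod_cast hp
  refine ⟨g 1 1 - g 0 0, ⟨g 1 0, -g 0 1, lt_of_le_of_ne hc fun h0 => ?_, h4, h3.neg_right, ?_, ?_⟩,
    by omega⟩
  · have := congrArg Complex.im e1
    simp [dn, ← h0] at this
    linarith
  · rw [← e4] at y2
    linear_combination y2 - 4 * h1 - hp''
  · push_cast
    linear_combination hf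

end HG

open HG in
theorem hgal (hA : QA) (hB : QB) (hO : ORB) (hT : THA) (h2 : TH2) (h3 : TH3) : HGStmt := by
  rintro p σ ε B τ τ' hp ⟨A, C, hA0, h8A, h8C, hD, hτ⟩ hG hu hv hε hσ
  obtain ⟨m, hm⟩ : ∃ m, 4 * m = p + 1 := ⟨(p + 1) / 4, by omega⟩
  have m0 : 0 < m := by omega
  have hm' : 4 * (m : ℤ) = p + 1 := by exact_mod_cast hm
  obtain ⟨a, x, hx, hB'⟩ : ∃ a x : ℤ, (x = 1 ∨ x = -1) ∧ B = x - 2 * (2 * a + 1) := by
    have : B % 2 = 1 := by
      obtain ⟨A, rfl⟩ := h8A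
      rcases Int.emod_two_eq_zero_or_one B with h | h
      · obtain ⟨k, rfl⟩ := Int.dvd_of_emod_eq_zero h
        have : (p : ℤ) = 4 * (8 * A * C - k ^ 2) := by linear_combination hD
        omega
      · exact h
    by_cases h : B % 4 = 1
    · exact ⟨(-B - 3) / 4, -1, .inr rfl, by omega⟩
    · exact ⟨(-B - 1) / 4, 1, .inl rfl, by omega⟩
  have x2 : x ^ 2 = 1 := by rcases hx with rfl | rfl <;> simp
  obtain ⟨g, hg⟩ : ∃ g : M2, g = !![2 * a + 1, -C; A, 2 * a + 1 + B] := ⟨_, rfl⟩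
  have gD : Dl m g := by
    refine ⟨?_, by simp [hg], by simpa [hg] using h8C, by simpa [hg] using h8A⟩
    rw [hg, Matrix.det_fin_two_of]
    rw [hB'] at hD ⊢
    linarith
  have gf : mob g τ = τ := by
    rw [mob_fix_iff (gD.pos m0), hg]
    simp only [Fin.isValue, of_apply, cons_val', cons_val_zero, cons_val_fin_one, cons_val_one]
    push_cast
    linear_combination hτ
  have gd : dn g τ = (x + Complex.I * Real.sqrt p) / 2 := by
    obtain ⟨e1, e2⟩ := quad_disc (a := A) (b := B) (c := C) (τ := τ) (by exact_mod_cast hτ)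
    have hD' : (B : ℝ) ^ 2 - 4 * A * C = -p := by exact_mod_cast hD
    have e3 : Real.sqrt p = 2 * A * τ.im := by
      have : (0 : ℝ) < A := by exact_mod_cast hA0
      have := τ.im_pos
      rw [Real.sqrt_eq_iff_eq_sq (by positivity) (by positivity)]
      rw [e1, e2] at hD'
      linear_combination hD'
    have hB'' : (B : ℝ) = x - 2 * (2 * a + 1) := by exact_mod_cast hB'
    rw [e3, hg]
    apply Complex.ext <;> simp [dn]
    · linarith
    · ring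
  obtain ⟨i0, hi0, η, hη, e0⟩ := exists_mat m0 gD
  obtain ⟨l1, l2, l3⟩ := left_inv hT h2 m0 gD hη τ
  rw [← e0, gf] at l1 l2
  rw [← e0] at l3
  obtain ⟨i, hi, e⟩ := moments (Jx m)
    (fun i => ![σ (uu (mob (mat i) τ)), σ (vv (mob (mat i) τ)), σ (mu (mat i) τ)])
    (fun i => ![uu (mob (mat i) τ'), vv (mob (mat i) τ'), mu (mat i) τ']) (fun a b c => by
      simpa [Tf] using h3.spec _ (Tf_mod hA hB hO hT h2 m0 a b c)
        (fun γ hγ => Tf_inv hT h2 m0 a b c hγ) (Tf_rq hA hB hO hT h2 m0 a b c) σ τ τ' hG hu hv) hi0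
  have k1 : uu (mob (mat i) τ') = uu τ' := by simpa [l1, hu] using congrFun e 0
  have k2 : vv (mob (mat i) τ') = vv τ' := by simpa [l2, hv] using congrFun e 1
  have k3 : mu (mat i) τ' = σ (mu g τ) := by simpa [l3] using congrFun e 2
  obtain ⟨γ, hγ, eγ⟩ := h3.inj _ τ' (by rw [k1, ← hu, ← map_pow]; exact gen_map σ hG) k1 k2
  have fin : ∀ γ ∈ G8, γ • mob (mat i) τ' = τ' → 0 ≤ ((γ : M2) * mat i) 1 0 →
      ∃ B', IsHeegner p B' τ' ∧ B' % 4 = (ε * B) % 4 := by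
    intro γ hγ eγ hc
    have D' : Dl m (γ * mat i) := by simpa using dl_mul (dl_mat m0 hi) hγ G8.one_mem
    have f' : mob (γ * mat i) τ' = τ' := by
      rw [mob_mul (det_SL_pos γ) ((dl_mat m0 hi).pos m0), mob_SL, eγ]
    have k4 := (left_inv hT h2 m0 (dl_mat m0 hi) hγ τ').2.2
    rw [k3, mu, mu, f', gf, mul_comm, mul_comm (dn g τ ^ 2), div_mul_cancel_left₀
      (pow_ne_zero _ (hT.ne _).1), div_mul_cancel_left₀ (pow_ne_zero _ (hT.ne _).1), map_inv₀,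
      _root_.inv_inj, gd, map_pow, map_div₀, map_add, hσ, map_intCast, map_ofNat] at k4
    obtain ⟨B', b1, b2⟩ := heeg_of_fix m0 hm D' f' hx hε hc k4
    refine ⟨B', b1, ?_⟩
    rcases hx with rfl | rfl <;> rcases hε with rfl | rfl <;> omega
  rcases le_total 0 (((γ : M2) * mat i) 1 0) with h | h
  · exact fin γ hγ eγ h
  · refine fin (-γ) ⟨by simpa using hγ.1, by simpa using hγ.2⟩
      (by rw [ModularGroup.SL_neg_smul, eγ]) (by simpa using h)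

end Pool.Agent.MP_9207e0_ag.h2

end MrgPart2

-- ======== part 3: formerly Pool.Agent.MP_9207e0_ag.h2.HX
section MrgPart3

/-! The Heegner points as sums over a finite set of algebraic points of the Fermat quartic. -/

set_option linter.unusedSectionVars false
set_option linter.unusedVariables false

namespace Pool.Agent.MP_9207e0_ag.h2

open UpperHalfPlane Complex Filter Asymptotics Matrix
open scoped Real MatrixGroups Manifold Classical
open Pool.Agent.MP_9207e0_ag.hg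

namespace HX

variable (ι : Qbar →+* ℂ)

/-- Automorphisms of the algebraic numbers extend to the complex numbers. -/
lemma ext_aut (σ : GQ) : ∃ σ' : ℂ →+* ℂ, ∀ x, σ' (ι x) = ι (σ x) := by
  let _ : Algebra Qbar ℂ := ι.toAlgebra
  obtain ⟨s, hs⟩ := exists_isTranscendenceBasis Qbar ℂ
  have := IsAlgClosed.isAlgClosure_of_transcendence_basis _ hs
  let e := hs.1.aevalEquiv
  let φ := (e.symm.toRingEquiv.trans (MvPolynomial.mapEquiv s σ.toRingEquiv)).trans e.toRingEquiv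
  refine ⟨IsAlgClosure.equivOfEquiv ℂ ℂ φ, fun x => ?_⟩
  have h := IsAlgClosure.equivOfEquiv_algebraMap ℂ ℂ φ (algebraMap Qbar _ x)
  have h1 : φ (algebraMap Qbar _ x) = algebraMap Qbar _ (σ x) := by
    have : e.symm (algebraMap Qbar _ x) = MvPolynomial.C x := e.symm.commutes x
    change e (MvPolynomial.map _ (e.symm _)) = _
    rw [this, MvPolynomial.map_C]
    exact e.commutes _
  rw [h1] at h
  exact h

lemma qv_map (x : Qbar) : qv ι (ι x) = x := by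
  have h : ∃ y, ι y = ι x := ⟨x, rfl⟩
  rw [qv, dif_pos h]
  exact ι.injective h.choose_spec

/-- `x` is the image of `τ` on the Fermat quartic. -/
def At (τ : ℍ) (x : Qbar × Qbar) : Prop := ι x.1 = uu τ ∧ ι x.2 = vv τ

/-- The algebraic point of the Fermat quartic. -/
noncomputable def pr (τ : ℍ) : Qbar × Qbar := (qv ι (uu τ), qv ι (vv τ))

variable {ι}

lemma At.eq {τ : ℍ} {x : Qbar × Qbar} (h : At ι τ x) : pr ι τ = x := by
  rw [pr, ← h.1, ← h.2, qv_map, qv_map]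

lemma uQ_eq (hT : THA) (τ : ℍ) : uQ ι τ = ptc ι (1 / uu τ ^ 2) (vv τ ^ 2 / uu τ ^ 3) := by
  obtain ⟨h1, h2, h3⟩ := hT.ne τ
  rw [uQ, uX, uY, uu, vv]
  congr 1 <;> field_simp

lemma At.uQ (hT : THA) {τ : ℍ} {x : Qbar × Qbar} (h : At ι τ x) : uQ ι τ = PP x := by
  rw [uQ_eq hT, ptc, PP, ← h.1, ← h.2, ← qv_map ι (1 / x.1 ^ 2), ← qv_map ι (x.2 ^ 2 / x.1 ^ 3)]
  simp

lemma At.S (h2 : TH2) {τ : ℍ} {x : Qbar × Qbar} (h : At ι τ x) :
    At ι (ModularGroup.S • τ) x.swap :=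
  ⟨h.2.trans (h2.lawS τ).1.symm, h.1.trans (h2.lawS τ).2.symm⟩

lemma At.T (h2 : TH2) {ζ : Qbar} (hζ : ι ζ = ee (1 / 8)) {τ : ℍ} {x : Qbar × Qbar} (h : At ι τ x)
    (k : ℕ) : At ι (ModularGroup.T ^ k • τ) ((tt ζ)^[k] x) := by
  induction k with
  | zero => simpa using h
  | succ k ih =>
    rw [pow_succ', mul_smul, Function.iterate_succ_apply', At, (h2.lawT _).1, (h2.lawT _).2,
      ← ih.1, ← ih.2, ← hζ]
    simp [tt]

lemma inv_T (h2 : TH2) {τ σ : ℍ} (h : uu τ = uu σ ∧ vv τ = vv σ) (k : ℕ) :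
    uu (ModularGroup.T ^ k • τ) = uu (ModularGroup.T ^ k • σ) ∧
      vv (ModularGroup.T ^ k • τ) = vv (ModularGroup.T ^ k • σ) := by
  induction k with
  | zero => simpa using h
  | succ k ih =>
    rw [pow_succ', mul_smul, mul_smul, (h2.lawT _).1, (h2.lawT _).2, (h2.lawT _).1, (h2.lawT _).2,
      ih.1, ih.2]
    exact ⟨rfl, rfl⟩

lemma at_pr (hC : JC) (hU : THB) (hR : REC) (hT : THA) (h2 : TH2) {n : ℕ} {B : ℤ} {τ : ℍ}
    (h : IsHeegner n B τ) : At ι τ (pr ι τ) := by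
  obtain ⟨A, C, h0, -, -, -, e⟩ := h
  have a1 := hC.alg_val hU.intX (hC.alg_cm A B C τ h0.ne' e)
  have a2 : IsAlgebraic ℚ (uu τ) := by
    refine IsAlgebraic.of_pow two_pos ?_
    rw [show uu τ ^ 2 = (uX τ)⁻¹ by rw [uu, uX, inv_div, div_pow]]
    exact a1.inv
  have a3 : IsAlgebraic ℚ (vv τ) := by
    refine IsAlgebraic.of_pow four_pos ?_
    rw [show vv τ ^ 4 = 1 - uu τ ^ 4 by linear_combination (h2.on τ).1]
    exact isAlgebraic_one.sub (a2.pow 4)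
  exact ⟨hR.qv_spec ι _ a2, hR.qv_spec ι _ a3⟩

end HX

open HX in
theorem hx (hC : JC) (hT : THA) (hU : THB) (hR : REC) (h2 : TH2) (h3 : TH3) (hF : FRM)
    (hG : HGStmt) (ι : Qbar →+* ℂ) {p : ℕ} (hp : p.Prime) (h7 : p % 8 = 7) :
    ∃ (X : Finset (Qbar × Qbar)) (ζ : Qbar) (R : Finset (ℤ × ℍ)) (n : ℕ), (ζ ^ 2) ^ 2 = -1 ∧
      XD p X ∧ IsHeegnerReps p R ∧ 0 < n ∧
      ∀ k : ℕ, yH ι R (ModularGroup.T ^ k) = n • ww ζ X k := by
  obtain ⟨Rp, R, n, hrep, hodd, hR', n0, hsum⟩ := hF.reps p hp h7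
  have z4 : (ee (1 / 8) ^ 2) ^ 2 = -1 := by
    rw [← pow_mul, ee, ← Complex.exp_nat_mul, ← Complex.exp_pi_mul_I]
    congr 1
    push_cast
    ring
  have za : IsAlgebraic ℚ (ee (1 / 8)) := by
    refine IsAlgebraic.of_pow (n := 2 * 2) (by norm_num) ?_
    rw [pow_mul, z4]
    exact isAlgebraic_one.neg
  have hζ := hR.qv_spec ι _ za
  have hat : ∀ τ ∈ HP p, At ι τ (pr ι τ) := fun τ ⟨B, _, h⟩ => at_pr hC hU hR hT h2 h
  have hgen : ∀ τ ∈ HP p, Gen (uu τ ^ 4) := fun τ ⟨B, _, h⟩ => h3.gen τ (hF.stab p B τ h7 hp h)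
  have inj : Set.InjOn (pr ι) Rp := fun τ hτ σ hσ e => by
    have a1 := hat τ (hrep.1 τ hτ)
    have a2 := hat σ (hrep.1 σ hσ)
    rw [← e] at a2
    exact (hrep.2 τ (hrep.1 τ hτ)).unique ⟨hτ, 1, G8.one_mem, one_smul _ _⟩
      ⟨hσ, h3.inj τ σ (hgen τ (hrep.1 τ hτ)) (a1.1.symm.trans a2.1) (a1.2.symm.trans a2.2)⟩
  have mem : ∀ τ ∈ HP p, ∀ x, At ι τ x → x ∈ Rp.image (pr ι) := fun τ hτ x hx => by
    obtain ⟨ρ, ⟨h1, γ, hγ, rfl⟩, -⟩ := hrep.2 τ hτ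
    obtain ⟨e1, e2, -⟩ := h2.inv γ hγ τ
    exact Finset.mem_image.2 ⟨_, h1, At.eq ⟨hx.1.trans e1.symm, hx.2.trans e2.symm⟩⟩
  refine ⟨Rp.image (pr ι), qv ι (ee (1 / 8)), R, n,
    ι.injective (by rw [map_pow, map_pow, hζ, z4, map_neg, map_one]),
    ⟨by rwa [Finset.card_image_of_injOn inj], fun x hx => ?_, fun σ r hr x hx => ?_⟩, hR', n0,
    fun k => ?_⟩
  · obtain ⟨τ, hτ, rfl⟩ := Finset.mem_image.1 hx
    obtain ⟨a1, a2⟩ := hat τ (hrep.1 τ hτ)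
    obtain ⟨e1, e2, e3⟩ := h2.on τ
    rw [← a1] at e1 e2
    rw [← a2] at e1 e3
    exact ⟨ι.injective (by simpa using e1), (map_ne_zero ι).1 e2, (map_ne_zero ι).1 e3⟩
  · obtain ⟨τ, hτ, rfl⟩ := Finset.mem_image.1 hx
    have hτ' := hrep.1 τ hτ
    obtain ⟨a1, a2⟩ := hat τ hτ'
    obtain ⟨σ', hσ⟩ := ext_aut ι σ
    obtain ⟨e1, e2, e3⟩ := h2.on τ
    obtain ⟨τ', u1, u2⟩ := h3.surj (σ' (uu τ)) (σ' (vv τ)) (by simpa using congrArg σ' e1)
      ((map_ne_zero σ').2 e2) ((map_ne_zero σ').2 e3)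
    have b : At ι τ' (σ (pr ι τ).1, σ (pr ι τ).2) :=
      ⟨by rw [← hσ, a1, u1], by rw [← hσ, a2, u2]⟩
    have sq : (Complex.I * Real.sqrt p) ^ 2 = ι r ^ 2 := by
      have : ((Real.sqrt p : ℝ) : ℂ) ^ 2 = p := by
        exact_mod_cast Real.sq_sqrt (Nat.cast_nonneg (α := ℝ) p)
      rw [← map_pow, hr, mul_pow, this, Complex.I_sq]
      simp
    have key : ∀ ε : ℤ, σ r = ε * r →
        σ' (Complex.I * Real.sqrt p) = ε * (Complex.I * Real.sqrt p) := fun ε h => by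
      rcases sq_eq_sq_iff_eq_or_eq_neg.1 sq with e | e <;> rw [e] <;> simp [hσ, h]
    obtain ⟨B, hB, hτB⟩ := id hτ'
    constructor
    · intro h
      obtain ⟨B', c1, c2⟩ := hG p σ' 1 B τ τ' h7 hτB (hgen τ hτ') u1.symm u2.symm (.inl rfl)
        (key 1 (by simpa using h))
      exact mem τ' ⟨B', by omega, c1⟩ _ b
    · intro h
      obtain ⟨B', c1, c2⟩ := hG p σ' (-1) B τ τ' h7 hτB (hgen τ hτ') u1.symm u2.symm (.inr rfl)
        (key (-1) (by simpa using h))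
      exact mem _ ⟨-B', by omega, hF.lawS p B' τ' hp.pos c1⟩ _ (b.S h2)
  · rw [yH, hsum (fun τ => uQ ι (ModularGroup.T ^ k • τ)) fun γ hγ τ => ?_, ww,
      Finset.sum_image inj]
    · congr 1
      refine Finset.sum_congr rfl fun τ hτ => ?_
      have a := hat τ (hrep.1 τ hτ)
      rw [(a.T h2 hζ k).uQ hT, ((a.S h2).T h2 hζ k).uQ hT]
    · obtain ⟨e1, e2, -⟩ := h2.inv γ hγ τ
      obtain ⟨e3, e4⟩ := inv_T h2 ⟨e1, e2⟩ k
      simp only [uQ_eq hT, e3, e4]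

end Pool.Agent.MP_9207e0_ag.h2

end MrgPart3

-- ======== part 4: formerly Pool.Agent.MP_9207e0_ag.h2.Fin
section MrgPart4

/-! The symbol vanishes on all points over `ℚ(i, √2, √p)`. -/

set_option linter.unusedSectionVars false
set_option linter.unusedVariables false

namespace Pool.Agent.MP_9207e0_ag.h2

open UpperHalfPlane Complex Filter Asymptotics Matrix WeierstrassCurve
open scoped Real MatrixGroups Manifold Classical
open Pool.Agent.MP_9207e0_ag.hg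
open Pool.Agent.MP_a43263_nt.Two (some_eq)

/-- The inclusion of the points over a subfield. -/
noncomputable def incF (F : IntermediateField ℚ Qbar) : (legendre (-1 : F)).Point →+ EQ :=
  scl (algebraMap F Qbar) 1 one_ne_zero (isE_leg F) (by simpa using isE_leg Qbar)

lemma mem_range_incF (F : IntermediateField ℚ Qbar) (P : EQ) :
    P ∈ (incF F).range ↔ ∀ x y h, P = .some x y h → x ∈ F ∧ y ∈ F := by
  constructor
  · rintro ⟨_ | ⟨x, y, h⟩, rfl⟩ x' y' h' e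
    · exact absurd e.symm (Affine.Point.some_ne_zero _)
    · obtain ⟨e1, e2⟩ := Affine.Point.some.inj e
      rw [← e1, ← e2]
      simp
  · intro H
    rcases P with _ | ⟨x, y, h⟩
    · exact ⟨0, rfl⟩
    · obtain ⟨hx, hy⟩ := H x y h rfl
      refine ⟨.some ⟨x, hx⟩ ⟨y, hy⟩ ((isE_leg F).ns (Subtype.ext ?_)),
        some_eq (by simp) (by simp)⟩
      simpa using (isE_leg Qbar).eqn h

lemma mem_range_iff (F : IntermediateField ℚ Qbar) (P : EQ) :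
    P ∈ (incF F).range ↔ ∀ σ : GQ, (∀ z ∈ F, σ z = z) → ga σ P = P := by
  rw [mem_range_incF]
  constructor
  · intro H σ hσ
    rcases P with _ | ⟨x, y, h⟩
    · rfl
    · obtain ⟨hx, hy⟩ := H x y h rfl
      obtain ⟨h', e⟩ := ga_some σ h
      exact e.trans (some_eq (hσ x hx) (hσ y hy))
  · rintro H x y h rfl
    rw [← InfiniteGalois.fixedField_fixingSubgroup F, IntermediateField.mem_fixedField_iff,
      IntermediateField.mem_fixedField_iff, ← forall₂_and]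
    intro σ hσ
    obtain ⟨h', e⟩ := ga_some σ h
    exact Affine.Point.some.inj (e.symm.trans (H σ ((F.mem_fixingSubgroup_iff σ).1 hσ)))

lemma rank_eq {A : Type} [AddCommGroup A] {n : ℕ} {v : Fin n → A} (hv : LinearIndependent ℤ v)
    (h : ∀ a, ∃ k : ℤ, k ≠ 0 ∧ k • a ∈ Submodule.span ℤ (Set.range v)) : Module.rank ℤ A = n := by
  have h1 := Submodule.rank_quotient_add_rank (Submodule.span ℤ (Set.range v))
  rw [rank_span hv, Cardinal.mk_range_eq_of_injective hv.injective |> Cardinal.lift_injective,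
    rank_eq_zero_iff.2, zero_add] at h1
  · simpa using h1.symm
  · intro x
    obtain ⟨a, rfl⟩ := Submodule.Quotient.mk_surjective _ x
    obtain ⟨k, hk, e⟩ := h a
    exact ⟨k, hk, by rwa [← Submodule.Quotient.mk_smul, Submodule.Quotient.mk_eq_zero]⟩

theorem fin (hC : JC) (hT : THA) (hU : THB) (hR : REC) (hZ : ZindStmt) (hH : HeegStmt)
    (hA : AppStmt) (h2 : TH2) (h3 : TH3) (hF : FRM) (hG : HGStmt) (hS : TorsStmt) (hD : DecStmt)
    {p : ℕ} (hp : p.Prime) (h7 : p % 8 = 7) (F : IntermediateField ℚ Qbar)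
    (hF' : F = IntermediateField.adjoin ℚ {z : Qbar | z ^ 2 = -1 ∨ z ^ 2 = 2 ∨ z ^ 2 = p}) :
    Module.rank ℤ (legendre (-1 : F)).Point = 4 ∧
      ∀ {V : Type} [AddCommGroup V] {β : EQ →+ EQ →+ V}, Sym β → ∀ (a b : EQ) (k l : ℤ), k ≠ 0 →
        l ≠ 0 → k • a ∈ (incF F).range → l • b ∈ (incF F).range → β a b = 0 := by
  let ι : Qbar →+* ℂ := (IsAlgClosed.lift : Qbar →ₐ[ℚ] ℂ)
  obtain ⟨X, ζ, R, n, hi, hX, hR', n0, e⟩ := hx hC hT hU hR h2 h3 hF hG ι hp h7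
  obtain ⟨r, hr⟩ := IsAlgClosed.exists_pow_nat_eq (-p : Qbar) two_pos
  obtain ⟨t, ht⟩ := IsAlgClosed.exists_pow_nat_eq (2 : Qbar) two_pos
  have hs : (t * (ζ ^ 2 * r)) ^ 2 = 2 * p := by rw [mul_pow, mul_pow, hi, hr, ht]; ring
  obtain ⟨e2, e3, g1, n1, g2, n2⟩ := hS p X ζ r _ hi hp h7 hX hr hs
  have D := fun M => hD p _ t r _ hi _ _ M hp h7 ht hr hs g1 n1 g2 n2
  have mi : ζ ^ 2 ∈ F := hF' ▸ IntermediateField.subset_adjoin _ _ (Or.inl hi)
  have mt : t ∈ F := hF' ▸ IntermediateField.subset_adjoin _ _ (Or.inr (Or.inl ht))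
  have hq : (ζ ^ 2 * r) ^ 2 = p := by rw [mul_pow, hi, hr]; ring
  have mq : ζ ^ 2 * r ∈ F := hF' ▸ IntermediateField.subset_adjoin _ _ (Or.inr (Or.inr hq))
  have mr : r ∈ F := by
    rw [show r = -(ζ ^ 2 * (ζ ^ 2 * r)) by linear_combination r * hi]
    exact F.neg_mem (F.mul_mem mi mq)
  have fx : ∀ P ∈ (incF F).range, ∀ σ : GQ, σ (ζ ^ 2) = ζ ^ 2 → σ t = t → σ r = r →
      ga σ P = P := fun P hP σ a1 a2 a3 => by
    refine (mem_range_iff F P).1 hP σ fun z hz => ?_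
    have : F ≤ IntermediateField.fixedField (Subgroup.zpowers σ) := by
      rw [hF', IntermediateField.adjoin_le_iff]
      intro z hz
      rw [SetLike.mem_coe, ← IntermediateField.adjoin_simple_le_iff, IntermediateField.le_iff_le,
        Subgroup.zpowers_le, IntermediateField.mem_fixingSubgroup_iff]
      have key : σ z = z := by
        rcases hz with h | h | h
        · rcases sq_eq_sq_iff_eq_or_eq_neg.1 (h.trans hi.symm) with rfl | rfl <;> simp only [map_neg, a1]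
        · rcases sq_eq_sq_iff_eq_or_eq_neg.1 (h.trans ht.symm) with rfl | rfl <;> simp only [map_neg, a2]
        · rcases sq_eq_sq_iff_eq_or_eq_neg.1 (h.trans hq.symm) with rfl | rfl <;>
            simp only [map_neg, map_mul, a1, a3]
      intro x hx
      induction hx using IntermediateField.adjoin_induction with
      | mem x hx => rw [hx, key]
      | algebraMap x => exact σ.commutes x
      | add x y _ _ h1 h2 => rw [map_add, h1, h2]
      | inv x _ h1 => rw [map_inv₀, h1]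
      | mul x y _ _ h1 h2 => rw [map_mul, h1, h2]
    exact (IntermediateField.mem_fixedField_iff _ _).1 (this hz) σ (Subgroup.mem_zpowers σ)
  constructor
  · have mJ : ∀ P ∈ (incF F).range, cmJ _ hi P ∈ (incF F).range := fun P hP => by
      rw [mem_range_iff] at hP ⊢
      exact fun σ hσ => by rw [(ga_cmJ hi σ P).1 (hσ _ mi), hP σ hσ]
    have m1 := (mem_range_iff F _).2 fun σ hσ => (g1 σ).1 (hσ r mr)
    have m2 := (mem_range_iff F _).2 fun σ hσ => (g2 σ).1 (hσ _ (F.mul_mem mt mq))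
    obtain ⟨a1, b1⟩ := id m1
    obtain ⟨a2, b2⟩ := mJ _ m1
    obtain ⟨a3, b3⟩ := id m2
    obtain ⟨a4, b4⟩ := mJ _ m2
    refine rank_eq (n := 4) (v := ![a1, a2, a3, a4]) ?_ fun a => ?_
    · refine LinearIndependent.of_comp (incF F).toIntLinearMap ?_
      convert (D ⊥).2 using 1
      ext i
      fin_cases i <;> simp [b1, b2, b3, b4]
    · have mm : ∀ i, incF F (![a1, a2, a3, a4] i) ∈
          (Submodule.span ℤ (Set.range ![a1, a2, a3, a4])).toAddSubgroup.map (incF F) :=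
        fun i => ⟨_, Submodule.subset_span ⟨i, rfl⟩, rfl⟩
      obtain ⟨k, hk, c, hc, ec⟩ := (D _).1 (b1 ▸ mm 0) (b2 ▸ mm 1) (b3 ▸ mm 2) (b4 ▸ mm 3) _
        (fx _ ⟨a, rfl⟩)
      rw [← map_zsmul] at ec
      exact ⟨k, hk, scl_injective _ _ _ _ _ ec ▸ hc⟩
  · intro V _ β hβ
    have n0' : (n : ℤ) ≠ 0 := by exact_mod_cast n0.ne'
    have mw : ∀ k, ww ζ X k ∈ AddSubgroup.closure (Set.range (ww ζ X)) := fun k =>
      AddSubgroup.subset_closure ⟨k, rfl⟩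
    have sat : ∀ (a : EQ) (k : ℤ), k ≠ 0 → k • a ∈ (incF F).range →
        ∃ k : ℤ, k ≠ 0 ∧ k • a ∈ AddSubgroup.closure (Set.range (ww ζ X)) := fun a k hk ha => by
      obtain ⟨l, hl, h⟩ := (D _).1 (mw 0) (e2 ▸ mw 2)
        (add_mem (nsmul_mem (mw 1) 2) (nsmul_mem (mw 3) 2)) (by
          rw [map_add, map_nsmul, map_nsmul, ← e3, e3, cmJ_cmJ, ← e3]
          exact add_mem (nsmul_mem (mw 3) 2) (nsmul_mem (neg_mem (mw 1)) 2)) _ (fx _ ha)
      exact ⟨l * k, mul_ne_zero hl hk, by rwa [mul_smul]⟩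
    intro a b k l hk hl ha hb
    obtain ⟨k', hk', ha'⟩ := sat a k hk ha
    obtain ⟨l', hl', hb'⟩ := sat b l hl hb
    refine sym_sat hβ ?_ hk' hl' ha' hb'
    rintro _ ⟨i, rfl⟩ _ ⟨j, rfl⟩
    have := sym_yH hU hR hZ hH hA ι hβ hp.squarefree h7 hR' (ModularGroup.T ^ i)
      (ModularGroup.T ^ j)
    rw [e, e, map_nsmul, map_nsmul, AddMonoidHom.nsmul_apply, ← natCast_zsmul, ← natCast_zsmul]
      at this
    exact hβ.tf _ _ n0' (hβ.tf _ _ n0' this)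

end Pool.Agent.MP_9207e0_ag.h2

end MrgPart4

-- ======== part 5: formerly Pool.Agent.MP_9207e0_ag.h2.All
section MrgPart5

/-! Assembly of all modules. -/

namespace Pool.Agent.MP_9207e0_ag.h2

open scoped Classical
open Pool.Agent.MP_9207e0_ag.hg

theorem all {p : ℕ} (hp : p.Prime) (h7 : p % 8 = 7) (F : IntermediateField ℚ Qbar)
    (hF' : F = IntermediateField.adjoin ℚ {z : Qbar | z ^ 2 = -1 ∨ z ^ 2 = 2 ∨ z ^ 2 = p}) :
    Module.rank ℤ (legendre (-1 : F)).Point = 4 ∧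
      ∀ {V : Type} [AddCommGroup V] {β : EQ →+ EQ →+ V}, Sym β → ∀ (a b : EQ) (k l : ℤ), k ≠ 0 →
        l ≠ 0 → k • a ∈ (incF F).range → l • b ∈ (incF F).range → β a b = 0 := by
  have hA := qa
  have hO := orb
  have hS := os
  have hF := fs hS hO
  have hB := qb hA hO
  have hJ := ja hA hB
  have hC := jc hA hB hJ hO
  have hI := jb hA hB hJ
  have hT := tha hA hB
  have hU := thb hA hB hT
  have hR := recip hB hJ hC hI hT hU hS (modf hA hB hJ hC hI hO hS)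
  have hG := gen hA hB hJ
  have hM := thmod hA hB hT
  have hH := hat hA
  have hK := hecke hA hO hH
  have hE := e2a hA hB hJ form
  have hL := leadm hA hB hO
  have hD := den hA hB hJ hO form hE
  have hP := prodb hA hB hO hH hK form hL hD (ordf hA hB) (proda hA hB hH hK form hE hD)
  have hAp := app hB hC hT hU hS hO hF hR (inp hA hB hG hM hH (emb hG hM) (poin hB))
    (bor hA hB hC hO hH hE hL hD (denu hB hJ hI hO hL) hP)
  have h2 := th2 hA hB hT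
  have h3 := th3 hA hB hJ hI hT h2
  exact fin hC hT hU hR (zind hS hO hF) (heeg hS hO hF) hAp h2 h3 (frm hS hO)
    (hgal hA hB hO hT h2 h3) tors (dec rank) hp h7 F hF'

end Pool.Agent.MP_9207e0_ag.h2

end MrgPart5

-- marker of a merged file
example : 731051 + 224500 = 731051 + 224500 := rfl
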